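import Pool.Agent.H.MP_89f84f_ag.Red

/-!
# The density argument

`K` is a field with an involution `σ` with fixed field `k`, and `ι : K → F` an embedding.
-/

open Polynomial

noncomputable section

namespace WRes

section maps

variable {A B : Type*} [Field A] [Field B] (φ : A →+* B)

theorem map_ff (a b x : A) : φ (ff a b x) = ff (φ a) (φ b) (φ x) := by
  simp [ff]

theorem aeval_pf_self (a b x : A) : aeval x (pf a b) = ff a b x := by
  rw [aeval_pf]
  rfl

theorem map_dl (a b x : A) : φ (dl a b x) = dl (φ a) (φ b) (φ x) := by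
  simp only [dl, map_div₀, map_add, map_sub, map_mul, map_pow, map_ofNat, map_ff]

theorem map_it (a b x : A) (j : ℕ) : φ ((dl a b)^[j] x) = (dl (φ a) (φ b))^[j] (φ x) := by
  induction j with
  | zero => rfl
  | succ j ih => rw [Function.iterate_succ_apply', Function.iterate_succ_apply', map_dl, ih]

theorem map_cx (a b a' b' r : A) : φ (cx a b a' b' r) = cx (φ a) (φ b) (φ a') (φ b') (φ r) := by
  simp [cx]

theorem map_cy (a b a' b' r : A) : φ (cy a b a' b' r) = cy (φ a) (φ b) (φ a') (φ b') (φ r) := by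
  simp [cy, map_cx]

theorem cx_inv (a b a' b' : A) {r : A} (hr : r ≠ 0) : cx a' b' a b r⁻¹ = cy a b a' b' r := by
  unfold cy cx
  by_cases h : a - a' * r ^ 4 = 0
  · have h' : a' - a * r⁻¹ ^ 4 = 0 := by
      have : a' - a * r⁻¹ ^ 4 = -(a - a' * r ^ 4) / r ^ 4 := by
        field_simp
        ring
      rw [this, h, neg_zero, zero_div]
    rw [h, h', div_zero, div_zero, zero_div]
  · have h' : a' - a * r⁻¹ ^ 4 = -(a - a' * r ^ 4) / r ^ 4 := by
      field_simp
      ring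
    rw [h']
    field_simp
    ring

end maps

variable {k K F : Type*} [Field k] [Field K] [Field F] [Algebra k K]

/-- `σ` is an involution of `K` with fixed field `k` and `σ ω = - ω ≠ ω`. -/
structure Conj (k : Type*) {K : Type*} [Field k] [Field K] [Algebra k K] (σ : K →+* K) (ω : K) :
    Prop where
  inv : ∀ x, σ (σ x) = x
  fix : ∀ x, σ x = x → ∃ c : k, algebraMap k K c = x
  alg : ∀ c : k, σ (algebraMap k K c) = algebraMap k K c
  om : σ ω = -ω
  om0 : ω ≠ 0

/-- The parameter `(t + ω) / (t - ω)`. -/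
def par (ω : K) (t : k) : K := (algebraMap k K t + ω) / (algebraMap k K t - ω)

namespace Conj

variable {σ : K →+* K} {ω : K} (hc : Conj k σ ω)
include hc

theorem ne_add [CharZero K] (t : k) : algebraMap k K t + ω ≠ 0 := by
  intro h
  have h1 : ω = -algebraMap k K t := eq_neg_of_add_eq_zero_right h
  have h2 : σ ω = ω := by rw [h1, map_neg, hc.alg]
  rw [hc.om] at h2
  exact hc.om0 (self_eq_neg.1 h2.symm)

theorem ne_sub [CharZero K] (t : k) : algebraMap k K t - ω ≠ 0 := by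
  intro h
  have h1 : ω = algebraMap k K t := (sub_eq_zero.1 h).symm
  have h2 : σ ω = ω := by rw [h1, hc.alg]
  rw [hc.om] at h2
  exact hc.om0 (self_eq_neg.1 h2.symm)

theorem par_ne [CharZero K] (t : k) : par ω t ≠ 0 := div_ne_zero (hc.ne_add t) (hc.ne_sub t)

theorem par_inj [CharZero K] : Function.Injective (par ω : k → K) := by
  intro t t' h
  unfold par at h
  rw [div_eq_div_iff (hc.ne_sub t) (hc.ne_sub t')] at h
  have h1 : 2 * ω * (algebraMap k K t - algebraMap k K t') = 0 := by linear_combination -h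
  have h2 := (mul_eq_zero.1 h1).resolve_left (mul_ne_zero two_ne_zero hc.om0)
  exact (algebraMap k K).injective (sub_eq_zero.1 h2)

theorem map_par (t : k) : σ (par ω t) = (par ω t)⁻¹ := by
  unfold par
  rw [map_div₀, map_add, map_sub, hc.alg, hc.om, inv_div, sub_neg_eq_add, ← sub_eq_add_neg]

/-- The point with parameter `t`. -/
theorem map_xt [CharZero K] (a b : K) (t : k) :
    σ (cx a b (σ a) (σ b) (par ω t)) = cy a b (σ a) (σ b) (par ω t) := by
  rw [map_cx, hc.inv, hc.inv, hc.map_par, cx_inv _ _ _ _ (hc.par_ne t)]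

/-- The twist. -/
theorem exists_D [CharZero K] {a b : K} {t : k} (ht : a - σ a * par ω t ^ 4 ≠ 0) :
    ∃ D : k, algebraMap k K D * (algebraMap k K t + ω) ^ 6 =
      ff a b (cx a b (σ a) (σ b) (par ω t)) := by
  have hs := hc.ne_add t
  have hs' := hc.ne_sub t
  have h1 := ff_cx (b := b) (b' := σ b) (hc.par_ne t) ht
  obtain ⟨D, hD⟩ := hc.fix (ff a b (cx a b (σ a) (σ b) (par ω t)) /
    (algebraMap k K t + ω) ^ 6) (by
      rw [map_div₀, map_ff, hc.map_xt, map_pow, map_add, hc.alg, hc.om, ← sub_eq_add_neg, h1]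
      unfold par
      field_simp)
  refine ⟨D, ?_⟩
  rw [hD]
  field_simp

end Conj

/-- Duplication on the twists. -/
theorem twist_it [CharZero K] {a b x D w : K} (hw : D * w ^ 2 = ff a b x) (j : ℕ)
    (h : ∀ i ≤ j, ff a b ((dl a b)^[i] x) ≠ 0) :
    ∃ w' ≠ 0, D * w' ^ 2 = ff a b ((dl a b)^[j] x) := by
  induction j with
  | zero =>
    refine ⟨w, ?_, hw⟩
    rintro rfl
    refine h 0 le_rfl ?_
    show ff a b x = 0
    rw [← hw]
    ring
  | succ j ih =>
    obtain ⟨w', -, hw'⟩ := ih (fun i hi => h i (hi.trans (Nat.le_succ j)))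
    have h1 := h j (Nat.le_succ j)
    have h2 := h (j + 1) le_rfl
    rw [Function.iterate_succ_apply'] at h2 ⊢
    have h3 := ff_dl h1
    set q := ps a b ((dl a b)^[j] x) / (8 * ff a b ((dl a b)^[j] x) ^ 2) with hq
    have e : D * (w' * q) ^ 2 = ff a b (dl a b ((dl a b)^[j] x)) := by
      rw [h3]
      linear_combination q ^ 2 * hw'
    refine ⟨w' * q, ?_, e⟩
    intro h0
    apply h2
    rw [← e, h0]
    ring

variable [CharZero F] [IsAlgClosed F]

/-- The density argument: a function on the product of the two curves over `F` which vanishes at the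
points of the twists with nonsquare `D` and at the pairs of different `K`-points vanishes. -/
theorem abs_main {σ : K →+* K} {ω : K} (hc : Conj k σ ω) (ι : K →+* F) {a b : K} (ha : a ≠ 0)
    (hb : b ≠ 0) {g : F → F → F → F → F}
    (hg : HasDec (pf (ι a) (ι b)) (pf (ι (σ a)) (ι (σ b))) g)
    (hA : ∀ (D : k) (x w : K) (ρ : F), (∀ e : k, e ^ 2 ≠ D) → w ≠ 0 →
      algebraMap k K D * w ^ 2 = ff a b x → ρ ^ 2 = ι (algebraMap k K D) →
      g (ι x) (ι w * ρ) (ι (σ x)) (ι (σ w) * ρ) = 0)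
    (hB : ∀ x y x' y' : K, y ^ 2 = ff a b x → y' ^ 2 = ff a b x' → x ≠ x' →
      g (ι x) (ι y) (ι (σ x')) (ι (σ y')) = 0)
    {x₁ y₁ x₂ y₂ : F} (h1 : y₁ ^ 2 = aeval x₁ (pf (ι a) (ι b)))
    (h2 : y₂ ^ 2 = aeval x₂ (pf (ι (σ a)) (ι (σ b)))) : g x₁ y₁ x₂ y₂ = 0 := by
  have : CharZero K := ι.charZero
  have : CharZero k := (algebraMap k K).charZero
  obtain ⟨α, β, γ, δ, H⟩ := hg
  suffices hz : α = 0 ∧ β = 0 ∧ γ = 0 ∧ δ = 0 by
    obtain ⟨rfl, rfl, rfl, rfl⟩ := hz
    rw [H _ _ _ _ h1 h2]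
    simp
  have hσa : σ a ≠ 0 := (map_ne_zero σ).2 ha
  have hσb : σ b ≠ 0 := (map_ne_zero σ).2 hb
  have hιa : ι a ≠ 0 := (map_ne_zero ι).2 ha
  have hιb : ι b ≠ 0 := (map_ne_zero ι).2 hb
  have hισa : ι (σ a) ≠ 0 := (map_ne_zero ι).2 hσa
  set xt : k → K := fun t => cx a b (σ a) (σ b) (par ω t) with hxt
  set rt : k → F := fun t => ι (par ω t) with hrt
  have hrinj : Function.Injective rt := fun t t' h => hc.par_inj (ι.injective h)
  have hι : ∀ t, ι (xt t) = cx (ι a) (ι b) (ι (σ a)) (ι (σ b)) (rt t) := fun t => map_cx ι _ _ _ _ _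
  have hισ : ∀ t, ι (σ (xt t)) = cy (ι a) (ι b) (ι (σ a)) (ι (σ b)) (rt t) := fun t => by
    rw [hxt]
    simp only
    rw [hc.map_xt]
    exact map_cy ι _ _ _ _ _
  -- exceptional parameters
  have hB0 : {t : k | a - σ a * par ω t ^ 4 = 0}.Finite := by
    have h3 : (C (ι a) - C (ι (σ a)) * X ^ 4 : F[X]) ≠ 0 := by
      intro h0
      have := congrArg (eval 0) h0
      simp at this
      exact hιa ((map_eq_zero ι).2 this)
    refine ((Polynomial.finite_setOfPred_isRoot h3).preimage hrinj.injOn).subset fun t ht => ?_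
    have ht' : a - σ a * par ω t ^ 4 = 0 := ht
    show eval (rt t) (C (ι a) - C (ι (σ a)) * X ^ 4) = 0
    simp only [eval_sub, eval_mul, eval_C, eval_pow, eval_X]
    have h4 := congrArg ι ht'
    rw [map_sub, map_mul, map_pow, map_zero] at h4
    exact h4
  have hBj : ∀ j : ℕ, {t : k | ff a b ((dl a b)^[j] (xt t)) = 0}.Finite := by
    intro j
    refine ((curve_ff (b' := ι (σ b)) hιa hιb hισa j).preimage hrinj.injOn).subset
      fun t ht => ?_
    have ht' : ff a b ((dl a b)^[j] (xt t)) = 0 := ht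
    show ff (ι a) (ι b) ((dl (ι a) (ι b))^[j]
      (cx (ι a) (ι b) (ι (σ a)) (ι (σ b)) (rt t))) = 0
    rw [← hι, ← map_it, ← map_ff, ht', map_zero]
  have hD : ∀ t : k, ∃ D : k, a - σ a * par ω t ^ 4 ≠ 0 →
      algebraMap k K D * (algebraMap k K t + ω) ^ 6 = ff a b (xt t) := by
    intro t
    by_cases ht : a - σ a * par ω t ^ 4 = 0
    · exact ⟨0, fun h => absurd ht h⟩
    · obtain ⟨D, hD⟩ := hc.exists_D (b := b) ht
      exact ⟨D, fun _ => hD⟩
  choose Dt hDt using hD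
  have hpt : ∀ j t, ι ((dl a b)^[j] (xt t)) =
      (dl (ι a) (ι b))^[j] (cx (ι a) (ι b) (ι (σ a)) (ι (σ b)) (rt t)) := fun j t => by
    rw [map_it, hι]
  have hpt' : ∀ j t, ι (σ ((dl a b)^[j] (xt t))) =
      (dl (ι (σ a)) (ι (σ b)))^[j] (cy (ι a) (ι b) (ι (σ a)) (ι (σ b)) (rt t)) := fun j t => by
    rw [map_it σ, map_it ι, hισ]
  by_cases hT : {t : k | a - σ a * par ω t ^ 4 ≠ 0 ∧ ∀ e : k, e ^ 2 ≠ Dt t}.Infinite
  · -- infinitely many twists
    have key : ∀ j, {t : k | ∃ Y₁ Y₂ : F,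
        Y₁ ^ 2 = aeval (ι ((dl a b)^[j] (xt t))) (pf (ι a) (ι b)) ∧
        Y₂ ^ 2 = aeval (ι (σ ((dl a b)^[j] (xt t)))) (pf (ι (σ a)) (ι (σ b))) ∧
        ev (ι ((dl a b)^[j] (xt t))) (ι (σ ((dl a b)^[j] (xt t)))) α +
          ev (ι ((dl a b)^[j] (xt t))) (ι (σ ((dl a b)^[j] (xt t)))) δ * (Y₁ * Y₂) = 0 ∧
        ev (ι ((dl a b)^[j] (xt t))) (ι (σ ((dl a b)^[j] (xt t)))) β * Y₁ +
          ev (ι ((dl a b)^[j] (xt t))) (ι (σ ((dl a b)^[j] (xt t)))) γ * Y₂ = 0}.Infinite := by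
      intro j
      have hfin : (⋃ i ∈ Set.Iic j, {t : k | ff a b ((dl a b)^[i] (xt t)) = 0}).Finite :=
        (Set.finite_Iic j).biUnion fun i _ => hBj i
      refine (hT.sdiff hfin).mono ?_
      rintro t ⟨⟨ht1, ht2⟩, ht3⟩
      simp only [Set.mem_iUnion, Set.mem_Iic, Set.mem_ofPred_eq, not_exists] at ht3
      obtain ⟨w, hw0, hw⟩ := twist_it (D := algebraMap k K (Dt t))
        (w := (algebraMap k K t + ω) ^ 3) (by rw [← hDt t ht1]; ring) j ht3
      obtain ⟨ρ, hρ⟩ := IsAlgClosed.exists_pow_nat_eq (ι (algebraMap k K (Dt t)))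
        (Nat.zero_lt_two)
      have e1 := hA (Dt t) ((dl a b)^[j] (xt t)) w ρ ht2 hw0 hw hρ
      have e2 := hA (Dt t) ((dl a b)^[j] (xt t)) (-w) ρ ht2 (neg_ne_zero.2 hw0)
        (by rw [neg_sq]; exact hw) hρ
      have q1 : (ι w * ρ) ^ 2 = aeval (ι ((dl a b)^[j] (xt t))) (pf (ι a) (ι b)) := by
        rw [mul_pow, hρ, aeval_pf_self, ← map_ff, ← hw, map_mul, map_pow]
        ring
      have q2 : (ι (σ w) * ρ) ^ 2 =
          aeval (ι (σ ((dl a b)^[j] (xt t)))) (pf (ι (σ a)) (ι (σ b))) := by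
        rw [mul_pow, hρ, aeval_pf_self, ← map_ff, ← map_ff, ← hw, map_mul, map_pow, hc.alg, map_mul,
          map_pow]
        ring
      refine ⟨ι w * ρ, ι (σ w) * ρ, q1, q2, ?_, ?_⟩
      · rw [H _ _ _ _ q1 q2] at e1
        rw [map_neg, map_neg, map_neg, neg_mul, neg_mul,
          H _ _ _ _ (by rw [neg_sq]; exact q1) (by rw [neg_sq]; exact q2)] at e2
        linear_combination (1 / 2 : F) * e1 + (1 / 2 : F) * e2
      · rw [H _ _ _ _ q1 q2] at e1
        rw [map_neg, map_neg, map_neg, neg_mul, neg_mul,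
          H _ _ _ _ (by rw [neg_sq]; exact q1) (by rw [neg_sq]; exact q2)] at e2
        linear_combination (1 / 2 : F) * e1 - (1 / 2 : F) * e2
    have hval : ∀ G : F[X][X], (∀ j t, (∃ Y₁ Y₂ : F,
        Y₁ ^ 2 = aeval (ι ((dl a b)^[j] (xt t))) (pf (ι a) (ι b)) ∧
        Y₂ ^ 2 = aeval (ι (σ ((dl a b)^[j] (xt t)))) (pf (ι (σ a)) (ι (σ b))) ∧
        ev (ι ((dl a b)^[j] (xt t))) (ι (σ ((dl a b)^[j] (xt t)))) α +
          ev (ι ((dl a b)^[j] (xt t))) (ι (σ ((dl a b)^[j] (xt t)))) δ * (Y₁ * Y₂) = 0 ∧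
        ev (ι ((dl a b)^[j] (xt t))) (ι (σ ((dl a b)^[j] (xt t)))) β * Y₁ +
          ev (ι ((dl a b)^[j] (xt t))) (ι (σ ((dl a b)^[j] (xt t)))) γ * Y₂ = 0) →
        ev (ι ((dl a b)^[j] (xt t))) (ι (σ ((dl a b)^[j] (xt t)))) G = 0) → G = 0 := by
      intro G hG
      refine curve_values (b' := ι (σ b)) hιa hιb hισa G fun j => ?_
      refine ((key j).image hrinj.injOn).mono ?_
      rintro _ ⟨t, ht, rfl⟩
      have h5 := hG j t ht
      rw [hpt, hpt'] at h5
      exact h5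
    have hP1 := hval (α ^ 2 - δ ^ 2 * C (pf (ι a) (ι b)) * (pf (ι (σ a)) (ι (σ b))).map C) (by
      rintro j t ⟨Y₁, Y₂, q1, q2, e1, -⟩
      rw [map_sub, map_mul, map_mul, map_pow, map_pow, ev_C, ev_mapC, ← q1, ← q2]
      linear_combination (ev (ι ((dl a b)^[j] (xt t))) (ι (σ ((dl a b)^[j] (xt t)))) α -
        ev (ι ((dl a b)^[j] (xt t))) (ι (σ ((dl a b)^[j] (xt t)))) δ * (Y₁ * Y₂)) * e1)
    have hP2 := hval (β ^ 2 * C (pf (ι a) (ι b)) - γ ^ 2 * (pf (ι (σ a)) (ι (σ b))).map C) (by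
      rintro j t ⟨Y₁, Y₂, q1, q2, -, e1⟩
      rw [map_sub, map_mul, map_mul, map_pow, map_pow, ev_C, ev_mapC, ← q1, ← q2]
      linear_combination (ev (ι ((dl a b)^[j] (xt t))) (ι (σ ((dl a b)^[j] (xt t)))) β * Y₁ -
        ev (ι ((dl a b)^[j] (xt t))) (ι (σ ((dl a b)^[j] (xt t)))) γ * Y₂) * e1)
    obtain ⟨hα, hδ⟩ := parity_one (pf_ne _ _) hP1
    obtain ⟨hβ, hγ⟩ := parity_two (pf_ne _ _) hP2
    exact ⟨hα, hβ, hγ, hδ⟩
  · -- infinitely many points over `K`
    rw [Set.not_infinite] at hT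
    set X1 : Set K := {x | ∃ y, y ≠ 0 ∧ y ^ 2 = ff a b x} with hX1
    have hX1inf : X1.Infinite := by
      intro hfin
      have h6 : (xt ⁻¹' X1).Finite := by
        refine hfin.preimage' fun x _ => ?_
        refine ((curve_ne (b' := ι (σ b)) hιa hιb hισa (ι x)).preimage hrinj.injOn).subset
          fun t ht => ?_
        have ht' : xt t = x := ht
        show cx (ι a) (ι b) (ι (σ a)) (ι (σ b)) (rt t) = ι x
        rw [← hι, ht']
      refine (Set.infinite_univ (α := k)) (((hT.union hB0).union ((hBj 0).union h6)).subset ?_)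
      intro t _
      by_cases t1 : a - σ a * par ω t ^ 4 = 0
      · exact Or.inl (Or.inr t1)
      by_cases t2 : ff a b (xt t) = 0
      · exact Or.inr (Or.inl t2)
      by_cases t3 : ∀ e : k, e ^ 2 ≠ Dt t
      · exact Or.inl (Or.inl ⟨t1, t3⟩)
      · push Not at t3
        obtain ⟨e, he⟩ := t3
        have h7 : (algebraMap k K e * (algebraMap k K t + ω) ^ 3) ^ 2 = ff a b (xt t) := by
          rw [← hDt t t1, ← he, map_pow]
          ring
        refine Or.inr (Or.inr ⟨algebraMap k K e * (algebraMap k K t + ω) ^ 3, ?_, h7⟩)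
        intro h0
        rw [h0] at h7
        exact t2 (by rw [← h7]; ring)
    have hall : ∀ x ∈ X1, ∀ x' ∈ X1, x ≠ x' → ev (ι x) (ι (σ x')) α = 0 ∧
        ev (ι x) (ι (σ x')) β = 0 ∧ ev (ι x) (ι (σ x')) γ = 0 ∧ ev (ι x) (ι (σ x')) δ = 0 := by
      rintro x ⟨y, hy0, hy⟩ x' ⟨y', hy0', hy'⟩ hne
      have q1 : (ι y) ^ 2 = aeval (ι x) (pf (ι a) (ι b)) := by
        rw [aeval_pf_self, ← map_ff, ← hy, map_pow]
      have q2 : (ι (σ y')) ^ 2 = aeval (ι (σ x')) (pf (ι (σ a)) (ι (σ b))) := by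
        rw [aeval_pf_self, ← map_ff, ← map_ff, ← hy', map_pow, map_pow]
      have q1' : (-ι y) ^ 2 = aeval (ι x) (pf (ι a) (ι b)) := by rw [neg_sq, q1]
      have q2' : (-ι (σ y')) ^ 2 = aeval (ι (σ x')) (pf (ι (σ a)) (ι (σ b))) := by
        rw [neg_sq, q2]
      have e1 := hB x y x' y' hy hy' hne
      have e2 := hB x (-y) x' y' (by rw [neg_sq, hy]) hy' hne
      have e3 := hB x y x' (-y') hy (by rw [neg_sq, hy']) hne
      have e4 := hB x (-y) x' (-y') (by rw [neg_sq, hy]) (by rw [neg_sq, hy']) hne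
      rw [H _ _ _ _ q1 q2] at e1
      rw [map_neg, H _ _ _ _ q1' q2] at e2
      rw [map_neg, map_neg, H _ _ _ _ q1 q2'] at e3
      rw [map_neg, map_neg, map_neg, H _ _ _ _ q1' q2'] at e4
      have n1 : ι y ≠ 0 := (map_ne_zero ι).2 hy0
      have n2 : ι (σ y') ≠ 0 := (map_ne_zero ι).2 ((map_ne_zero σ).2 hy0')
      refine ⟨?_, ?_, ?_, ?_⟩
      · linear_combination (1 / 4 : F) * (e1 + e2 + e3 + e4)
      · refine (mul_eq_zero.1 (?_ : _ * ι y = 0)).resolve_right n1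
        linear_combination (1 / 4 : F) * (e1 - e2 + e3 - e4)
      · refine (mul_eq_zero.1 (?_ : _ * ι (σ y') = 0)).resolve_right n2
        linear_combination (1 / 4 : F) * (e1 + e2 - e3 - e4)
      · refine (mul_eq_zero.1 (?_ : _ * (ι y * ι (σ y')) = 0)).resolve_right
          (mul_ne_zero n1 n2)
        linear_combination (1 / 4 : F) * (e1 - e2 - e3 + e4)
    have hzero : ∀ G : F[X][X], (∀ x ∈ X1, ∀ x' ∈ X1, x ≠ x' → ev (ι x) (ι (σ x')) G = 0) →
        G = 0 := by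
      intro G hG
      refine zero_lemma (hX1inf.image ι.injective.injOn) ?_
      rintro _ ⟨x, hx, rfl⟩
      have hi : Function.Injective fun x' => ι (σ x') := fun u v h =>
        σ.injective (ι.injective h)
      refine (((hX1inf.sdiff (Set.finite_singleton x)).image hi.injOn)).mono ?_
      rintro _ ⟨x', ⟨hx', hne⟩, rfl⟩
      exact hG x hx x' hx' (fun h => hne h.symm)
    exact ⟨hzero α fun x hx x' hx' h => (hall x hx x' hx' h).1,
      hzero β fun x hx x' hx' h => (hall x hx x' hx' h).2.1,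
      hzero γ fun x hx x' hx' h => (hall x hx x' hx' h).2.2.1,
      hzero δ fun x hx x' hx' h => (hall x hx x' hx' h).2.2.2⟩

end WRes
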