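import Pool.Agent.H.MP_89f84f_ag.Curve

/-!
# Values of rational functions

`Agr z φ`: the rational function `z` has the value `φ r` at all but finitely many points `r`.
-/

open Polynomial

noncomputable section

namespace WRes

variable {F : Type*} [Field F]

/-- The rational function `z` has the value `φ r` at all but finitely many points `r`. -/
def Agr (z : RatFunc F) (φ : F → F) : Prop :=
  ∃ (p q : F[X]) (S : Set F), q ≠ 0 ∧
    z = algebraMap F[X] (RatFunc F) p / algebraMap F[X] (RatFunc F) q ∧ S.Finite ∧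
    ∀ r ∉ S, q.eval r ≠ 0 ∧ φ r = p.eval r / q.eval r

namespace Agr

variable {z w : RatFunc F} {φ χ : F → F}

theorem alNe {q : F[X]} (h : q ≠ 0) : algebraMap F[X] (RatFunc F) q ≠ 0 :=
  RatFunc.algebraMap_ne_zero h

theorem const (c : F) : Agr (algebraMap F (RatFunc F) c) (fun _ => c) := by
  refine ⟨C c, 1, ∅, one_ne_zero, ?_, Set.finite_empty, fun r _ => ⟨by simp, by simp⟩⟩
  rw [map_one, div_one, IsScalarTower.algebraMap_apply F F[X] (RatFunc F)]
  rfl

theorem X' : Agr (RatFunc.X : RatFunc F) (fun r => r) := by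
  refine ⟨X, 1, ∅, one_ne_zero, ?_, Set.finite_empty, fun r _ => ⟨by simp, by simp⟩⟩
  rw [map_one, div_one, RatFunc.algebraMap_X]

theorem add (h : Agr z φ) (h' : Agr w χ) : Agr (z + w) (fun r => φ r + χ r) := by
  obtain ⟨p, q, S, hq, hz, hS, hr⟩ := h
  obtain ⟨p', q', S', hq', hw, hS', hr'⟩ := h'
  refine ⟨p * q' + p' * q, q * q', S ∪ S', mul_ne_zero hq hq', ?_, hS.union hS', fun r hrS => ?_⟩
  · rw [hz, hw, map_add, map_mul, map_mul, map_mul]
    have h1 := alNe hq
    have h2 := alNe hq'
    field_simp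
  · rw [Set.mem_union, not_or] at hrS
    obtain ⟨h1, h2⟩ := hr r hrS.1
    obtain ⟨h3, h4⟩ := hr' r hrS.2
    refine ⟨by rw [eval_mul]; exact mul_ne_zero h1 h3, ?_⟩
    show φ r + χ r = _
    rw [h2, h4, eval_add, eval_mul, eval_mul, eval_mul]
    field_simp

theorem mul (h : Agr z φ) (h' : Agr w χ) : Agr (z * w) (fun r => φ r * χ r) := by
  obtain ⟨p, q, S, hq, hz, hS, hr⟩ := h
  obtain ⟨p', q', S', hq', hw, hS', hr'⟩ := h'
  refine ⟨p * p', q * q', S ∪ S', mul_ne_zero hq hq', ?_, hS.union hS', fun r hrS => ?_⟩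
  · rw [hz, hw, map_mul, map_mul]
    have h1 := alNe hq
    have h2 := alNe hq'
    field_simp
  · rw [Set.mem_union, not_or] at hrS
    obtain ⟨h1, h2⟩ := hr r hrS.1
    obtain ⟨h3, h4⟩ := hr' r hrS.2
    refine ⟨by rw [eval_mul]; exact mul_ne_zero h1 h3, ?_⟩
    show φ r * χ r = _
    rw [h2, h4, eval_mul, eval_mul]
    field_simp

theorem inv (h : Agr z φ) : Agr z⁻¹ (fun r => (φ r)⁻¹) := by
  obtain ⟨p, q, S, hq, hz, hS, hr⟩ := h
  by_cases hp : p = 0
  · refine ⟨0, 1, S, one_ne_zero, ?_, hS, fun r hrS => ⟨by simp, ?_⟩⟩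
    · rw [hz, hp, map_zero, zero_div, inv_zero, zero_div]
    · show (φ r)⁻¹ = _
      rw [(hr r hrS).2, hp, eval_zero, zero_div, inv_zero, zero_div]
  · refine ⟨q, p, S ∪ {r | IsRoot p r}, hp, ?_, hS.union (Polynomial.finite_setOfPred_isRoot hp),
      fun r hrS => ?_⟩
    · rw [hz, inv_div]
    · rw [Set.mem_union, not_or] at hrS
      refine ⟨hrS.2, ?_⟩
      show (φ r)⁻¹ = _
      rw [(hr r hrS.1).2, inv_div]

theorem neg (h : Agr z φ) : Agr (-z) (fun r => -φ r) := by
  have h1 := (const (F := F) (-1)).mul h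
  simp only [map_neg, map_one, neg_mul, one_mul] at h1
  exact h1

theorem sub (h : Agr z φ) (h' : Agr w χ) : Agr (z - w) (fun r => φ r - χ r) := by
  have h1 := h.add h'.neg
  simp only [← sub_eq_add_neg] at h1
  exact h1

theorem div (h : Agr z φ) (h' : Agr w χ) : Agr (z / w) (fun r => φ r / χ r) := by
  have h1 := h.mul h'.inv
  simp only [← div_eq_mul_inv] at h1
  exact h1

theorem pow (h : Agr z φ) (n : ℕ) : Agr (z ^ n) (fun r => φ r ^ n) := by
  induction n with
  | zero =>
    simp only [pow_zero]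
    have := const (F := F) 1
    rwa [map_one] at this
  | succ n ih =>
    simp only [pow_succ]
    exact ih.mul h

theorem nat (n : ℕ) : Agr (n : RatFunc F) (fun _ => (n : F)) := by
  have := const (F := F) (n : F)
  rwa [map_natCast] at this

/-- Infinitely many zeros. -/
theorem eq_zero (h : Agr z φ) (hinf : {r | φ r = 0}.Infinite) : z = 0 := by
  obtain ⟨p, q, S, hq, hz, hS, hr⟩ := h
  have hp : p = 0 := by
    by_contra hp
    refine hinf ((hS.union (Polynomial.finite_setOfPred_isRoot hp)).subset ?_)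
    intro r hrφ
    by_cases hrS : r ∈ S
    · exact Or.inl hrS
    · refine Or.inr ?_
      obtain ⟨h1, h2⟩ := hr r hrS
      rw [Set.mem_ofPred_eq, h2, div_eq_zero_iff] at hrφ
      exact hrφ.resolve_right h1
  rw [hz, hp, map_zero, zero_div]

theorem finite_zeros (h : Agr z φ) (hz : z ≠ 0) : {r | φ r = 0}.Finite := by
  by_contra hinf
  exact hz (h.eq_zero hinf)

theorem ff' (a b : F) (h : Agr z φ) :
    Agr (ff (algebraMap F (RatFunc F) a) (algebraMap F (RatFunc F) b) z)
      (fun r => ff a b (φ r)) :=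
  ((h.pow 3).add ((const a).mul h)).add (const b)

theorem dl' (a b : F) (h : Agr z φ) :
    Agr (dl (algebraMap F (RatFunc F) a) (algebraMap F (RatFunc F) b) z)
      (fun r => dl a b (φ r)) := by
  unfold dl
  exact (((h.pow 4).sub (((nat 2).mul (const a)).mul (h.pow 2))).sub
    (((nat 8).mul (const b)).mul h)).add ((const a).pow 2) |>.div ((nat 4).mul (h.ff' a b))

theorem it' (a b : F) (h : Agr z φ) (j : ℕ) :
    Agr (it a b z j) (fun r => (dl a b)^[j] (φ r)) := by
  induction j with
  | zero => exact h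
  | succ j ih =>
    rw [it_succ]
    simp only [Function.iterate_succ_apply']
    exact ih.dl' a b

theorem cx' (a b a' b' : F) :
    Agr (cx (algebraMap F (RatFunc F) a) (algebraMap F (RatFunc F) b)
      (algebraMap F (RatFunc F) a') (algebraMap F (RatFunc F) b') RatFunc.X)
      (fun r => cx a b a' b' r) :=
  (((const b).sub ((const b').mul (X'.pow 6))).neg).div ((const a).sub ((const a').mul (X'.pow 4)))

theorem cy' (a b a' b' : F) :
    Agr (cy (algebraMap F (RatFunc F) a) (algebraMap F (RatFunc F) b)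
      (algebraMap F (RatFunc F) a') (algebraMap F (RatFunc F) b') RatFunc.X)
      (fun r => cy a b a' b' r) :=
  (cx' a b a' b').div (X'.pow 2)

theorem aeval' (h : Agr z φ) (q : F[X]) : Agr (aeval z q) (fun r => aeval (φ r) q) := by
  induction q using Polynomial.induction_on' with
  | add p q hp hq =>
    simp only [map_add]
    exact hp.add hq
  | monomial n c =>
    simp only [aeval_monomial]
    exact (const c).mul (h.pow n)

theorem ev' (h : Agr z φ) (h' : Agr w χ) (G : F[X][X]) :
    Agr (ev z w G) (fun r => ev (φ r) (χ r) G) := by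
  induction G using Polynomial.induction_on' with
  | add p q hp hq =>
    simp only [map_add]
    exact hp.add hq
  | monomial n c =>
    simp only [ev_monomial]
    exact (h.aeval' c).mul (h'.pow n)

end Agr

variable [CharZero F]

/-- The version of `curve_dyn` with values: it is enough that for every `j` the polynomial vanishes at the
`j`-th multiples of infinitely many points of the curve. -/
theorem curve_values {a b a' b' : F} (ha : a ≠ 0) (hb : b ≠ 0) (ha' : a' ≠ 0) (G : F[X][X])
    (hG : ∀ j, {r : F | ev ((dl a b)^[j] (cx a b a' b' r)) ((dl a' b')^[j] (cy a b a' b' r))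
      G = 0}.Infinite) : G = 0 :=
  curve_dyn ha hb ha' G fun j =>
    (((Agr.cx' a b a' b').it' a b j).ev' ((Agr.cy' a b a' b').it' a' b' j) G).eq_zero (hG j)

/-- Off a finite set of parameters the multiples have nonzero ordinates. -/
theorem curve_ff {a b a' b' : F} (ha : a ≠ 0) (hb : b ≠ 0) (ha' : a' ≠ 0) (j : ℕ) :
    {r : F | ff a b ((dl a b)^[j] (cx a b a' b' r)) = 0}.Finite :=
  (((Agr.cx' a b a' b').it' a b j).ff' a b).finite_zeros
    (ff_ne (transc_of_dX (it_dX a b (cx_dX (b' := b') ha hb ha') j).1))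

/-- The curve is not contained in a line `x = c`. -/
theorem curve_ne {a b a' b' : F} (ha : a ≠ 0) (hb : b ≠ 0) (ha' : a' ≠ 0) (c : F) :
    {r : F | cx a b a' b' r = c}.Finite := by
  have h1 := ((Agr.cx' a b a' b').sub (Agr.const c)).finite_zeros (fun h0 => by
    refine cx_dX (b' := b') ha hb ha' ?_
    rw [sub_eq_zero.1 h0]
    exact dX.map_algebraMap c)
  refine h1.subset fun r hr => ?_
  exact sub_eq_zero.2 hr

end WRes
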