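import Pool.Agent.H.MP_89f84f_ag.Deriv

/-!
# The core lemma

An infinite sequence of points `(x j, y j)` over `F(X)` with pairwise different first coordinates,
all on one curve `G = 0` defined over `F`, cannot have a common nonconstant value of
`(dy/dx) ^ 2 * f₁(x) / f₂(y)`.
-/

open Polynomial

noncomputable section

namespace WRes

section ev

variable {F : Type*} [Field F] {A : Type*} [CommRing A] [Algebra F A]

/-- Evaluation of a polynomial in two variables. -/
def ev (x y : A) : F[X][X] →+* A := eval₂RingHom (aeval x : F[X] →ₐ[F] A).toRingHom y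

@[simp] theorem ev_C (x y : A) (q : F[X]) : ev x y (C q) = aeval x q := by
  simp [ev]

@[simp] theorem ev_X (x y : A) : ev x y (X : F[X][X]) = y := by
  simp [ev]

theorem ev_monomial (x y : A) (n : ℕ) (q : F[X]) :
    ev x y (monomial n q) = aeval x q * y ^ n := by
  simp [ev]

theorem ev_mapC (x y : A) (q : F[X]) : ev x y (q.map C) = aeval y q := by
  unfold ev
  rw [coe_eval₂RingHom, eval₂_map, aeval_def]
  congr 1
  ext c
  simp

theorem ev_map {B : Type*} [CommRing B] [Algebra F B] (φ : A →ₐ[F] B) (x y : A) (P : F[X][X]) :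
    φ (ev x y P) = ev (φ x) (φ y) P := by
  induction P using Polynomial.induction_on' with
  | add p q hp hq => rw [map_add, map_add, hp, hq, map_add]
  | monomial n q => rw [ev_monomial, ev_monomial, map_mul, map_pow, aeval_algHom_apply]

theorem exists_pX (P : F[X][X]) : ∃ PX : F[X][X], ∀ (D : Derivation F A A) (x y : A),
    D (ev x y P) = ev x y PX * D x + ev x y (derivative P) * D y := by
  induction P using Polynomial.induction_on' with
  | add p q hp hq =>
    obtain ⟨p', hp⟩ := hp
    obtain ⟨q', hq⟩ := hq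
    refine ⟨p' + q', fun D x y => ?_⟩
    rw [map_add, map_add, hp, hq, derivative_add, map_add, map_add]
    ring
  | monomial n c =>
    refine ⟨monomial n (derivative c), fun D x y => ?_⟩
    rw [ev_monomial, ev_monomial, derivative_monomial, ev_monomial, Derivation.leibniz,
      Derivation.leibniz_pow, Derivation.map_aeval]
    simp only [smul_eq_mul, nsmul_eq_mul, map_mul, map_natCast]
    ring

end ev

variable {F : Type*} [Field F]

theorem exists_rel (h z : RatFunc F) (hh : Transcendental F h) :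
    ∃ R : F[X][X], R.map (aeval h : F[X] →ₐ[F] RatFunc F).toRingHom ≠ 0 ∧ ev h z R = 0 := by
  classical
  have hC : ¬ ∃ c, h = RatFunc.C c := by
    rintro ⟨c, rfl⟩
    exact hh (isAlgebraic_algebraMap c)
  have h1 := RatFunc.isAlgebraic_adjoin_simple_X' h hC
  have h2 : IsAlgebraic (IntermediateField.adjoin F {h}) z := h1.isAlgebraic z
  have h3 : IsAlgebraic (Algebra.adjoin F {h}) z := by
    open scoped IntermediateField.algebraAdjoinAdjoin in
    exact (IsFractionRing.isAlgebraic_iff (Algebra.adjoin F {h})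
      (IntermediateField.adjoin F {h}) (RatFunc F)).2 h2
  obtain ⟨q, hq0, hq⟩ := h3
  -- the surjection `F[X] → F[h]`
  have hmem : ∀ r : F[X], aeval h r ∈ Algebra.adjoin F {h} := fun r => by
    rw [Algebra.adjoin_singleton_eq_range_aeval]
    exact ⟨r, rfl⟩
  let ρ : F[X] →+* Algebra.adjoin F {h} :=
    (aeval h : F[X] →ₐ[F] RatFunc F).toRingHom.codRestrict (Algebra.adjoin F {h}) hmem
  have hρ : Function.Surjective ρ := by
    rintro ⟨r, hr⟩
    rw [Algebra.adjoin_singleton_eq_range_aeval] at hr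
    obtain ⟨s, hs⟩ := hr
    exact ⟨s, Subtype.ext hs⟩
  obtain ⟨R, rfl⟩ := Polynomial.map_surjective ρ hρ q
  have hc : (algebraMap (Algebra.adjoin F {h}) (RatFunc F)).comp ρ =
      (aeval h : F[X] →ₐ[F] RatFunc F).toRingHom := rfl
  refine ⟨R, fun h0 => hq0 ?_, ?_⟩
  · rw [← hc, ← Polynomial.map_map] at h0
    refine Polynomial.map_injective _ ?_ (h0.trans (Polynomial.map_zero _).symm)
    exact Subtype.val_injective
  · unfold ev
    rw [coe_eval₂RingHom, ← hc, ← Polynomial.eval₂_map]
    exact hq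

theorem exists_factor {R M : Type*} [CommRing R] [IsDomain R] [WfDvdMonoid R] [CommRing M]
    [IsDomain M] (f : ℕ → (R →+* M)) (g : R) (hg : g ≠ 0) :
    ∀ J : Set ℕ, J.Infinite → (∀ j ∈ J, f j g = 0) →
      ∃ p : R, Irreducible p ∧ ∃ J' ⊆ J, J'.Infinite ∧ ∀ j ∈ J', f j p = 0 := by
  induction g using WfDvdMonoid.induction_on_irreducible with
  | zero => exact absurd rfl hg
  | unit u hu =>
    intro J hJ h
    obtain ⟨j, hj⟩ := hJ.nonempty
    exact absurd (h j hj) ((hu.map (f j)).ne_zero)
  | mul a i ha hi ih =>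
    intro J hJ h
    by_cases hinf : {j ∈ J | f j i = 0}.Infinite
    · exact ⟨i, hi, _, Set.sep_subset _ _, hinf, fun j hj => hj.2⟩
    · have h2 : {j ∈ J | f j a = 0}.Infinite := by
        have hsub : J ⊆ {j ∈ J | f j i = 0} ∪ {j ∈ J | f j a = 0} := by
          intro j hj
          have := h j hj
          rw [map_mul, mul_eq_zero] at this
          rcases this with h1 | h1
          · exact Or.inl ⟨hj, h1⟩
          · exact Or.inr ⟨hj, h1⟩
        by_contra hfin
        rw [Set.not_infinite] at hinf hfin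
        exact hJ ((hinf.union hfin).subset hsub)
      obtain ⟨p, hp, J', hJ', hinf', h'⟩ := ih ha _ h2 (fun j hj => hj.2)
      exact ⟨p, hp, J', hJ'.trans (Set.sep_subset _ _), hinf', h'⟩

/-- The core lemma. -/
theorem core [CharZero F] (x y : ℕ → RatFunc F) (hx : Function.Injective x)
    (hxt : ∀ j, Transcendental F (x j)) (hDx : ∀ j, dX (x j) ≠ 0)
    (h : RatFunc F) (hh : Transcendental F h) (f₁ f₂ : F[X])
    (hf₂ : ∀ j, aeval (y j) f₂ ≠ 0)
    (hinv : ∀ j, dX (y j) ^ 2 * aeval (x j) f₁ = h * (dX (x j) ^ 2 * aeval (y j) f₂))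
    (G : F[X][X]) (hG : ∀ j, ev (x j) (y j) G = 0) : G = 0 := by
  classical
  by_contra hG0
  -- evaluation on `F(X)[Y]`
  have hle : ∀ j, nonZeroDivisors F[X] ≤
      (nonZeroDivisors (RatFunc F)).comap (aeval (x j) : F[X] →ₐ[F] RatFunc F) := fun j =>
    nonZeroDivisors_le_comap_nonZeroDivisors_of_injective _
      (transcendental_iff_injective.1 (hxt j))
  let φ : ℕ → (RatFunc F →ₐ[F] RatFunc F) := fun j => RatFunc.liftAlgHom (aeval (x j)) (hle j)
  have hφ : ∀ j (q : F[X]), φ j (algebraMap F[X] (RatFunc F) q) = aeval (x j) q := by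
    intro j q
    have := RatFunc.liftAlgHom_apply_div (aeval (x j) : F[X] →ₐ[F] RatFunc F) (hle j) q 1
    rwa [map_one, div_one, map_one, div_one] at this
  let E : ℕ → ((RatFunc F)[X] →+* RatFunc F) := fun j => eval₂RingHom (φ j).toRingHom (y j)
  have hE : ∀ j (P : F[X][X]), E j (P.map (algebraMap F[X] (RatFunc F))) = ev (x j) (y j) P := by
    intro j P
    show eval₂ (φ j).toRingHom (y j) (P.map (algebraMap F[X] (RatFunc F))) = _
    rw [eval₂_map]
    unfold ev
    rw [coe_eval₂RingHom]
    congr 1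
    refine RingHom.ext fun q => ?_
    exact hφ j q
  have hinj : Function.Injective (algebraMap F[X] (RatFunc F)) := RatFunc.algebraMap_injective F
  -- an irreducible factor which vanishes infinitely often
  obtain ⟨p, hp, J, -, hJ, hpJ⟩ := exists_factor E (G.map (algebraMap F[X] (RatFunc F)))
    ((Polynomial.map_ne_zero_iff hinj).2 hG0) Set.univ Set.infinite_univ
    (fun j _ => by rw [hE, hG])
  have hcop : ∀ j ∈ J, ∀ Q : (RatFunc F)[X], IsCoprime p Q → E j Q ≠ 0 := by
    rintro j hj Q ⟨a, b, hab⟩ h0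
    have := congrArg (E j) hab
    rw [map_add, map_mul, map_mul, hpJ j hj, h0, mul_zero, mul_zero, add_zero, map_one] at this
    exact zero_ne_one this
  -- clear denominators
  obtain ⟨b, hbmem, hb⟩ := IsLocalization.integerNormalization_spec (nonZeroDivisors F[X]) p
  set P := IsLocalization.integerNormalization (nonZeroDivisors F[X]) p with hP
  have hb0 : ∀ j, aeval (x j) b ≠ 0 := fun j =>
    (transcendental_iff.1 (hxt j) b).mt (nonZeroDivisors.ne_zero hbmem)
  have hsmul : ∀ j (Q : (RatFunc F)[X]), E j (b • Q) = aeval (x j) b * E j Q := by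
    intro j Q
    rw [Algebra.smul_def, map_mul]
    congr 1
    show eval₂ (φ j).toRingHom (y j) (C (algebraMap F[X] (RatFunc F) b)) = _
    rw [eval₂_C]
    exact hφ j b
  have hPev : ∀ j ∈ J, ev (x j) (y j) P = 0 := by
    intro j hj
    rw [← hE, hb]
    erw [hsmul]
    rw [hpJ j hj, mul_zero]
  have hPder : ∀ j ∈ J, ev (x j) (y j) (derivative P) ≠ 0 := by
    intro j hj
    rw [← hE, ← derivative_map, hb]
    have e1 : derivative (b • p) = b • derivative p := by
      rw [derivative_smul]
    erw [e1, hsmul]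
    exact mul_ne_zero (hb0 j) (hcop j hj _ hp.separable)
  -- derivatives
  obtain ⟨PX, hPX⟩ := exists_pX (A := RatFunc F) P
  have hrel : ∀ j ∈ J, ev (x j) (y j) PX * dX (x j) +
      ev (x j) (y j) (derivative P) * dX (y j) = 0 := by
    intro j hj
    rw [← hPX dX, hPev j hj, map_zero]
  set n : F[X][X] := PX ^ 2 * C f₁ with hn
  set e : F[X][X] := (derivative P) ^ 2 * f₂.map C with he
  have hne : ∀ j ∈ J, ev (x j) (y j) n = h * ev (x j) (y j) e := by
    intro j hj
    rw [hn, he, map_mul, map_mul, map_pow, map_pow, ev_C, ev_mapC]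
    have h1 := hrel j hj
    have h2 := hinv j
    have h3 : dX (x j) ^ 2 ≠ 0 := pow_ne_zero _ (hDx j)
    refine mul_left_cancel₀ h3 ?_
    have h4 : ev (x j) (y j) PX * dX (x j) = -(ev (x j) (y j) (derivative P) * dX (y j)) :=
      eq_neg_of_add_eq_zero_left h1
    calc dX (x j) ^ 2 * (ev (x j) (y j) PX ^ 2 * aeval (x j) f₁)
        = (ev (x j) (y j) PX * dX (x j)) ^ 2 * aeval (x j) f₁ := by ring
      _ = ev (x j) (y j) (derivative P) ^ 2 * (dX (y j) ^ 2 * aeval (x j) f₁) := by
          rw [h4]; ring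
      _ = ev (x j) (y j) (derivative P) ^ 2 * (h * (dX (x j) ^ 2 * aeval (y j) f₂)) := by
          rw [h2]
      _ = _ := by ring
  have he0 : ∀ j ∈ J, ev (x j) (y j) e ≠ 0 := by
    intro j hj
    rw [he, map_mul, map_pow, ev_mapC]
    exact mul_ne_zero (pow_ne_zero _ (hPder j hj)) (hf₂ j)
  -- the function field of the curve
  have : Fact (Irreducible p) := ⟨hp⟩
  let ψ : ∀ j ∈ J, AdjoinRoot p →ₐ[F] RatFunc F := fun j hj =>
    { AdjoinRoot.lift (φ j).toRingHom (y j) (hpJ j hj) with
      commutes' := fun c => by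
        show AdjoinRoot.lift (φ j).toRingHom (y j) (hpJ j hj)
          (algebraMap F (AdjoinRoot p) c) = _
        rw [AdjoinRoot.algebraMap_eq', RingHom.comp_apply, AdjoinRoot.lift_of]
        exact (φ j).commutes c }
  have hψ : ∀ j (hj : j ∈ J) (Q : F[X][X]), ψ j hj
      (AdjoinRoot.mk p (Q.map (algebraMap F[X] (RatFunc F)))) = ev (x j) (y j) Q := by
    intro j hj Q
    rw [← hE]
    show AdjoinRoot.lift (φ j).toRingHom (y j) (hpJ j hj) _ = _
    rw [AdjoinRoot.lift_mk]
    rfl
  set nL : AdjoinRoot p := AdjoinRoot.mk p (n.map (algebraMap F[X] (RatFunc F))) with hnL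
  set eL : AdjoinRoot p := AdjoinRoot.mk p (e.map (algebraMap F[X] (RatFunc F))) with heL
  set xL : AdjoinRoot p := AdjoinRoot.mk p ((C X : F[X][X]).map (algebraMap F[X] (RatFunc F)))
    with hxL
  have hψh : ∀ j (hj : j ∈ J), ψ j hj (nL / eL) = h := by
    intro j hj
    rw [map_div₀, hnL, heL, hψ j hj, hψ j hj, hne j hj, mul_div_assoc, div_self (he0 j hj),
      mul_one]
  have hψx : ∀ j (hj : j ∈ J), ψ j hj xL = x j := by
    intro j hj
    rw [hxL, hψ j hj, ev_C, aeval_X]
  -- the algebraic relation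
  obtain ⟨i, hi⟩ := hJ.nonempty
  obtain ⟨R, hR0, hR⟩ := exists_rel h (x i) hh
  have hRL : ev (nL / eL) xL R = 0 := by
    have h1 := ev_map (ψ i hi) (nL / eL) xL R
    rw [hψh i hi, hψx i hi, hR] at h1
    exact (ψ i hi).toRingHom.injective (h1.trans (map_zero (ψ i hi)).symm)
  have hRj : ∀ j ∈ J, ev h (x j) R = 0 := by
    intro j hj
    have h1 := ev_map (ψ j hj) (nL / eL) xL R
    rw [hψh j hj, hψx j hj, hRL, map_zero] at h1
    exact h1.symm
  have hfin : (x '' J).Finite := by
    refine (Polynomial.finite_setOfPred_isRoot hR0).subset ?_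
    rintro _ ⟨j, hj, rfl⟩
    show eval (x j) (R.map (aeval h : F[X] →ₐ[F] RatFunc F).toRingHom) = 0
    rw [eval_map]
    exact hRj j hj
  exact hJ.image hx.injOn hfin

end WRes
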