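import Pool.Agent.H.MP_89f84f_ag.Iter

/-!
# The rational curve

The curve `x = -(b - b' r ^ 6) / (a - a' r ^ 4)`, `y = x / r ^ 2` on which
`ff a b x = r ^ 6 * ff a' b' y`.
-/

open Polynomial

noncomputable section

namespace WRes

section field

variable {A : Type*} [Field A]

/-- First coordinate of the curve. -/
def cx (a b a' b' r : A) : A := -(b - b' * r ^ 6) / (a - a' * r ^ 4)

/-- Second coordinate of the curve. -/
def cy (a b a' b' r : A) : A := cx a b a' b' r / r ^ 2

theorem ff_cx {a b a' b' r : A} (hr : r ≠ 0) (hM : a - a' * r ^ 4 ≠ 0) :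
    ff a b (cx a b a' b' r) = r ^ 6 * ff a' b' (cy a b a' b' r) := by
  have h1 : cx a b a' b' r * (a - a' * r ^ 4) = -(b - b' * r ^ 6) := div_mul_cancel₀ _ hM
  unfold ff cy
  set x := cx a b a' b' r
  have e : r ^ 6 * ((x / r ^ 2) ^ 3 + a' * (x / r ^ 2) + b') = x ^ 3 + a' * r ^ 4 * x + b' * r ^ 6 := by
    field_simp
  rw [e]
  linear_combination h1

end field

variable {F : Type*} [Field F] [CharZero F]

/-- The first coordinate of the curve is not constant. -/
theorem cx_dX {a b a' b' : F} (ha : a ≠ 0) (hb : b ≠ 0) (ha' : a' ≠ 0) :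
    dX (cx (algebraMap F (RatFunc F) a) (algebraMap F (RatFunc F) b)
        (algebraMap F (RatFunc F) a') (algebraMap F (RatFunc F) b') RatFunc.X) ≠ 0 := by
  set r : RatFunc F := RatFunc.X with hr
  set α := algebraMap F (RatFunc F) a with hα
  set β := algebraMap F (RatFunc F) b with hβ
  set α' := algebraMap F (RatFunc F) a' with hα'
  set β' := algebraMap F (RatFunc F) b' with hβ'
  have hDr : dX r = 1 := dX_X
  have hDα : dX α = 0 := dX.map_algebraMap a
  have hDβ : dX β = 0 := dX.map_algebraMap b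
  have hDα' : dX α' = 0 := dX.map_algebraMap a'
  have hDβ' : dX β' = 0 := dX.map_algebraMap b'
  have hinj : Function.Injective (algebraMap F[X] (RatFunc F)) := RatFunc.algebraMap_injective F
  have alX : algebraMap F[X] (RatFunc F) X = r := RatFunc.algebraMap_X
  have alC : ∀ c : F, algebraMap F[X] (RatFunc F) (C c) = algebraMap F (RatFunc F) c := fun c =>
    (IsScalarTower.algebraMap_apply F F[X] (RatFunc F) c).symm
  have hr0 : r ≠ 0 := RatFunc.X_ne_zero
  have hne : ∀ p : F[X], p.eval 0 ≠ 0 → algebraMap F[X] (RatFunc F) p ≠ 0 := by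
    intro p hp h0
    rw [← map_zero (algebraMap F[X] (RatFunc F))] at h0
    rw [hinj h0, eval_zero] at hp
    exact hp rfl
  set M : RatFunc F := α - α' * r ^ 4 with hM
  set N : RatFunc F := β - β' * r ^ 6 with hN
  set Q : RatFunc F := 2 * α' * β - 3 * α * β' * r ^ 2 + α' * β' * r ^ 6 with hQ
  have hM0 : M ≠ 0 := by
    have h1 := hne (C a - C a' * X ^ 4) (by simpa using ha)
    rwa [map_sub, map_mul, map_pow, alX, alC, alC] at h1
  have hQ0 : Q ≠ 0 := by
    have h1 := hne (C 2 * C a' * C b - C 3 * C a * C b' * X ^ 2 + C a' * C b' * X ^ 6)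
      (by simpa using ⟨ha', hb⟩)
    simp only [map_add, map_sub, map_mul, map_pow, alX, alC, map_ofNat] at h1
    exact h1
  set x := cx α β α' β' r with hx
  have hxM : x * M = -N := div_mul_cancel₀ _ hM0
  have hDM : dX M = -(4 * α' * r ^ 3) := by
    rw [hM, map_sub, Derivation.leibniz, Derivation.leibniz_pow, hDα, hDα', hDr]
    simp only [smul_eq_mul, nsmul_eq_mul]
    push_cast
    ring
  have hDN : dX N = -(6 * β' * r ^ 5) := by
    rw [hN, map_sub, Derivation.leibniz, Derivation.leibniz_pow, hDβ, hDβ', hDr]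
    simp only [smul_eq_mul, nsmul_eq_mul]
    push_cast
    ring
  have hDx : dX x * M ^ 2 = -(2 * r ^ 3 * Q) := by
    have h1 := congrArg dX hxM
    rw [Derivation.leibniz, map_neg, hDM, hDN] at h1
    simp only [smul_eq_mul] at h1
    have h2 : dX x * M ^ 2 = (M * dX x) * M := by ring
    have h3 : M * dX x = 6 * β' * r ^ 5 + 4 * α' * r ^ 3 * x := by linear_combination h1
    rw [h2, h3]
    have h4 : (6 * β' * r ^ 5 + 4 * α' * r ^ 3 * x) * M =
        6 * β' * r ^ 5 * M + 4 * α' * r ^ 3 * (x * M) := by ring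
    rw [h4, hxM, hM, hN, hQ]
    ring
  intro h0
  rw [h0, zero_mul] at hDx
  have : 2 * r ^ 3 * Q ≠ 0 := mul_ne_zero (mul_ne_zero (by norm_num) (pow_ne_zero _ hr0)) hQ0
  exact this (neg_eq_zero.1 hDx.symm)

/-- The curve over the function field is in general position for the iterated duplication maps. -/
theorem curve_dyn {a b a' b' : F} (ha : a ≠ 0) (hb : b ≠ 0) (ha' : a' ≠ 0) (G : F[X][X])
    (hG : ∀ j, ev
      (it a b (cx (algebraMap F (RatFunc F) a) (algebraMap F (RatFunc F) b)
        (algebraMap F (RatFunc F) a') (algebraMap F (RatFunc F) b') RatFunc.X) j)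
      (it a' b' (cy (algebraMap F (RatFunc F) a) (algebraMap F (RatFunc F) b)
        (algebraMap F (RatFunc F) a') (algebraMap F (RatFunc F) b') RatFunc.X) j) G = 0) :
    G = 0 := by
  have hD2 : dX (2 : RatFunc F) = 0 := by
    have := (dX (F := F)).map_natCast 2
    exact_mod_cast this
  set r : RatFunc F := RatFunc.X with hr
  set α := algebraMap F (RatFunc F) a with hα
  set β := algebraMap F (RatFunc F) b with hβ
  set α' := algebraMap F (RatFunc F) a' with hα'
  set β' := algebraMap F (RatFunc F) b' with hβ'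
  have hDr : dX r = 1 := dX_X
  have hDα : dX α = 0 := dX.map_algebraMap a
  have hDβ : dX β = 0 := dX.map_algebraMap b
  have hDα' : dX α' = 0 := dX.map_algebraMap a'
  have hDβ' : dX β' = 0 := dX.map_algebraMap b'
  have hinj : Function.Injective (algebraMap F[X] (RatFunc F)) := RatFunc.algebraMap_injective F
  have alX : algebraMap F[X] (RatFunc F) X = r := RatFunc.algebraMap_X
  have alC : ∀ c : F, algebraMap F[X] (RatFunc F) (C c) = algebraMap F (RatFunc F) c := fun c =>
    (IsScalarTower.algebraMap_apply F F[X] (RatFunc F) c).symm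
  have hr0 : r ≠ 0 := RatFunc.X_ne_zero
  -- a polynomial with nonzero value at `0` is nonzero
  have hne : ∀ p : F[X], p.eval 0 ≠ 0 → algebraMap F[X] (RatFunc F) p ≠ 0 := by
    intro p hp h0
    rw [← map_zero (algebraMap F[X] (RatFunc F))] at h0
    rw [hinj h0, eval_zero] at hp
    exact hp rfl
  set M : RatFunc F := α - α' * r ^ 4 with hM
  set N : RatFunc F := β - β' * r ^ 6 with hN
  set Q : RatFunc F := 2 * α' * β - 3 * α * β' * r ^ 2 + α' * β' * r ^ 6 with hQ
  have hM0 : M ≠ 0 := by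
    have h1 := hne (C a - C a' * X ^ 4) (by simpa using ha)
    rwa [map_sub, map_mul, map_pow, alX, alC, alC] at h1
  have hQ0 : Q ≠ 0 := by
    have h1 := hne (C 2 * C a' * C b - C 3 * C a * C b' * X ^ 2 + C a' * C b' * X ^ 6)
      (by simpa using ⟨ha', hb⟩)
    simp only [map_add, map_sub, map_mul, map_pow, alX, alC, map_ofNat] at h1
    exact h1
  set x := cx α β α' β' r with hx
  set y := cy α β α' β' r with hy
  have hxM : x * M = -N := div_mul_cancel₀ _ hM0
  have hyr : y * r ^ 2 = x := by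
    rw [hy, hx]
    unfold cy
    field_simp
  -- derivatives
  have hDM : dX M = -(4 * α' * r ^ 3) := by
    rw [hM, map_sub, Derivation.leibniz, Derivation.leibniz_pow, hDα, hDα', hDr]
    simp only [smul_eq_mul, nsmul_eq_mul]
    push_cast
    ring
  have hDN : dX N = -(6 * β' * r ^ 5) := by
    rw [hN, map_sub, Derivation.leibniz, Derivation.leibniz_pow, hDβ, hDβ', hDr]
    simp only [smul_eq_mul, nsmul_eq_mul]
    push_cast
    ring
  have hDx : dX x * M ^ 2 = -(2 * r ^ 3 * Q) := by
    have h1 := congrArg dX hxM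
    rw [Derivation.leibniz, map_neg, hDM, hDN] at h1
    simp only [smul_eq_mul] at h1
    have h2 : dX x * M ^ 2 = (M * dX x) * M := by ring
    have h3 : M * dX x = 6 * β' * r ^ 5 + 4 * α' * r ^ 3 * x := by linear_combination h1
    rw [h2, h3]
    have h4 : (6 * β' * r ^ 5 + 4 * α' * r ^ 3 * x) * M =
        6 * β' * r ^ 5 * M + 4 * α' * r ^ 3 * (x * M) := by ring
    rw [h4, hxM, hM, hN, hQ]
    ring
  have hDx0 : dX x ≠ 0 := by
    intro h0
    rw [h0, zero_mul] at hDx
    have : 2 * r ^ 3 * Q ≠ 0 := mul_ne_zero (mul_ne_zero (by norm_num) (pow_ne_zero _ hr0)) hQ0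
    exact this (neg_eq_zero.1 hDx.symm)
  have hDy : r ^ 3 * dX y = r * dX x - 2 * x := by
    have h1 := congrArg dX hyr
    rw [Derivation.leibniz, Derivation.leibniz_pow, hDr] at h1
    simp only [smul_eq_mul, nsmul_eq_mul] at h1
    push_cast at h1
    have h2 : r ^ 3 * dX y = r * (y * (2 * (r ^ (2 - 1) * 1)) + r ^ 2 * dX y) -
        2 * (y * r ^ 2) := by
      norm_num
      ring
    rw [h2, hyr]
    rw [h1]
  set g : RatFunc F := r ^ 3 * dX y / dX x with hg
  have hgQ : g * (r ^ 3 * Q) = r ^ 4 * Q - N * M := by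
    have h1 : g * dX x = r * dX x - 2 * x := by
      rw [hg, ← hDy]
      field_simp
    have h2 : g * (dX x * M ^ 2) = r * (dX x * M ^ 2) - 2 * (x * M) * M := by
      linear_combination M ^ 2 * h1
    rw [hDx, hxM] at h2
    linear_combination (-1 / 2 : RatFunc F) * h2
  have hgc : ∀ c : F, g ^ 2 ≠ algebraMap F (RatFunc F) c := by
    intro c hc
    have h1 : (r ^ 4 * Q - N * M) ^ 2 - algebraMap F (RatFunc F) c * (r ^ 3 * Q) ^ 2 = 0 := by
      rw [← hgQ, ← hc]
      ring
    have h2 := hne ((X ^ 4 * (C 2 * C a' * C b - C 3 * C a * C b' * X ^ 2 + C a' * C b' * X ^ 6) -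
      (C b - C b' * X ^ 6) * (C a - C a' * X ^ 4)) ^ 2 -
      C c * (X ^ 3 * (C 2 * C a' * C b - C 3 * C a * C b' * X ^ 2 + C a' * C b' * X ^ 6)) ^ 2)
      (by simpa using ⟨hb, ha⟩)
    simp only [map_add, map_sub, map_mul, map_pow, alX, alC, map_ofNat] at h2
    exact h2 h1
  have hg0 : g ≠ 0 := by
    intro h0
    refine hgc 0 ?_
    rw [h0, map_zero]
    ring
  have hDy0 : dX y ≠ 0 := by
    intro h0
    rw [hg, h0, mul_zero, zero_div] at hg0
    exact hg0 rfl
  have ht : Transcendental F (g ^ 2) :=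
    RatFunc.transcendental_of_ne_C _ (fun ⟨c, hc⟩ => hgc c hc)
  refine dyn a b a' b' hDx0 hDy0 ht ?_ G hG
  have h1 : ff α β x = r ^ 6 * ff α' β' y := ff_cx hr0 hM0
  rw [← hα, ← hβ, ← hα', ← hβ', h1, hg]
  field_simp

end WRes
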