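import Mathlib

/-!
# The derivative on `F(X)`

The derivation `d/dX` of the field of rational functions, constructed with dual numbers.
-/

open Polynomial

noncomputable section

namespace WRes

variable {F : Type*} [Field F]

/-- The homomorphism `F[X] → F(X)[ε]`, `X ↦ X + ε`. -/
def dualPoly : F[X] →ₐ[F] TrivSqZeroExt (RatFunc F) (RatFunc F) :=
  aeval (TrivSqZeroExt.inl RatFunc.X + TrivSqZeroExt.inr 1)

theorem fst_dualPoly (q : F[X]) : (dualPoly q).fst = algebraMap F[X] (RatFunc F) q := by
  have h : (TrivSqZeroExt.fstHom F (RatFunc F) (RatFunc F)).comp dualPoly =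
      IsScalarTower.toAlgHom F F[X] (RatFunc F) := by
    ext
    simp [dualPoly]
  have := congrArg (fun f => f q) h
  simpa using this

theorem isUnit_dualPoly (q : nonZeroDivisors F[X]) : IsUnit (dualPoly (q : F[X])) := by
  rw [TrivSqZeroExt.isUnit_iff_isUnit_fst, fst_dualPoly, isUnit_iff_ne_zero]
  exact RatFunc.algebraMap_ne_zero (nonZeroDivisors.ne_zero q.2)

/-- The homomorphism `F(X) → F(X)[ε]`, `X ↦ X + ε`. -/
def dualRat : RatFunc F →+* TrivSqZeroExt (RatFunc F) (RatFunc F) :=
  IsLocalization.lift (M := nonZeroDivisors F[X]) (g := (dualPoly (F := F)).toRingHom)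
    isUnit_dualPoly

theorem dualRat_algebraMap (q : F[X]) :
    dualRat (algebraMap F[X] (RatFunc F) q) = dualPoly q :=
  IsLocalization.lift_eq _ _

theorem fst_dualRat (z : RatFunc F) : (dualRat z).fst = z := by
  have h : ((TrivSqZeroExt.fstHom F (RatFunc F) (RatFunc F)).toRingHom.comp dualRat) =
      RingHom.id _ := by
    refine IsLocalization.ringHom_ext (nonZeroDivisors F[X]) ?_
    refine RingHom.ext fun q => ?_
    show (dualRat (algebraMap F[X] (RatFunc F) q)).fst = algebraMap F[X] (RatFunc F) q
    rw [dualRat_algebraMap, fst_dualPoly]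
  exact congrArg (fun f => f z) h

theorem dualRat_C (c : F) : dualRat (algebraMap F (RatFunc F) c) =
    algebraMap F (TrivSqZeroExt (RatFunc F) (RatFunc F)) c := by
  rw [IsScalarTower.algebraMap_apply F F[X] (RatFunc F), dualRat_algebraMap]
  exact dualPoly.commutes c

/-- The derivation `d/dX` of `F(X)`. -/
def dX : Derivation F (RatFunc F) (RatFunc F) :=
  Derivation.mk'
    { toFun := fun z => (dualRat z).snd
      map_add' := fun a b => by rw [map_add, TrivSqZeroExt.snd_add]
      map_smul' := fun c a => by
        rw [Algebra.smul_def, map_mul, dualRat_C, ← Algebra.smul_def]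
        rfl }
    (fun a b => by
      show (dualRat (a * b)).snd = a • (dualRat b).snd + b • (dualRat a).snd
      rw [map_mul, TrivSqZeroExt.snd_mul, fst_dualRat, fst_dualRat, op_smul_eq_smul])

theorem dX_X : dX (RatFunc.X : RatFunc F) = 1 := by
  show (dualRat RatFunc.X).snd = 1
  rw [← RatFunc.algebraMap_X, dualRat_algebraMap]
  simp [dualPoly]

end WRes
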