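import Pool.Agent.H.MP_89f84f_ag.Core

/-!
# The duplication map

`ff a b x = x ^ 3 + a x + b`, the duplication map `dl a b` on the `x`-line, and the invariance of
`(D x) ^ 2 / ff a b x` up to the factor `4`.
-/

open Polynomial

noncomputable section

namespace WRes

section field

variable {A : Type*} [Field A]

/-- `x ^ 3 + a x + b`. -/
def ff (a b x : A) : A := x ^ 3 + a * x + b

/-- The duplication map on the `x`-coordinate. -/
def dl (a b x : A) : A := (x ^ 4 - 2 * a * x ^ 2 - 8 * b * x + a ^ 2) / (4 * ff a b x)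

/-- The third polynomial of the duplication formulas. -/
def ps (a b x : A) : A :=
  x ^ 6 + 5 * a * x ^ 4 + 20 * b * x ^ 3 - 5 * a ^ 2 * x ^ 2 - 4 * a * b * x - 8 * b ^ 2 - a ^ 3

theorem ff_dl [CharZero A] {a b x : A} (h : ff a b x ≠ 0) :
    ff a b (dl a b x) = (ps a b x / (8 * ff a b x ^ 2)) ^ 2 * ff a b x := by
  have h1 : dl a b x * (4 * ff a b x) = x ^ 4 - 2 * a * x ^ 2 - 8 * b * x + a ^ 2 := by
    unfold dl
    field_simp
  have h2 : ff a b (dl a b x) * (4 * ff a b x) ^ 3 = ps a b x ^ 2 := by
    have e : ff a b (dl a b x) * (4 * ff a b x) ^ 3 = (dl a b x * (4 * ff a b x)) ^ 3 +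
        a * (dl a b x * (4 * ff a b x)) * (4 * ff a b x) ^ 2 + b * (4 * ff a b x) ^ 3 := by
      rw [show ff a b (dl a b x) = dl a b x ^ 3 + a * dl a b x + b from rfl]
      ring
    rw [e, h1]
    unfold ff ps
    ring
  have h3 : (4 * ff a b x) ^ 3 ≠ 0 := pow_ne_zero _ (mul_ne_zero (by norm_num) h)
  refine mul_right_cancel₀ h3 ?_
  rw [h2]
  field_simp
  ring

end field

section deriv

variable {F : Type*} [Field F] {A : Type*} [Field A] [Algebra F A]

theorem D_ff (D : Derivation F A A) (a b : F) (x : A) :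
    D (ff (algebraMap F A a) (algebraMap F A b) x) =
      (3 * x ^ 2 + algebraMap F A a) * D x := by
  unfold ff
  rw [map_add, map_add, Derivation.leibniz, Derivation.leibniz_pow, Derivation.map_algebraMap,
    Derivation.map_algebraMap]
  simp only [smul_eq_mul, nsmul_eq_mul]
  push_cast
  ring

theorem D_dl [CharZero A] (D : Derivation F A A) (a b : F) {x : A}
    (h : ff (algebraMap F A a) (algebraMap F A b) x ≠ 0) :
    D (dl (algebraMap F A a) (algebraMap F A b) x) =
      ps (algebraMap F A a) (algebraMap F A b) x /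
        (4 * ff (algebraMap F A a) (algebraMap F A b) x ^ 2) * D x := by
  set a' := algebraMap F A a with ha'
  set b' := algebraMap F A b with hb'
  have hDa : D a' = 0 := D.map_algebraMap a
  have hDb : D b' = 0 := D.map_algebraMap b
  have hD2 : D (2 : A) = 0 := by
    have := D.map_natCast 2
    exact_mod_cast this
  have hD4 : D (4 : A) = 0 := by
    have := D.map_natCast 4
    exact_mod_cast this
  have hD8 : D (8 : A) = 0 := by
    have := D.map_natCast 8
    exact_mod_cast this
  have h1 : dl a' b' x * (4 * ff a' b' x) = x ^ 4 - 2 * a' * x ^ 2 - 8 * b' * x + a' ^ 2 := by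
    unfold dl
    field_simp
  have h2 := congrArg D h1
  rw [Derivation.leibniz, Derivation.leibniz, hD4, D_ff D a b, ← ha'] at h2
  simp only [map_add, map_sub, Derivation.leibniz, Derivation.leibniz_pow, hDa, hDb, hD2, hD8,
    smul_eq_mul, nsmul_eq_mul, mul_zero, add_zero] at h2
  push_cast at h2
  have h4 : (4 : A) * ff a' b' x ≠ 0 := mul_ne_zero (by norm_num) h
  refine mul_left_cancel₀ h4 ?_
  have h5 : 4 * ff a' b' x * D (dl a' b' x) =
      (4 * x ^ 3 - 4 * a' * x - 8 * b') * D x -
        dl a' b' x * (4 * ((3 * x ^ 2 + a') * D x)) := by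
    linear_combination h2
  rw [h5]
  have h6 : dl a' b' x = (x ^ 4 - 2 * a' * x ^ 2 - 8 * b' * x + a' ^ 2) / (4 * ff a' b' x) := rfl
  rw [h6]
  field_simp
  unfold ff ps
  ring

/-- The invariance of the differential. -/
theorem D_inv [CharZero A] (D : Derivation F A A) (a b : F) {x : A}
    (h : ff (algebraMap F A a) (algebraMap F A b) x ≠ 0) :
    D (dl (algebraMap F A a) (algebraMap F A b) x) ^ 2 *
      ff (algebraMap F A a) (algebraMap F A b) x =
      4 * (D x ^ 2 * ff (algebraMap F A a) (algebraMap F A b)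
        (dl (algebraMap F A a) (algebraMap F A b) x)) := by
  rw [D_dl D a b h, ff_dl h]
  field_simp
  ring

end deriv

end WRes
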