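import Pool.Agent.H.MP_89f84f_ag.Abs

/-!
# The explicit affine surface

`K = k(√d)` is `QuadraticAlgebra k d 0`, embedded in an algebraically closed field `F ⊇ k` by
`√d ↦ θ`.
-/

open Polynomial

noncomputable section

namespace WRes

/-- The two equations in the coordinates `x = P 0 + P 1 √d`, `y = P 2 + P 3 √d` which say that
`y ^ 2 = x ^ 3 + (a₀ + a₁ √d) x + (b₀ + b₁ √d)`. -/
def Eqs {T : Type*} [CommRing T] (d a₀ a₁ b₀ b₁ : T) (P : Fin 4 → T) : Prop :=
  P 2 ^ 2 + d * P 3 ^ 2 = P 0 ^ 3 + 3 * d * P 0 * P 1 ^ 2 + a₀ * P 0 + d * a₁ * P 1 + b₀ ∧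
  2 * P 2 * P 3 = 3 * P 0 ^ 2 * P 1 + d * P 1 ^ 3 + a₀ * P 1 + a₁ * P 0 + b₁

section base

variable {k : Type*} [Field k] (d : k)

/-- The conjugation of `k(√d)`. -/
def sg : QuadraticAlgebra k d 0 →+* QuadraticAlgebra k d 0 :=
  starRingEnd (QuadraticAlgebra k d 0)

theorem sg_re (z : QuadraticAlgebra k d 0) : (sg d z).re = z.re := by
  show (star z).re = z.re
  simp

theorem sg_im (z : QuadraticAlgebra k d 0) : (sg d z).im = -z.im := by
  show (star z).im = -z.im
  simp

theorem conj_sg [CharZero k] [Fact (∀ r : k, r ^ 2 ≠ d + 0 * r)] : Conj k (sg d) (QuadraticAlgebra.omega : QuadraticAlgebra k d 0) where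
  inv x := by
    ext
    · simp [sg_re]
    · simp [sg_im]
  fix x hx := by
    refine ⟨x.re, ?_⟩
    have h := congrArg QuadraticAlgebra.im hx
    rw [sg_im] at h
    have h' : x.im = 0 := self_eq_neg.1 h.symm
    ext
    · simp
    · simp [h']
  alg c := by
    ext
    · simp [sg_re]
    · simp [sg_im]
  om := by
    ext
    · simp [sg_re]
    · simp [sg_im]
  om0 := by
    intro h
    have := congrArg QuadraticAlgebra.im h
    simp at this

variable {F : Type*} [Field F] [Algebra k F]

/-- The embedding `√d ↦ θ`. -/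
def io {d : k} {θ : F} (hθ : θ ^ 2 = algebraMap k F d) : QuadraticAlgebra k d 0 →ₐ[k] F :=
  QuadraticAlgebra.lift ⟨θ, by
    rw [zero_smul, add_zero, ← Algebra.algebraMap_eq_smul_one, ← hθ, sq]⟩

variable {d} {θ : F} (hθ : θ ^ 2 = algebraMap k F d)

theorem io_apply (z : QuadraticAlgebra k d 0) :
    io hθ z = algebraMap k F z.re + algebraMap k F z.im * θ := by
  unfold io
  rw [QuadraticAlgebra.lift_apply_apply]
  simp only
  rw [← Algebra.algebraMap_eq_smul_one, Algebra.smul_def]

theorem io_sg (z : QuadraticAlgebra k d 0) :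
    io hθ (sg d z) = algebraMap k F z.re - algebraMap k F z.im * θ := by
  rw [io_apply, sg_re, sg_im, map_neg]
  ring

theorem theta_ne [hF : Fact (∀ r : k, r ^ 2 ≠ d + 0 * r)] {θ : F} (hθ : θ ^ 2 = algebraMap k F d) : θ ≠ 0 := by
  intro h
  rw [h] at hθ
  have h1 : d = 0 := (algebraMap k F).injective (by rw [← hθ, map_zero]; ring)
  exact hF.out 0 (by rw [h1]; ring)

/-- The equations in terms of the conjugate coordinates. -/
theorem eqs_iff [CharZero F] [Fact (∀ r : k, r ^ 2 ≠ d + 0 * r)] (a b : QuadraticAlgebra k d 0) (x₁ y₁ x₂ y₂ : F) :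
    Eqs (algebraMap k F d) (algebraMap k F a.re) (algebraMap k F a.im) (algebraMap k F b.re)
      (algebraMap k F b.im) (pt θ x₁ y₁ x₂ y₂) ↔
    y₁ ^ 2 = aeval x₁ (pf (io hθ a) (io hθ b)) ∧
      y₂ ^ 2 = aeval x₂ (pf (io hθ (sg d a)) (io hθ (sg d b))) := by
  have h0 : θ ≠ 0 := theta_ne hθ
  rw [aeval_pf_self, aeval_pf_self, io_apply, io_apply, io_sg, io_sg, ← hθ]
  unfold Eqs ff pt
  simp only [Matrix.cons_val_zero, Matrix.cons_val_one, Matrix.cons_val]
  set p := algebraMap k F a.re
  set q := algebraMap k F a.im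
  set r := algebraMap k F b.re
  set s := algebraMap k F b.im
  obtain ⟨u, v, hx1, hx2⟩ : ∃ u v : F, x₁ = u + v * θ ∧ x₂ = u - v * θ :=
    ⟨(x₁ + x₂) / 2, (x₁ - x₂) / (2 * θ), by field_simp; ring, by field_simp; ring⟩
  obtain ⟨z, w, hy1, hy2⟩ : ∃ z w : F, y₁ = z + w * θ ∧ y₂ = z - w * θ :=
    ⟨(y₁ + y₂) / 2, (y₁ - y₂) / (2 * θ), by field_simp; ring, by field_simp; ring⟩
  have e1 : (x₁ + x₂) / 2 = u := by rw [hx1, hx2]; ring
  have e2 : (x₁ - x₂) / (2 * θ) = v := by rw [hx1, hx2]; field_simp; ring
  have e3 : (y₁ + y₂) / 2 = z := by rw [hy1, hy2]; ring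
  have e4 : (y₁ - y₂) / (2 * θ) = w := by rw [hy1, hy2]; field_simp; ring
  rw [e1, e2, e3, e4, hx1, hx2, hy1, hy2]
  constructor
  · rintro ⟨h1, h2⟩
    exact ⟨by linear_combination h1 + θ * h2, by linear_combination h1 - θ * h2⟩
  · rintro ⟨h1, h2⟩
    refine ⟨by linear_combination (1 / 2 : F) * h1 + (1 / 2 : F) * h2, ?_⟩
    refine mul_left_cancel₀ (mul_ne_zero (two_ne_zero (α := F)) h0) ?_
    linear_combination h1 - h2

end base

/-- A subfield generated by elements of a quadratic extension which are not all in the ground field is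
quadratic. -/
theorem finrank_two {k F : Type*} [Field k] [Field F] [Algebra k F] {D : k} {ρ : F}
    (hD : ∀ e : k, e ^ 2 ≠ D) (hρ : ρ ^ 2 = algebraMap k F D) {P : Fin 4 → F}
    (hP : ∀ i, P i ∈ IntermediateField.adjoin k {ρ})
    (hne : ∃ i, P i ∉ (⊥ : IntermediateField k F)) :
    Module.finrank k (IntermediateField.adjoin k (Set.range P)) = 2 := by
  have hint : IsIntegral k ρ := ⟨X ^ 2 - C D, monic_X_pow_sub_C D two_ne_zero, by simp [hρ]⟩
  have hirr : Irreducible (X ^ 2 - C D : k[X]) :=
    X_pow_sub_C_irreducible_of_prime Nat.prime_two hD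
  have hmin : minpoly k ρ = X ^ 2 - C D :=
    (minpoly.eq_of_irreducible_of_monic hirr (by simp [hρ])
      (monic_X_pow_sub_C D two_ne_zero)).symm
  have h2 : Module.finrank k (IntermediateField.adjoin k {ρ}) = 2 := by
    rw [IntermediateField.adjoin.finrank hint, hmin, natDegree_X_pow_sub_C]
  have : FiniteDimensional k (IntermediateField.adjoin k {ρ}) :=
    IntermediateField.adjoin.finiteDimensional hint
  have hle : IntermediateField.adjoin k (Set.range P) ≤ IntermediateField.adjoin k {ρ} := by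
    rw [IntermediateField.adjoin_le_iff]
    rintro _ ⟨i, rfl⟩
    exact hP i
  have hdvd : Module.finrank k (IntermediateField.adjoin k (Set.range P)) ∣ 2 := by
    rw [← h2]
    exact IntermediateField.finrank_dvd_of_le_right hle
  rcases (Nat.dvd_prime Nat.prime_two).1 hdvd with h | h
  · exfalso
    obtain ⟨i, hi⟩ := hne
    rw [IntermediateField.finrank_eq_one_iff] at h
    apply hi
    rw [← h]
    exact IntermediateField.subset_adjoin k _ ⟨i, rfl⟩
  · exact h

/-- Density of the quadratic points on the explicit affine surface. -/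
theorem explicit {k F : Type*} [Field k] [CharZero k] [Field F] [Algebra k F] [IsAlgClosed F]
    (d : k) (hd : ∀ r : k, r ^ 2 ≠ d) (a₀ a₁ b₀ b₁ : k) (ha : a₀ ≠ 0 ∨ a₁ ≠ 0)
    (hb : b₀ ≠ 0 ∨ b₁ ≠ 0) (Φ : MvPolynomial (Fin 4) F)
    (hΦ : ∀ P : Fin 4 → F, Eqs (algebraMap k F d) (algebraMap k F a₀) (algebraMap k F a₁)
      (algebraMap k F b₀) (algebraMap k F b₁) P →
      Module.finrank k (IntermediateField.adjoin k (Set.range P)) = 2 →
      MvPolynomial.eval P Φ = 0)
    (P : Fin 4 → F) (hP : Eqs (algebraMap k F d) (algebraMap k F a₀) (algebraMap k F a₁)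
      (algebraMap k F b₀) (algebraMap k F b₁) P) : MvPolynomial.eval P Φ = 0 := by
  have hF : Fact (∀ r : k, r ^ 2 ≠ d + 0 * r) := ⟨fun r h => hd r (by rw [h]; ring)⟩
  have hchF : CharZero F := charZero_of_injective_algebraMap (algebraMap k F).injective
  obtain ⟨θ, hθ⟩ := IsAlgClosed.exists_pow_nat_eq (algebraMap k F d) (Nat.zero_lt_two)
  have hθ0 : θ ≠ 0 := theta_ne hθ
  set a : QuadraticAlgebra k d 0 := ⟨a₀, a₁⟩ with ha'
  set b : QuadraticAlgebra k d 0 := ⟨b₀, b₁⟩ with hb'
  have ha0 : a ≠ 0 := by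
    intro h
    have h1 := congrArg QuadraticAlgebra.re h
    have h2 := congrArg QuadraticAlgebra.im h
    simp [ha'] at h1 h2
    rcases ha with ha | ha
    · exact ha h1
    · exact ha h2
  have hb0 : b ≠ 0 := by
    intro h
    have h1 := congrArg QuadraticAlgebra.re h
    have h2 := congrArg QuadraticAlgebra.im h
    simp [hb'] at h1 h2
    rcases hb with hb | hb
    · exact hb h1
    · exact hb h2
  have hiff := eqs_iff (F := F) hθ a b
  -- the given point
  obtain ⟨x₁, y₁, x₂, y₂, rfl⟩ : ∃ x₁ y₁ x₂ y₂ : F, pt θ x₁ y₁ x₂ y₂ = P := by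
    refine ⟨P 0 + P 1 * θ, P 2 + P 3 * θ, P 0 - P 1 * θ, P 2 - P 3 * θ, ?_⟩
    unfold pt
    ext i
    fin_cases i
    · simp
    · simp only [Fin.mk_one, Matrix.cons_val_one, Matrix.cons_val_zero]
      field_simp
      ring
    · simp
    · show (P 2 + P 3 * θ - (P 2 - P 3 * θ)) / (2 * θ) = P 3
      field_simp
      ring
  obtain ⟨h1, h2⟩ := (hiff x₁ y₁ x₂ y₂).1 hP
  refine abs_main (σ := sg d) (ω := QuadraticAlgebra.omega) (conj_sg d)
    (io hθ : QuadraticAlgebra k d 0 →ₐ[k] F).toRingHom ha0 hb0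
    (g := fun x₁ y₁ x₂ y₂ => MvPolynomial.eval (pt θ x₁ y₁ x₂ y₂) Φ)
    (hasDec_eval _ _ θ Φ) ?_ ?_ h1 h2
  · -- the twists
    intro D x w ρ hD hw0 hw hρ
    have hρ' : ρ ^ 2 = algebraMap k F D := hρ.trans ((io hθ).commutes D)
    refine hΦ _ ((hiff _ _ _ _).2 ⟨?_, ?_⟩) ?_
    · show (io hθ w * ρ) ^ 2 = aeval (io hθ x) (pf (io hθ a) (io hθ b))
      have h3 := map_ff (io hθ : QuadraticAlgebra k d 0 →ₐ[k] F).toRingHom a b x
      rw [aeval_pf_self]
      refine Eq.trans ?_ h3
      rw [← hw]
      show _ = io hθ (algebraMap k _ D * w ^ 2)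
      rw [map_mul, map_pow, AlgHom.commutes, mul_pow, hρ']
      ring
    · show (io hθ (sg d w) * ρ) ^ 2 = aeval (io hθ (sg d x)) (pf (io hθ (sg d a)) (io hθ (sg d b)))
      have h3 := map_ff (io hθ : QuadraticAlgebra k d 0 →ₐ[k] F).toRingHom (sg d a) (sg d b)
        (sg d x)
      rw [aeval_pf_self]
      refine Eq.trans ?_ h3
      rw [← map_ff (sg d), ← hw]
      show _ = io hθ (sg d (algebraMap k _ D * w ^ 2))
      rw [map_mul, (conj_sg d).alg, map_pow, map_mul, map_pow, AlgHom.commutes, mul_pow, hρ']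
      ring
    · have e0 : pt θ (io hθ x) (io hθ w * ρ) (io hθ (sg d x)) (io hθ (sg d w) * ρ) =
          ![algebraMap k F x.re, algebraMap k F x.im, algebraMap k F w.re * ρ,
            algebraMap k F w.im * ρ] := by
        unfold pt
        rw [io_sg hθ x, io_sg hθ w, io_apply hθ x, io_apply hθ w]
        ext i
        fin_cases i
        · simp
        · show (algebraMap k F x.re + algebraMap k F x.im * θ -
            (algebraMap k F x.re - algebraMap k F x.im * θ)) / (2 * θ) = algebraMap k F x.im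
          field_simp
          ring
        · show ((algebraMap k F w.re + algebraMap k F w.im * θ) * ρ +
            (algebraMap k F w.re - algebraMap k F w.im * θ) * ρ) / 2 = algebraMap k F w.re * ρ
          field_simp
          ring
        · show ((algebraMap k F w.re + algebraMap k F w.im * θ) * ρ -
            (algebraMap k F w.re - algebraMap k F w.im * θ) * ρ) / (2 * θ) =
            algebraMap k F w.im * ρ
          field_simp
          ring
      show Module.finrank k (IntermediateField.adjoin k (Set.range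
        (pt θ (io hθ x) (io hθ w * ρ) (io hθ (sg d x)) (io hθ (sg d w) * ρ)))) = 2
      rw [e0]
      have hρm : ρ ∈ IntermediateField.adjoin k {ρ} :=
        IntermediateField.mem_adjoin_simple_self k ρ
      have hρn : ρ ∉ (⊥ : IntermediateField k F) := by
        rw [IntermediateField.mem_bot]
        rintro ⟨e, he⟩
        refine hD e ((algebraMap k F).injective ?_)
        rw [map_pow, he, hρ']
      refine finrank_two hD hρ' (fun i => ?_) ?_
      · fin_cases i
        · exact IntermediateField.algebraMap_mem _ _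
        · exact IntermediateField.algebraMap_mem _ _
        · exact mul_mem (IntermediateField.algebraMap_mem _ _) hρm
        · exact mul_mem (IntermediateField.algebraMap_mem _ _) hρm
      · have hmul : ∀ c : k, c ≠ 0 → algebraMap k F c * ρ ∉ (⊥ : IntermediateField k F) := by
          intro c hc hmem
          apply hρn
          have h5 : ρ = (algebraMap k F c)⁻¹ * (algebraMap k F c * ρ) := by
            have : algebraMap k F c ≠ 0 := (_root_.map_ne_zero _).2 hc
            field_simp
          rw [h5]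
          exact mul_mem (inv_mem (IntermediateField.algebraMap_mem _ _)) hmem
        by_cases hre : w.re = 0
        · refine ⟨3, hmul w.im ?_⟩
          intro him
          apply hw0
          ext
          · simpa using hre
          · simpa using him
        · exact ⟨2, hmul w.re hre⟩
  · -- the points over `K`
    intro x y x' y' hy hy' hne
    refine hΦ _ ((hiff _ _ _ _).2 ⟨?_, ?_⟩) ?_
    · show (io hθ y) ^ 2 = aeval (io hθ x) (pf (io hθ a) (io hθ b))
      have h3 := map_ff (io hθ : QuadraticAlgebra k d 0 →ₐ[k] F).toRingHom a b x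
      rw [aeval_pf_self]
      refine Eq.trans ?_ h3
      rw [← hy]
      show _ = io hθ (y ^ 2)
      rw [map_pow]
    · show (io hθ (sg d y')) ^ 2 = aeval (io hθ (sg d x')) (pf (io hθ (sg d a)) (io hθ (sg d b)))
      have h3 := map_ff (io hθ : QuadraticAlgebra k d 0 →ₐ[k] F).toRingHom (sg d a) (sg d b)
        (sg d x')
      rw [aeval_pf_self]
      refine Eq.trans ?_ h3
      rw [← map_ff (sg d), ← hy']
      show _ = io hθ (sg d (y' ^ 2))
      rw [map_pow, map_pow]
    · have hθm : θ ∈ IntermediateField.adjoin k {θ} :=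
        IntermediateField.mem_adjoin_simple_self k θ
      have hm : ∀ z : QuadraticAlgebra k d 0, io hθ z ∈ IntermediateField.adjoin k {θ} := by
        intro z
        rw [io_apply]
        exact add_mem (IntermediateField.algebraMap_mem _ _)
          (mul_mem (IntermediateField.algebraMap_mem _ _) hθm)
      have h2m : (2 : F) ∈ IntermediateField.adjoin k {θ} := ofNat_mem _ 2
      refine finrank_two hd hθ (fun i => ?_) ?_
      · fin_cases i
        · exact div_mem (add_mem (hm _) (hm _)) h2m
        · exact div_mem (sub_mem (hm _) (hm _)) (mul_mem h2m hθm)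
        · exact div_mem (add_mem (hm _) (hm _)) h2m
        · exact div_mem (sub_mem (hm _) (hm _)) (mul_mem h2m hθm)
      · by_contra hcon
        push Not at hcon
        have c0 := hcon 0
        have c1 := hcon 1
        rw [IntermediateField.mem_bot] at c0 c1
        obtain ⟨u, hu⟩ := c0
        obtain ⟨v, hv⟩ := c1
        have hu' : algebraMap k F u = (io hθ x + io hθ (sg d x')) / 2 := hu
        have hv' : algebraMap k F v = (io hθ x - io hθ (sg d x')) / (2 * θ) := hv
        have q1 : io hθ x = io hθ ⟨u, v⟩ := by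
          rw [io_apply hθ ⟨u, v⟩]
          show io hθ x = algebraMap k F u + algebraMap k F v * θ
          rw [hu', hv']
          field_simp
          ring
        have q2 : io hθ (sg d x') = io hθ (sg d ⟨u, v⟩) := by
          rw [io_sg hθ ⟨u, v⟩]
          show io hθ (sg d x') = algebraMap k F u - algebraMap k F v * θ
          rw [hu', hv']
          field_simp
          ring
        have q3 : x = ⟨u, v⟩ := (io hθ).toRingHom.injective q1
        have q4 : x' = ⟨u, v⟩ := (sg d).injective ((io hθ).toRingHom.injective q2)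
        exact hne (q3.trans q4.symm)

end WRes
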