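import Pool.Agent.H.MP_89f84f_ag.Dyn

/-!
# The core lemma for the iterates of the duplication maps
-/

open Polynomial

noncomputable section

namespace WRes

variable {F : Type*} [Field F]

theorem transc_of_dX {z : RatFunc F} (hz : dX z ≠ 0) : Transcendental F z :=
  RatFunc.transcendental_of_ne_C z (fun ⟨c, hc⟩ => hz (by rw [hc]; exact dX.map_algebraMap c))

/-- The cubic polynomial. -/
def pf (a b : F) : F[X] := X ^ 3 + C a * X + C b

theorem aeval_pf {A : Type*} [Field A] [Algebra F A] (a b : F) (x : A) :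
    aeval x (pf a b) = ff (algebraMap F A a) (algebraMap F A b) x := by
  simp [pf, ff]

theorem pf_ne (a b : F) : pf a b ≠ 0 := by
  intro h
  have := congrArg (fun p => coeff p 3) h
  simp [pf] at this

theorem ff_ne {a b : F} {z : RatFunc F} (hz : Transcendental F z) :
    ff (algebraMap F (RatFunc F) a) (algebraMap F (RatFunc F) b) z ≠ 0 := by
  rw [← aeval_pf]
  exact (transcendental_iff.1 hz _).mt (pf_ne a b)

/-- The polynomial of degree `6`. -/
def pp (a b : F) : F[X] :=
  X ^ 6 + C (5 * a) * X ^ 4 + C (20 * b) * X ^ 3 - C (5 * a ^ 2) * X ^ 2 - C (4 * a * b) * X -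
    C (8 * b ^ 2) - C (a ^ 3)

theorem aeval_pp {A : Type*} [Field A] [Algebra F A] (a b : F) (x : A) :
    aeval x (pp a b) = ps (algebraMap F A a) (algebraMap F A b) x := by
  simp only [pp, ps, map_add, map_sub, map_mul, map_pow, aeval_X, aeval_C, map_ofNat]

theorem pp_ne (a b : F) : pp a b ≠ 0 := by
  intro h
  have := congrArg (fun p => coeff p 6) h
  simp only [pp, coeff_add, coeff_sub, coeff_C_mul, coeff_X_pow, coeff_C, coeff_X,
    coeff_zero] at this
  norm_num at this

theorem ps_ne {a b : F} {z : RatFunc F} (hz : Transcendental F z) :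
    ps (algebraMap F (RatFunc F) a) (algebraMap F (RatFunc F) b) z ≠ 0 := by
  rw [← aeval_pp]
  exact (transcendental_iff.1 hz _).mt (pp_ne a b)

/-- The iterates of the duplication map. -/
def it (a b : F) (x : RatFunc F) (j : ℕ) : RatFunc F :=
  (dl (algebraMap F (RatFunc F) a) (algebraMap F (RatFunc F) b))^[j] x

theorem it_succ (a b : F) (x : RatFunc F) (j : ℕ) :
    it a b x (j + 1) = dl (algebraMap F (RatFunc F) a) (algebraMap F (RatFunc F) b)
      (it a b x j) := Function.iterate_succ_apply' _ _ _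

variable [CharZero F]

instance : CharZero (RatFunc F) := charZero_of_injective_algebraMap (RatFunc.C_injective (K := F))

theorem it_dX (a b : F) {x : RatFunc F} (hx : dX x ≠ 0) (j : ℕ) :
    dX (it a b x j) ≠ 0 ∧ dX (it a b x j) ^ 2 *
      ff (algebraMap F (RatFunc F) a) (algebraMap F (RatFunc F) b) x = 4 ^ j * (dX x ^ 2 *
      ff (algebraMap F (RatFunc F) a) (algebraMap F (RatFunc F) b) (it a b x j)) := by
  induction j with
  | zero => exact ⟨hx, by simp [it]⟩
  | succ j ih =>
    obtain ⟨h1, h2⟩ := ih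
    have ht := transc_of_dX h1
    have hf := ff_ne (a := a) (b := b) ht
    have hp := ps_ne (a := a) (b := b) ht
    rw [it_succ]
    refine ⟨?_, ?_⟩
    · rw [D_dl dX a b hf]
      refine mul_ne_zero (div_ne_zero hp (mul_ne_zero (by norm_num) (pow_ne_zero _ hf))) h1
    · have h3 := D_inv dX a b hf
      refine mul_right_cancel₀ hf ?_
      set z := it a b x j
      set f := ff (algebraMap F (RatFunc F) a) (algebraMap F (RatFunc F) b)
      set w := dl (algebraMap F (RatFunc F) a) (algebraMap F (RatFunc F) b) z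
      calc dX w ^ 2 * f x * f z = (dX w ^ 2 * f z) * f x := by ring
        _ = 4 * f w * (dX z ^ 2 * f x) := by rw [h3]; ring
        _ = 4 ^ (j + 1) * (dX x ^ 2 * f w) * f z := by rw [h2]; ring

theorem it_inj (a b : F) {x : RatFunc F} (hx : dX x ≠ 0) : Function.Injective (it a b x) := by
  intro i j hij
  obtain ⟨h1, h2⟩ := it_dX a b hx i
  obtain ⟨-, h3⟩ := it_dX a b hx j
  rw [← hij, h2] at h3
  have hf := ff_ne (a := a) (b := b) (transc_of_dX h1)
  have h4 : ((4 : RatFunc F) ^ i) = 4 ^ j :=
    mul_right_cancel₀ (mul_ne_zero (pow_ne_zero 2 hx) hf) h3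
  have h5 : (4 : ℕ) ^ i = 4 ^ j := by exact_mod_cast h4
  exact Nat.pow_right_injective (le_refl 2 |>.trans (by norm_num)) h5

/-- No curve contains all the points `(it x j, it y j)` if the quotient of the invariant
differentials is not constant. -/
theorem dyn (a b a' b' : F) {x y h : RatFunc F} (hx : dX x ≠ 0) (hy : dX y ≠ 0)
    (hh : Transcendental F h)
    (hb : dX y ^ 2 * ff (algebraMap F (RatFunc F) a) (algebraMap F (RatFunc F) b) x =
      h * (dX x ^ 2 * ff (algebraMap F (RatFunc F) a') (algebraMap F (RatFunc F) b') y))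
    (G : F[X][X]) (hG : ∀ j, ev (it a b x j) (it a' b' y j) G = 0) : G = 0 := by
  refine core (it a b x) (it a' b' y) (it_inj a b hx) (fun j => transc_of_dX (it_dX a b hx j).1)
    (fun j => (it_dX a b hx j).1) h hh (pf a b) (pf a' b') ?_ ?_ G hG
  · intro j
    rw [aeval_pf]
    exact ff_ne (transc_of_dX (it_dX a' b' hy j).1)
  · intro j
    rw [aeval_pf, aeval_pf]
    obtain ⟨-, h1⟩ := it_dX a b hx j
    obtain ⟨-, h2⟩ := it_dX a' b' hy j
    have hfx := ff_ne (a := a) (b := b) (transc_of_dX hx)
    have hfy := ff_ne (a := a') (b := b') (transc_of_dX hy)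
    refine mul_right_cancel₀ (mul_ne_zero hfx hfy) ?_
    set f := ff (algebraMap F (RatFunc F) a) (algebraMap F (RatFunc F) b)
    set g := ff (algebraMap F (RatFunc F) a') (algebraMap F (RatFunc F) b')
    set u := it a b x j
    set v := it a' b' y j
    calc dX v ^ 2 * f u * (f x * g y) = (dX v ^ 2 * g y) * (f u * f x) := by ring
      _ = 4 ^ j * (dX y ^ 2 * f x) * (f u * g v) := by rw [h2]; ring
      _ = 4 ^ j * (h * (dX x ^ 2 * g y)) * (f u * g v) := by rw [hb]
      _ = h * (4 ^ j * (dX x ^ 2 * f u)) * (g v * g y) := by ring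
      _ = h * (dX u ^ 2 * f x) * (g v * g y) := by rw [h1]
      _ = h * (dX u ^ 2 * g v) * (f x * g y) := by ring

end WRes
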