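import Pool.Agent.H.MP_89f84f_ag.P12Many

/-!
# Polynomials which vanish at many points of the quotient surface
-/

open Polynomial

namespace P12

/-- Division by a quadratic polynomial up to a power of the leading coefficient. -/
theorem pseudo_div {R : Type*} [CommRing R] (a2 a1 a0 : R) (H : R[X]) :
    ∃ (m : ℕ) (Q : R[X]) (α β : R), C (a2 ^ m) * H =
      (C a2 * X ^ 2 + C a1 * X + C a0) * Q + (C α + C β * X) := by
  induction H using Polynomial.induction_on' with
  | add p q hp hq =>
    obtain ⟨m, Q, α, β, h⟩ := hp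
    obtain ⟨m', Q', α', β', h'⟩ := hq
    refine ⟨m + m', C (a2 ^ m') * Q + C (a2 ^ m) * Q', a2 ^ m' * α + a2 ^ m * α',
      a2 ^ m' * β + a2 ^ m * β', ?_⟩
    simp only [C_add, C_mul, pow_add] at h h' ⊢
    linear_combination C (a2 ^ m') * h + C (a2 ^ m) * h'
  | monomial n a =>
    induction n with
    | zero =>
      refine ⟨0, 0, a, 0, ?_⟩
      simp
    | succ n ih =>
      obtain ⟨m, Q, α, β, h⟩ := ih
      refine ⟨m + 1, C a2 * X * Q + C β, -(β * a0), a2 * α - β * a1, ?_⟩
      rw [← Polynomial.monomial_mul_X]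
      simp only [C_mul, C_sub, C_neg, pow_succ] at h ⊢
      linear_combination C a2 * X * h

/-- The even and the odd part of a polynomial. -/
theorem even_odd {R : Type*} [CommRing R] (H : R[X]) :
    ∃ H0 H1 : R[X], H = H0.comp (X ^ 2) + X * H1.comp (X ^ 2) := by
  induction H using Polynomial.induction_on' with
  | add p q hp hq =>
    obtain ⟨H0, H1, h⟩ := hp
    obtain ⟨H0', H1', h'⟩ := hq
    refine ⟨H0 + H0', H1 + H1', ?_⟩
    rw [add_comp, add_comp, h, h']
    ring
  | monomial n a =>
    induction n with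
    | zero =>
      refine ⟨C a, 0, ?_⟩
      simp
    | succ n ih =>
      obtain ⟨H0, H1, h⟩ := ih
      refine ⟨X * H1, H0, ?_⟩
      rw [← Polynomial.monomial_mul_X, h, mul_comp, X_comp]
      ring

section ev

variable {k : Type*} [CommRing k] {F : Type*} [CommRing F] [Algebra k F]

/-- The value at `(x, t)` of a polynomial in `t` (inner variable) and `x` (outer variable). -/
noncomputable def ev2 (x t : F) : k[X][X] →+* F :=
  Polynomial.eval₂RingHom (Polynomial.eval₂RingHom (algebraMap k F) t) x

/-- The value at `(x, t, y)`. -/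
noncomputable def ev3 (x t y : F) : k[X][X][X] →+* F :=
  Polynomial.eval₂RingHom (ev2 x t) y

@[simp] theorem ev2_C (x t : F) (p : k[X]) : ev2 x t (C p) = aeval t p := by
  simp [ev2, Polynomial.aeval_def]

@[simp] theorem ev2_X (x t : F) : ev2 x t (X : k[X][X]) = x := by
  simp [ev2]

@[simp] theorem ev3_C (x t y : F) (p : k[X][X]) : ev3 x t y (C p) = ev2 x t p := by
  simp [ev3]

@[simp] theorem ev3_X (x t y : F) : ev3 x t y (X : k[X][X][X]) = y := by
  simp [ev3]

theorem ev2_algebraMap (x t : k) (p : k[X][X]) :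
    ev2 (algebraMap k F x) (algebraMap k F t) p = algebraMap k F (ev2 x t p) := by
  have h : (ev2 (algebraMap k F x) (algebraMap k F t) : k[X][X] →+* F) =
      (algebraMap k F).comp (ev2 x t) := by
    apply Polynomial.ringHom_ext
    · intro p
      simp [Polynomial.aeval_algebraMap_apply]
    · simp
  rw [h]
  rfl

theorem ev3_algebraMap (x t y : k) (p : k[X][X][X]) :
    ev3 (algebraMap k F x) (algebraMap k F t) (algebraMap k F y) p =
      algebraMap k F (ev3 x t y p) := by
  have h : (ev3 (algebraMap k F x) (algebraMap k F t) (algebraMap k F y) : k[X][X][X] →+* F) =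
      (algebraMap k F).comp (ev3 x t y) := by
    apply Polynomial.ringHom_ext
    · intro p
      simp [ev2_algebraMap]
    · simp
  rw [h]
  rfl

theorem ev3_comp (x t y : F) (p q : k[X][X][X]) :
    ev3 x t y (p.comp q) = ev3 x t (ev3 x t y q) p := by
  simp only [ev3, Polynomial.coe_eval₂RingHom, Polynomial.eval₂_comp]

theorem ev2_eq (x t : k) (p : k[X][X]) : ev2 x t p = (p.map (evalRingHom t)).eval x := by
  simp only [ev2, Polynomial.coe_eval₂RingHom, Polynomial.eval_map]
  congr 1

end ev

/-- A polynomial in two variables which vanishes at arbitrarily many points on infinitely many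
lines is zero. -/
theorem zero_of_many {k : Type*} [Field k] (n : k[X][X])
    (hn : ∀ N : ℕ, ∃ T : ℕ → k, Function.Injective T ∧ ∀ z, ∃ x : ℕ → k,
      (∀ i, 1 ≤ i → i ≤ N → ev2 (x i) (T z) n = 0) ∧
      ∀ i j, 1 ≤ i → i ≤ N → 1 ≤ j → j ≤ N → x i = x j → i = j) : n = 0 := by
  classical
  obtain ⟨T, hT, h⟩ := hn (n.natDegree + 1)
  have h1 : ∀ z, n.map (evalRingHom (T z)) = 0 := by
    intro z
    obtain ⟨x, hx, hinj⟩ := h z
    refine Polynomial.eq_zero_of_natDegree_lt_card_of_eval_eq_zero' _
      ((Finset.Icc 1 (n.natDegree + 1)).image x) ?_ ?_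
    · intro y hy
      obtain ⟨i, hi, rfl⟩ := Finset.mem_image.1 hy
      rw [Finset.mem_Icc] at hi
      rw [← ev2_eq]
      exact hx i hi.1 hi.2
    · rw [Finset.card_image_of_injOn]
      · rw [Nat.card_Icc]
        have := Polynomial.natDegree_map_le (f := evalRingHom (T z)) (p := n)
        omega
      · intro i hi j hj hij
        rw [Finset.mem_coe, Finset.mem_Icc] at hi hj
        exact hinj i j hi.1 hi.2 hj.1 hj.2 hij
  ext1 j
  rw [Polynomial.coeff_zero]
  apply Polynomial.eq_zero_of_infinite_isRoot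
  refine Set.Infinite.mono ?_ (Set.infinite_range_of_injective hT)
  rintro _ ⟨z, rfl⟩
  show Polynomial.IsRoot _ _
  have h2 := congrArg (fun p => p.coeff j) (h1 z)
  simpa using h2

end P12
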