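import Pool.Agent.H.MP_89f84f_ag.P12Alg

/-!
# A polynomial which vanishes at the quadratic points vanishes on the surface
-/

open Polynomial

namespace P12

section

variable {k : Type*} [Field k] {F : Type*} [Field F] [Algebra k F]

/-- `B(x, t)` as a polynomial in `t` (inner variable) and `x` (outer variable). -/
noncomputable def BB {k : Type*} [CommRing k] (B0 B1 B2 : k[X]) : k[X][X] :=
  C B0 + C B1 * X + C B2 * X ^ 2

/-- `(x - t) C(x, t)` as a polynomial in `t` (inner variable) and `x` (outer variable). -/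
noncomputable def CC {k : Type*} [CommRing k] (C0 C1 C2 C3 : k[X]) : k[X][X] :=
  (X - C X) * (C C0 + C C1 * X + C C2 * X ^ 2 + C C3 * X ^ 3)

theorem ev2_BB (B0 B1 B2 : k[X]) (x t : F) : ev2 x t (BB B0 B1 B2) =
    aeval t B0 + aeval t B1 * x + aeval t B2 * x ^ 2 := by
  simp [BB]

theorem ev2_CC (C0 C1 C2 C3 : k[X]) (x t : F) : ev2 x t (CC C0 C1 C2 C3) =
    (x - t) * (aeval t C0 + aeval t C1 * x + aeval t C2 * x ^ 2 + aeval t C3 * x ^ 3) := by
  simp [CC]

/-- The discriminant is not a square. -/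
theorem not_square {k F : Type*} [Field k] [Field F] [CharZero F] [Algebra k F]
    (A B0 B1 B2 C0 C1 C2 C3 : k[X]) (t0 : F)
    (h0 : aeval t0 (diag2 B0 B1 B2) = 0)
    (hA : aeval t0 A ≠ 0) (hC : aeval t0 (diag3 C0 C1 C2 C3) ≠ 0) (z : k[X][X])
    (hz : BB B0 B1 B2 ^ 2 - 4 * C A * CC C0 C1 C2 C3 = z ^ 2) : False := by
  set f : k[X] →+* F := (aeval t0 : k[X] →ₐ[k] F).toRingHom with hf
  have hfa : ∀ p : k[X], f p = aeval t0 p := fun p => rfl
  have hfX : f X = t0 := by rw [hfa, aeval_X]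
  have h1 := congrArg (Polynomial.map f) hz
  rw [Polynomial.map_sub, Polynomial.map_pow, Polynomial.map_mul, Polynomial.map_mul,
    Polynomial.map_C, Polynomial.map_pow, Polynomial.map_ofNat] at h1
  have hB : ((BB B0 B1 B2).map f).eval t0 = 0 := by
    rw [← h0]
    simp [BB, diag2, hfa]
  have hCC : (CC C0 C1 C2 C3).map f = (X - C t0) *
      (C (f C0) + C (f C1) * X + C (f C2) * X ^ 2 + C (f C3) * X ^ 3) := by
    simp [CC, hfX]
  have hD : (C (f C0) + C (f C1) * X + C (f C2) * X ^ 2 + C (f C3) * X ^ 3 : F[X]).eval t0 ≠ 0 := by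
    have h2 : (C (f C0) + C (f C1) * X + C (f C2) * X ^ 2 + C (f C3) * X ^ 3 : F[X]).eval t0 =
        aeval t0 (diag3 C0 C1 C2 C3) := by
      simp [diag3, hfa]
    rw [h2]
    exact hC
  rw [hCC] at h1
  generalize (C (f C0) + C (f C1) * X + C (f C2) * X ^ 2 + C (f C3) * X ^ 3 : F[X]) = D at *
  generalize (BB B0 B1 B2).map f = E at *
  generalize z.map f = w at *
  have hA' : f A ≠ 0 := hA
  generalize f A = a at *
  have h2 := congrArg (Polynomial.eval t0) h1
  simp only [Polynomial.eval_sub, Polynomial.eval_pow, hB, Polynomial.eval_mul,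
    Polynomial.eval_X, Polynomial.eval_C, sub_self, zero_mul, mul_zero, ne_eq, OfNat.ofNat_ne_zero,
    not_false_eq_true, zero_pow] at h2
  have hw : w.eval t0 = 0 := by
    have h3 : w.eval t0 ^ 2 = 0 := h2.symm
    exact pow_eq_zero_iff (two_ne_zero) |>.1 h3
  have h3 := congrArg (fun p => (Polynomial.derivative p).eval t0) h1
  simp only [Polynomial.derivative_sub, Polynomial.derivative_mul, Polynomial.derivative_pow,
    Polynomial.derivative_C, Polynomial.derivative_X, Polynomial.eval_sub, Polynomial.eval_mul,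
    Polynomial.eval_add, Polynomial.eval_pow, Polynomial.eval_C, Polynomial.eval_X,
    Polynomial.eval_one, Polynomial.eval_zero, hB, hw, Polynomial.derivative_ofNat,
    Polynomial.eval_ofNat, sub_self, sub_zero] at h3
  have h4 : 4 * a * D.eval t0 = 0 := by
    have h5 := h3
    ring_nf at h5
    linear_combination -h5
  have h5 : (4 : F) ≠ 0 := by norm_num
  exact mul_ne_zero (mul_ne_zero h5 hA') hD h4

/-- A polynomial which vanishes at the points of the quotient surface with nonsquare last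
coordinate is divisible by the equation, up to a power of `A`. -/
theorem core {k : Type*} [Field k] [NumberField k] {F : Type*} [Field F] [CharZero F] [Algebra k F]
    (A B0 B1 B2 C0 C1 C2 C3 : k[X]) (t0 : F)
    (h0 : aeval t0 (diag2 B0 B1 B2) = 0) (h1 : aeval t0 (derivative (diag2 B0 B1 B2)) ≠ 0)
    (hA : aeval t0 A ≠ 0) (hC : aeval t0 (diag3 C0 C1 C2 C3) ≠ 0) (G : k[X][X][X])
    (hG : ∀ x t u : k, EqU A B0 B1 B2 C0 C1 C2 C3 x t u → A.eval t ≠ 0 → ¬ IsSquare u →
      ev3 x t u G = 0) :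
    ∃ (m : ℕ) (Q : k[X][X][X]), C (C A ^ m) * G =
      (C (C A) * X ^ 2 + C (BB B0 B1 B2) * X + C (CC C0 C1 C2 C3)) * Q := by
  have hA0 : (C A : k[X][X]) ≠ 0 := by
    intro h
    rw [Polynomial.C_eq_zero] at h
    rw [h, map_zero] at hA
    exact hA rfl
  obtain ⟨m, Q, α, β, h⟩ := pseudo_div (C A : k[X][X]) (BB B0 B1 B2) (CC C0 C1 C2 C3) G
  have hE : ∀ x t u : k, EqU A B0 B1 B2 C0 C1 C2 C3 x t u → A.eval t ≠ 0 → ¬ IsSquare u →
      ev2 x t α + ev2 x t β * u = 0 ∧
      A.eval t * u ^ 2 + ev2 x t (BB B0 B1 B2) * u + ev2 x t (CC C0 C1 C2 C3) = 0 := by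
    intro x t u hu hAt hsq
    have h2 := congrArg (ev3 x t u) h
    simp only [map_mul, map_add, map_pow, ev3_C, ev3_X, ev2_C, hG x t u hu hAt hsq,
      mul_zero] at h2
    have h3 : A.eval t * u ^ 2 + ev2 x t (BB B0 B1 B2) * u + ev2 x t (CC C0 C1 C2 C3) = 0 := by
      rw [ev2_BB, ev2_CC]
      simp only [Polynomial.coe_aeval_eq_eval]
      exact hu
    refine ⟨?_, h3⟩
    simp only [Polynomial.coe_aeval_eq_eval] at h2
    rw [h3, zero_mul, zero_add] at h2
    exact h2.symm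
  -- the norm vanishes
  have hn : C A * α ^ 2 - BB B0 B1 B2 * α * β + CC C0 C1 C2 C3 * β ^ 2 = 0 := by
    apply zero_of_many
    intro N
    obtain ⟨T, hT, hz⟩ := many A B0 B1 B2 C0 C1 C2 C3 t0 h0 h1 hA hC N
    refine ⟨T, hT, fun z => ?_⟩
    obtain ⟨hAz, x, u, hxu, hinj⟩ := hz z
    refine ⟨x, fun i hi1 hi2 => ?_, hinj⟩
    obtain ⟨h2, h3⟩ := hE (x i) (T z) (u i) (hxu i hi1 hi2).1 hAz (hxu i hi1 hi2).2
    simp only [map_add, map_sub, map_mul, map_pow, ev2_C, Polynomial.coe_aeval_eq_eval]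
    linear_combination (A.eval (T z) * (ev2 (x i) (T z) α - ev2 (x i) (T z) β * u i) -
      ev2 (x i) (T z) (BB B0 B1 B2) * ev2 (x i) (T z) β) * h2 +
      ev2 (x i) (T z) β ^ 2 * h3
  have hsq : (2 * C A * α - BB B0 B1 B2 * β) ^ 2 =
      (BB B0 B1 B2 ^ 2 - 4 * C A * CC C0 C1 C2 C3) * β ^ 2 := by
    linear_combination 4 * C A * hn
  have hβ : β = 0 := by
    by_contra hβ
    have h2 : β ^ 2 ∣ (2 * C A * α - BB B0 B1 B2 * β) ^ 2 := ⟨_, hsq.trans (mul_comm _ _)⟩
    rw [IsIntegrallyClosed.pow_dvd_pow_iff two_ne_zero] at h2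
    obtain ⟨z, hz⟩ := h2
    refine not_square A B0 B1 B2 C0 C1 C2 C3 t0 h0 hA hC z ?_
    rw [hz] at hsq
    have h3 : β ^ 2 * (BB B0 B1 B2 ^ 2 - 4 * C A * CC C0 C1 C2 C3) = β ^ 2 * z ^ 2 := by
      linear_combination -hsq
    exact mul_left_cancel₀ (pow_ne_zero 2 hβ) h3
  have hα : α = 0 := by
    rw [hβ] at hsq
    have h2 : 2 * C A * α = 0 := by
      have h3 : (2 * C A * α) ^ 2 = 0 := by
        linear_combination hsq
      exact pow_eq_zero_iff two_ne_zero |>.1 h3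
    exact (mul_eq_zero.1 h2).resolve_left (mul_ne_zero two_ne_zero hA0)
  refine ⟨m, Q, ?_⟩
  rw [h, hα, hβ]
  simp

/-- A polynomial which vanishes at the quadratic points of the surface vanishes on the surface
outside of `A = 0`. -/
theorem vanish {k : Type*} [Field k] [NumberField k] {F : Type*} [Field F] [CharZero F]
    [Algebra k F] [IsAlgClosed F]
    (A B0 B1 B2 C0 C1 C2 C3 : k[X]) (t0 : F)
    (h0 : aeval t0 (diag2 B0 B1 B2) = 0) (h1 : aeval t0 (derivative (diag2 B0 B1 B2)) ≠ 0)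
    (hA : aeval t0 A ≠ 0) (hC : aeval t0 (diag3 C0 C1 C2 C3) ≠ 0) (H : k[X][X][X])
    (hH : ∀ x t u : k, EqU A B0 B1 B2 C0 C1 C2 C3 x t u → A.eval t ≠ 0 → ¬ IsSquare u →
      ∀ y : F, y ^ 2 = algebraMap k F u → ev3 (algebraMap k F x) (algebraMap k F t) y H = 0)
    (x t y : F) (hE : aeval t A * y ^ 4 + (aeval t B0 + aeval t B1 * x + aeval t B2 * x ^ 2) *
      y ^ 2 + (x - t) * (aeval t C0 + aeval t C1 * x + aeval t C2 * x ^ 2 +
        aeval t C3 * x ^ 3) = 0) (hAt : aeval t A ≠ 0) : ev3 x t y H = 0 := by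
  obtain ⟨H0, H1, hH01⟩ := even_odd H
  have hev : ∀ x t y : F, ev3 x t y H = ev3 x t (y ^ 2) H0 + y * ev3 x t (y ^ 2) H1 := by
    intro x t y
    rw [hH01, map_add, map_mul, ev3_comp, ev3_comp, map_pow, ev3_X]
  have key : ∀ x t u : k, EqU A B0 B1 B2 C0 C1 C2 C3 x t u → A.eval t ≠ 0 → ¬ IsSquare u →
      ev3 x t u H0 = 0 ∧ ev3 x t u H1 = 0 := by
    intro x t u hu hAt hsq
    obtain ⟨y, hy⟩ := IsAlgClosed.exists_pow_nat_eq (algebraMap k F u) (n := 2) two_pos
    have h2 := hH x t u hu hAt hsq y hy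
    rw [hev, hy, ev3_algebraMap, ev3_algebraMap] at h2
    have h3 : ev3 x t u H1 = 0 := by
      by_contra hne
      apply hsq
      refine ⟨-(ev3 x t u H0 / ev3 x t u H1), ?_⟩
      apply (algebraMap k F).injective
      have hne' : algebraMap k F (ev3 x t u H1) ≠ 0 := by
        rw [_root_.map_ne_zero]
        exact hne
      have h4 : y = algebraMap k F (-(ev3 x t u H0 / ev3 x t u H1)) := by
        rw [map_neg, map_div₀]
        field_simp
        linear_combination h2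
      rw [map_mul, ← h4, ← hy, sq]
    refine ⟨?_, h3⟩
    rw [h3, map_zero, mul_zero, add_zero] at h2
    exact (map_eq_zero (algebraMap k F)).1 h2
  have hfin : ∀ G : k[X][X][X], (∀ x t u : k, EqU A B0 B1 B2 C0 C1 C2 C3 x t u →
      A.eval t ≠ 0 → ¬ IsSquare u → ev3 x t u G = 0) → ev3 x t (y ^ 2) G = 0 := by
    intro G hG
    obtain ⟨m, Q, h2⟩ := core A B0 B1 B2 C0 C1 C2 C3 t0 h0 h1 hA hC G hG
    have h3 := congrArg (ev3 x t (y ^ 2)) h2
    simp only [map_mul, map_add, map_pow, ev3_C, ev3_X, ev2_C, ev2_BB, ev2_CC] at h3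
    have h4 : aeval t A * (y ^ 2) ^ 2 + (aeval t B0 + aeval t B1 * x + aeval t B2 * x ^ 2) *
      y ^ 2 + (x - t) * (aeval t C0 + aeval t C1 * x + aeval t C2 * x ^ 2 +
        aeval t C3 * x ^ 3) = 0 := by
      linear_combination hE
    rw [h4, zero_mul] at h3
    exact (mul_eq_zero.1 h3).resolve_left (pow_ne_zero m hAt)
  rw [hev, hfin H0 (fun x t u h2 h3 h4 => (key x t u h2 h3 h4).1),
    hfin H1 (fun x t u h2 h3 h4 => (key x t u h2 h3 h4).2)]
  ring

end

end P12
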