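import Pool.Agent.H.MP_89f84f_ag.P12Loc
import Pool.Agent.H.MP_89f84f_ag.P12Core

/-!
# The last coordinates of infinitely many points are not squares
-/

open Polynomial Filter

namespace P12

section

variable {k : Type*} [Field k] (P : Ideal k[X]) [P.IsPrime]

theorem two_squares [IsIntegrallyClosed (Localization.AtPrime P)] (q υ υ' : Localization.AtPrime P)
    (hq : q ≠ 0) (a b a' b' : k[X]) (hb : b ≠ 0) (hb' : b' ≠ 0)
    (h : q * υ * algebraMap _ _ b = algebraMap _ _ a)
    (h' : q * υ' * algebraMap _ _ b' = algebraMap _ _ a')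
    (hs : IsSquare (a * b)) (hs' : IsSquare (a' * b')) : IsSquare (υ * υ') := by
  have hinj : Function.Injective (algebraMap k[X] (Localization.AtPrime P)) :=
    IsLocalization.injective _ P.primeCompl_le_nonZeroDivisors
  obtain ⟨g, hg⟩ := hs
  obtain ⟨g', hg'⟩ := hs'
  set β := algebraMap k[X] (Localization.AtPrime P) b with hβ
  set β' := algebraMap k[X] (Localization.AtPrime P) b' with hβ'
  have hβ0 : β ≠ 0 := by
    intro h0
    apply hb
    apply hinj
    rw [← hβ, h0, map_zero]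
  have hβ0' : β' ≠ 0 := by
    intro h0
    apply hb'
    apply hinj
    rw [← hβ', h0, map_zero]
  have e1 : q * υ * β ^ 2 = algebraMap k[X] (Localization.AtPrime P) g ^ 2 := by
    have h1 := congrArg (algebraMap k[X] (Localization.AtPrime P)) hg
    rw [map_mul, map_mul, ← h] at h1
    linear_combination h1
  have e2 : q * υ' * β' ^ 2 = algebraMap k[X] (Localization.AtPrime P) g' ^ 2 := by
    have h1 := congrArg (algebraMap k[X] (Localization.AtPrime P)) hg'
    rw [map_mul, map_mul, ← h'] at h1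
    linear_combination h1
  generalize algebraMap k[X] (Localization.AtPrime P) g = γ at e1
  generalize algebraMap k[X] (Localization.AtPrime P) g' = γ' at e2
  have e3 : (q * β * β') ^ 2 * (υ * υ') = (γ * γ') ^ 2 := by
    rw [mul_pow γ γ', ← e1, ← e2]
    ring
  have hd : (q * β * β') ^ 2 ∣ (γ * γ') ^ 2 := ⟨_, e3.symm⟩
  rw [IsIntegrallyClosed.pow_dvd_pow_iff two_ne_zero] at hd
  obtain ⟨s, hs⟩ := hd
  refine ⟨s, ?_⟩
  have h0 : (q * β * β') ^ 2 ≠ 0 := pow_ne_zero 2 (mul_ne_zero (mul_ne_zero hq hβ0) hβ0')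
  apply mul_left_cancel₀ h0
  rw [e3, hs]
  ring

end

/-- There are infinitely many indices for which the last coordinate is not a square. -/
theorem infinite_not_square {k : Type*} [Field k] [NumberField k] (P : Ideal k[X]) [P.IsMaximal]
    [IsIntegrallyClosed (Localization.AtPrime P)] (q : Localization.AtPrime P) (hq : q ≠ 0)
    (υ : ℕ → Localization.AtPrime P) (hυ : ∀ n, 1 ≤ n →
      IsLocalRing.residue (Localization.AtPrime P) (υ n) =
        -(n : IsLocalRing.ResidueField (Localization.AtPrime P)))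
    (a b : ℕ → k[X]) (hb : ∀ n, 1 ≤ n → b n ≠ 0)
    (hab : ∀ n, 1 ≤ n → q * υ n * algebraMap _ _ (b n) = algebraMap _ _ (a n)) :
    {n : ℕ | 1 ≤ n ∧ ¬ IsSquare (a n * b n)}.Infinite := by
  rw [Set.infinite_iff_exists_gt]
  intro N
  by_contra hcon
  push Not at hcon
  obtain ⟨p, hp, hns⟩ := exists_prime_not_square_residue P
  have hsq : ∀ n, N < n → IsSquare (a n * b n) := by
    intro n hn
    by_contra h
    exact absurd hn (not_lt.2 (hcon n ⟨by omega, h⟩))
  have h1 : N < N + 1 := Nat.lt_succ_self N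
  have h2 : N < (N + 1) * p := by
    have := hp.two_le
    nlinarith
  obtain ⟨s, hs⟩ := two_squares P q (υ (N + 1)) (υ ((N + 1) * p)) hq (a (N + 1)) (b (N + 1))
    (a ((N + 1) * p)) (b ((N + 1) * p)) (hb _ (by omega)) (hb _ (by omega)) (hab _ (by omega))
    (hab _ (by omega)) (hsq _ h1) (hsq _ h2)
  have h3 := congrArg (IsLocalRing.residue (Localization.AtPrime P)) hs
  rw [map_mul, map_mul, hυ _ (by omega), hυ _ (by omega)] at h3
  have h4 := residue_natCast_ne_zero P (N + 1) (by omega)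
  apply hns
  refine ⟨IsLocalRing.residue (Localization.AtPrime P) s / ((N + 1 : ℕ) : _), ?_⟩
  rw [Nat.cast_mul] at h3
  generalize ((N + 1 : ℕ) : IsLocalRing.ResidueField (Localization.AtPrime P)) = m at h3 h4 ⊢
  generalize IsLocalRing.residue (Localization.AtPrime P) s = r at h3 ⊢
  field_simp
  linear_combination h3

/-- The values of a polynomial in two variables at a point over the local ring. -/
theorem evGerm_eval₂ {k : Type*} [Field k] (P : Ideal k[X]) [P.IsPrime]
    (x : Localization.AtPrime P) (xh : k → k) (hx : evGerm P x = (xh : Germ (cofinite : Filter k) k))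
    (n : k[X][X]) : evGerm P (n.eval₂ (algebraMap k[X] (Localization.AtPrime P)) x) =
      ((fun t => ev2 (xh t) t n : k → k) : Germ (cofinite : Filter k) k) := by
  have h : (evGerm P).comp (eval₂RingHom (algebraMap k[X] (Localization.AtPrime P)) x) =
      (Germ.coeRingHom (cofinite : Filter k)).comp (RingHom.pi (fun t => ev2 (xh t) t)) := by
    refine Polynomial.ringHom_ext (fun a => ?_) ?_
    · rw [RingHom.comp_apply, coe_eval₂RingHom, eval₂_C, evGerm_algebraMap, germ_apply,
        RingHom.comp_apply]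
      change _ = (↑(fun t => ev2 (xh t) t (C a) : k → k) : Germ (cofinite : Filter k) k)
      congr 1
      funext t
      rw [ev2_C, Polynomial.coe_aeval_eq_eval]
    · rw [RingHom.comp_apply, coe_eval₂RingHom, eval₂_X, hx, RingHom.comp_apply]
      change _ = (↑(fun t => ev2 (xh t) t X : k → k) : Germ (cofinite : Filter k) k)
      congr 1
      funext t
      rw [ev2_X]
  exact congrArg (fun g => g n) h

/-- The equation for the values of a point over the local ring. -/
theorem evGerm_EqR {k : Type*} [Field k] (P : Ideal k[X]) [P.IsPrime]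
    (A B0 B1 B2 C0 C1 C2 C3 : k[X])
    (x u : Localization.AtPrime P) (h : EqR A B0 B1 B2 C0 C1 C2 C3 x u) (xh uh : k → k)
    (hx : evGerm P x = (xh : Germ (cofinite : Filter k) k)) (hu : evGerm P u = (uh : Germ cofinite k)) :
    ∀ᶠ t in (cofinite : Filter k), EqU A B0 B1 B2 C0 C1 C2 C3 (xh t) t (uh t) := by
  unfold EqR at h
  have h1 := congrArg (evGerm P) h
  simp only [map_add, map_mul, map_pow, map_sub, map_zero, evGerm_algebraMap, hx, hu,
    germ_apply] at h1
  have h2 : (↑(fun t => A.eval t * uh t ^ 2 +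
      (B0.eval t + B1.eval t * xh t + B2.eval t * xh t ^ 2) * uh t +
      (xh t - (X : k[X]).eval t) * (C0.eval t + C1.eval t * xh t + C2.eval t * xh t ^ 2 +
        C3.eval t * xh t ^ 3) : k → k) : Germ (cofinite : Filter k) k) =
      (↑(fun _ => 0 : k → k) : Germ (cofinite : Filter k) k) := h1
  rw [Germ.coe_eq] at h2
  filter_upwards [h2] with t ht
  rw [Polynomial.eval_X] at ht
  exact ht

/-- A polynomial in two variables which vanishes at the points with nonsquare last coordinate. -/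
theorem zero_of_local {k : Type*} [Field k] [NumberField k] (P : Ideal k[X]) [P.IsMaximal]
    (A B0 B1 B2 C0 C1 C2 C3 : k[X]) (hd0 : diag2 B0 B1 B2 ≠ 0)
    (hd : diag2 B0 B1 B2 ∈ P) (hA : A ∉ P) (hC : diag3 C0 C1 C2 C3 ∉ P) (n : k[X][X])
    (hn : ∀ x t u : k, EqU A B0 B1 B2 C0 C1 C2 C3 x t u → A.eval t ≠ 0 → ¬ IsSquare u →
      ev2 x t n = 0) : n = 0 := by
  have hic : IsIntegrallyClosed (Localization.AtPrime P) :=
    isIntegrallyClosed_of_isLocalization _ P.primeCompl P.primeCompl_le_nonZeroDivisors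
  have hinj : Function.Injective (algebraMap k[X] (Localization.AtPrime P)) :=
    IsLocalization.injective _ P.primeCompl_le_nonZeroDivisors
  have hA0 : A ≠ 0 := by
    rintro rfl
    exact hA P.zero_mem
  obtain ⟨q, x, u, υ, hq, h1, hxinj⟩ := loc_points P A B0 B1 B2 C0 C1 C2 C3 hd0 hd hA hC
  have hsurj : ∀ n, ∃ a b : k[X], b ≠ 0 ∧
      q * υ n * algebraMap k[X] (Localization.AtPrime P) b = algebraMap _ _ a := by
    intro n
    obtain ⟨⟨a, b⟩, h⟩ := IsLocalization.surj P.primeCompl (q * υ n)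
    exact ⟨a, b, ne_zero_of_primeCompl P b, h⟩
  choose a b hb hab using hsurj
  have hinf := infinite_not_square P q hq υ (fun n hn => (h1 n hn).2.2) a b (fun n _ => hb n)
    (fun n _ => hab n)
  have hroot : ∀ i, 1 ≤ i → ¬ IsSquare (a i * b i) →
      n.eval₂ (algebraMap k[X] (Localization.AtPrime P)) (x i) = 0 := by
    intro i hi hns
    by_contra hz
    obtain ⟨hE, hu, -⟩ := h1 i hi
    obtain ⟨xh, hxh⟩ : ∃ f : k → k, evGerm P (x i) = (f : Germ (cofinite : Filter k) k) := by
      induction h : evGerm P (x i) using Germ.inductionOn with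
      | _ f => exact ⟨f, rfl⟩
    obtain ⟨uh, huh⟩ : ∃ f : k → k, evGerm P (u i) = (f : Germ (cofinite : Filter k) k) := by
      induction h : evGerm P (u i) using Germ.inductionOn with
      | _ f => exact ⟨f, rfl⟩
    have h2 := evGerm_EqR P A B0 B1 B2 C0 C1 C2 C3 (x i) (u i) hE xh uh hxh huh
    have h3 := evGerm_eventually_ne P _ hz _ (evGerm_eval₂ P (x i) xh hxh n)
    have h4 := evGerm_frequently P (q * υ i) (a i) (b i) (hb i) (hab i) hns uh
      (by rw [← hu]; exact huh)
    obtain ⟨t, ht1, ht2, ht3, ht4⟩ :=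
      (h4.and_eventually (h2.and (h3.and (eventually_ne A hA0)))).exists
    exact ht3 (hn _ _ _ ht2 ht4 ht1)
  have hmap : n.map (algebraMap k[X] (Localization.AtPrime P)) = 0 := by
    apply Polynomial.eq_zero_of_infinite_isRoot
    refine Set.Infinite.mono ?_ (hinf.image (f := x) ?_)
    · rintro _ ⟨i, ⟨hi1, hi2⟩, rfl⟩
      change Polynomial.IsRoot _ _
      rw [Polynomial.IsRoot, Polynomial.eval_map]
      exact hroot i hi1 hi2
    · intro i hi j hj hij
      exact hxinj i j hi.1 hj.1 hij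
  exact (Polynomial.map_eq_zero_iff hinj).1 hmap

/-- A polynomial which vanishes at the points of the quotient surface with nonsquare last
coordinate is divisible by the equation, up to a power of `A`. -/
theorem core' {k : Type*} [Field k] [NumberField k] {F : Type*} [Field F] [CharZero F] [Algebra k F]
    (A B0 B1 B2 C0 C1 C2 C3 : k[X]) (t0 : F) (hd0 : diag2 B0 B1 B2 ≠ 0)
    (h0 : aeval t0 (diag2 B0 B1 B2) = 0)
    (hA : aeval t0 A ≠ 0) (hC : aeval t0 (diag3 C0 C1 C2 C3) ≠ 0) (G : k[X][X][X])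
    (hG : ∀ x t u : k, EqU A B0 B1 B2 C0 C1 C2 C3 x t u → A.eval t ≠ 0 → ¬ IsSquare u →
      ev3 x t u G = 0) :
    ∃ (m : ℕ) (Q : k[X][X][X]), C (C A ^ m) * G =
      (C (C A) * X ^ 2 + C (BB B0 B1 B2) * X + C (CC C0 C1 C2 C3)) * Q := by
  have hA0 : (C A : k[X][X]) ≠ 0 := by
    intro h
    rw [Polynomial.C_eq_zero] at h
    rw [h, map_zero] at hA
    exact hA rfl
  obtain ⟨m, Q, α, β, h⟩ := pseudo_div (C A : k[X][X]) (BB B0 B1 B2) (CC C0 C1 C2 C3) G
  have hE : ∀ x t u : k, EqU A B0 B1 B2 C0 C1 C2 C3 x t u → A.eval t ≠ 0 → ¬ IsSquare u →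
      ev2 x t α + ev2 x t β * u = 0 ∧
      A.eval t * u ^ 2 + ev2 x t (BB B0 B1 B2) * u + ev2 x t (CC C0 C1 C2 C3) = 0 := by
    intro x t u hu hAt hsq
    have h2 := congrArg (ev3 x t u) h
    simp only [map_mul, map_add, map_pow, ev3_C, ev3_X, ev2_C, hG x t u hu hAt hsq,
      mul_zero] at h2
    have h3 : A.eval t * u ^ 2 + ev2 x t (BB B0 B1 B2) * u + ev2 x t (CC C0 C1 C2 C3) = 0 := by
      rw [ev2_BB, ev2_CC]
      simp only [Polynomial.coe_aeval_eq_eval]
      exact hu
    refine ⟨?_, h3⟩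
    simp only [Polynomial.coe_aeval_eq_eval] at h2
    rw [h3, zero_mul, zero_add] at h2
    exact h2.symm
  -- the norm vanishes
  have hn : C A * α ^ 2 - BB B0 B1 B2 * α * β + CC C0 C1 C2 C3 * β ^ 2 = 0 := by
    have hPp : (RingHom.ker (aeval t0 : k[X] →ₐ[k] F)).IsPrime := RingHom.ker_isPrime _
    have hP0 : RingHom.ker (aeval t0 : k[X] →ₐ[k] F) ≠ ⊥ := by
      intro hb
      apply hd0
      have h2 : diag2 B0 B1 B2 ∈ RingHom.ker (aeval t0 : k[X] →ₐ[k] F) := h0
      rw [hb] at h2
      exact h2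
    have hPm : (RingHom.ker (aeval t0 : k[X] →ₐ[k] F)).IsMaximal := hPp.isMaximal hP0
    refine zero_of_local (RingHom.ker (aeval t0 : k[X] →ₐ[k] F)) A B0 B1 B2 C0 C1 C2 C3 hd0 h0
      (fun h2 => hA h2) (fun h2 => hC h2) _ ?_
    intro x t u hxtu hAt hu
    obtain ⟨h2, h3⟩ := hE x t u hxtu hAt hu
    simp only [map_add, map_sub, map_mul, map_pow, ev2_C, Polynomial.coe_aeval_eq_eval]
    linear_combination (A.eval t * (ev2 x t α - ev2 x t β * u) -
      ev2 x t (BB B0 B1 B2) * ev2 x t β) * h2 + ev2 x t β ^ 2 * h3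
  have hsq : (2 * C A * α - BB B0 B1 B2 * β) ^ 2 =
      (BB B0 B1 B2 ^ 2 - 4 * C A * CC C0 C1 C2 C3) * β ^ 2 := by
    linear_combination 4 * C A * hn
  have hβ : β = 0 := by
    by_contra hβ
    have h2 : β ^ 2 ∣ (2 * C A * α - BB B0 B1 B2 * β) ^ 2 := ⟨_, hsq.trans (mul_comm _ _)⟩
    rw [IsIntegrallyClosed.pow_dvd_pow_iff two_ne_zero] at h2
    obtain ⟨z, hz⟩ := h2
    refine not_square A B0 B1 B2 C0 C1 C2 C3 t0 h0 hA hC z ?_
    rw [hz] at hsq
    have h3 : β ^ 2 * (BB B0 B1 B2 ^ 2 - 4 * C A * CC C0 C1 C2 C3) = β ^ 2 * z ^ 2 := by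
      linear_combination -hsq
    exact mul_left_cancel₀ (pow_ne_zero 2 hβ) h3
  have hα : α = 0 := by
    rw [hβ] at hsq
    have h2 : 2 * C A * α = 0 := by
      have h3 : (2 * C A * α) ^ 2 = 0 := by
        linear_combination hsq
      exact pow_eq_zero_iff two_ne_zero |>.1 h3
    exact (mul_eq_zero.1 h2).resolve_left (mul_ne_zero two_ne_zero hA0)
  refine ⟨m, Q, ?_⟩
  rw [h, hα, hβ]
  simp

end P12
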