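import Pool.Agent.H.MP_89f84f_ag.P12Good

/-!
# Existence of good parameters
-/

open NumberField Polynomial IsDedekindDomain WithZero

namespace P12

/-- Primes at which a given finite set of elements is integral and at which the value of `d` at
infinitely many parameters has valuation `exp (-1)`. -/
theorem exists_good {k : Type*} [Field k] [NumberField k] {F : Type*} [Field F] [Algebra k F]
    (d B : k[X]) (t0 : F) (h0 : aeval t0 d = 0) (h1 : aeval t0 (derivative d) ≠ 0)
    (hB : aeval t0 B ≠ 0) (Cs : Finset k) :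
    ∃ v : Valuation k ℤᵐ⁰, (∀ c ∈ Cs, v c ≤ 1) ∧ ∃ T : ℕ → k, Function.Injective T ∧
      ∀ z, v (T z) ≤ 1 ∧ v (d.eval (T z)) = exp (-1 : ℤ) ∧ v (B.eval (T z)) = 1 := by
  classical
  have hd0 : d ≠ 0 := by
    rintro rfl
    simp at h1
  have hB0 : B ≠ 0 := by
    rintro rfl
    simp at hB
  have halg : IsAlgebraic k t0 := ⟨d, hd0, h0⟩
  have hint : IsIntegral k t0 := halg.isIntegral
  set π := minpoly k t0 with hπ
  obtain ⟨d1, hd1⟩ : π ∣ d := minpoly.dvd k t0 h0
  have hπ0 : aeval t0 π = 0 := minpoly.aeval k t0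
  have hirr : Irreducible π := minpoly.irreducible hint
  have hcop : IsCoprime π (d1 * B * derivative π) := by
    rw [Irreducible.coprime_iff_not_dvd hirr]
    intro hdvd
    have h2 : aeval t0 (d1 * B * derivative π) = 0 := by
      obtain ⟨q, hq⟩ := hdvd
      rw [hq, map_mul, hπ0, zero_mul]
    rw [map_mul, map_mul] at h2
    apply h1
    rw [hd1, derivative_mul, map_add, map_mul, map_mul, hπ0, zero_mul, add_zero]
    rcases mul_eq_zero.1 h2 with h3 | h3
    · rcases mul_eq_zero.1 h3 with h4 | h4
      · rw [h4, mul_zero]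
      · exact absurd h4 hB
    · rw [h3, zero_mul]
  obtain ⟨U, W, hUW⟩ := hcop
  -- an integral multiple of `π`
  obtain ⟨b, hb, hP⟩ := IsLocalization.integerNormalization_spec (nonZeroDivisors (𝓞 k)) π
  set P := IsLocalization.integerNormalization (nonZeroDivisors (𝓞 k)) π with hPdef
  have hb0 : b ≠ 0 := nonZeroDivisors.ne_zero hb
  have hbk : algebraMap (𝓞 k) k b ≠ 0 := by
    rw [map_ne_zero_iff _ (FaithfulSMul.algebraMap_injective (𝓞 k) k)]
    exact hb0
  have hPC : P.map (algebraMap (𝓞 k) k) = C (algebraMap (𝓞 k) k b) * π := by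
    rw [hP]
    ext n
    rw [Polynomial.coeff_C_mul, Polynomial.coeff_smul, Algebra.smul_def]
  have hPd : 0 < P.natDegree := by
    have h2 : (P.map (algebraMap (𝓞 k) k)).natDegree = P.natDegree :=
      Polynomial.natDegree_map_eq_of_injective (FaithfulSMul.algebraMap_injective (𝓞 k) k) P
    rw [← h2, hPC, Polynomial.natDegree_C_mul hbk]
    exact minpoly.natDegree_pos hint
  -- the finite set of elements and the bad primes
  let E : Finset k := Cs ∪ π.support.image π.coeff ∪ d1.support.image d1.coeff ∪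
    B.support.image B.coeff ∪ U.support.image U.coeff ∪ W.support.image W.coeff ∪
    {(algebraMap (𝓞 k) k b)⁻¹}
  let S : Set (HeightOneSpectrum (𝓞 k)) := ⋃ e ∈ E, HeightOneSpectrum.Support (𝓞 k) e
  have hS : S.Finite := Set.Finite.biUnion E.finite_toSet
    (fun e _ => HeightOneSpectrum.Support.finite (𝓞 k) e)
  obtain ⟨v, hvS, t, ht⟩ := exists_prime_dvd P hPd S hS
  have hvE : ∀ e ∈ E, v.valuation k e ≤ 1 := by
    intro e he
    by_contra hcon
    apply hvS
    exact Set.mem_biUnion he (not_le.1 hcon)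
  have hcoeff : ∀ p : k[X], p.support.image p.coeff ⊆ E →
      ∀ n, v.valuation k (p.coeff n) ≤ 1 := by
    intro p hp n
    by_cases hn : p.coeff n = 0
    · rw [hn, map_zero]
      exact zero_le
    · exact hvE _ (hp (Finset.mem_image_of_mem _ (Polynomial.mem_support_iff.2 hn)))
  obtain ⟨ϖ, hϖ⟩ := v.valuation_exists_uniformizer k
  have htπ : v.valuation k (π.eval (algebraMap (𝓞 k) k t)) < 1 := by
    have h2 : P.eval t ∈ v.asIdeal := ht
    rw [← HeightOneSpectrum.valuation_lt_one_iff_mem (K := k)] at h2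
    have h3 : algebraMap (𝓞 k) k (P.eval t) =
        algebraMap (𝓞 k) k b * π.eval (algebraMap (𝓞 k) k t) := by
      rw [← Polynomial.eval_map_apply, hPC, Polynomial.eval_mul, Polynomial.eval_C]
    have h4 : π.eval (algebraMap (𝓞 k) k t) =
        (algebraMap (𝓞 k) k b)⁻¹ * algebraMap (𝓞 k) k (P.eval t) := by
      rw [h3, inv_mul_cancel_left₀ hbk]
    rw [h4, map_mul]
    exact mul_lt_one_right (hvE _ (by simp [E])) h2
  refine ⟨v.valuation k, fun c hc => hvE c (by simp [E, hc]), ?_⟩
  have h5 := local_step (v.valuation k) ϖ hϖ π d1 B U W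
    (hcoeff π (by intro x hx; simp only [E, Finset.mem_union]; tauto))
    (hcoeff d1 (by intro x hx; simp only [E, Finset.mem_union]; tauto))
    (hcoeff B (by intro x hx; simp only [E, Finset.mem_union]; tauto))
    (hcoeff U (by intro x hx; simp only [E, Finset.mem_union]; tauto))
    (hcoeff W (by intro x hx; simp only [E, Finset.mem_union]; tauto))
    hUW (algebraMap (𝓞 k) k t) (v.valuation_le_one t) htπ
  rw [← hd1] at h5
  exact h5

end P12
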