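import Pool.Agent.H.MP_89f84f_ag.P12Fin
import Pool.Agent.H.MP_89f84f_ag.P12Dich

/-!
# The surface `A(t) y ^ 4 + B(x, t) y ^ 2 + (x - t) C(x, t) = 0`, without a simple root
-/

open AlgebraicGeometry CategoryTheory CategoryTheory.Limits

noncomputable section

namespace P12

section

open Polynomial

/-- A polynomial which vanishes at the quadratic points of the surface vanishes on the surface
outside of `A = 0`. -/
theorem vanish' {k : Type*} [Field k] [NumberField k] {F : Type*} [Field F] [CharZero F]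
    [Algebra k F] [IsAlgClosed F]
    (A B0 B1 B2 C0 C1 C2 C3 : k[X]) (t0 : F)
    (hd0 : diag2 B0 B1 B2 ≠ 0) (h0 : aeval t0 (diag2 B0 B1 B2) = 0)
    (hA : aeval t0 A ≠ 0) (hC : aeval t0 (diag3 C0 C1 C2 C3) ≠ 0) (H : k[X][X][X])
    (hH : ∀ x t u : k, EqU A B0 B1 B2 C0 C1 C2 C3 x t u → A.eval t ≠ 0 → ¬ IsSquare u →
      ∀ y : F, y ^ 2 = algebraMap k F u → ev3 (algebraMap k F x) (algebraMap k F t) y H = 0)
    (x t y : F) (hE : aeval t A * y ^ 4 + (aeval t B0 + aeval t B1 * x + aeval t B2 * x ^ 2) *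
      y ^ 2 + (x - t) * (aeval t C0 + aeval t C1 * x + aeval t C2 * x ^ 2 +
        aeval t C3 * x ^ 3) = 0) (hAt : aeval t A ≠ 0) : ev3 x t y H = 0 := by
  obtain ⟨H0, H1, hH01⟩ := even_odd H
  have hev : ∀ x t y : F, ev3 x t y H = ev3 x t (y ^ 2) H0 + y * ev3 x t (y ^ 2) H1 := by
    intro x t y
    rw [hH01, map_add, map_mul, ev3_comp, ev3_comp, map_pow, ev3_X]
  have key : ∀ x t u : k, EqU A B0 B1 B2 C0 C1 C2 C3 x t u → A.eval t ≠ 0 → ¬ IsSquare u →
      ev3 x t u H0 = 0 ∧ ev3 x t u H1 = 0 := by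
    intro x t u hu hAt hsq
    obtain ⟨y, hy⟩ := IsAlgClosed.exists_pow_nat_eq (algebraMap k F u) (n := 2) two_pos
    have h2 := hH x t u hu hAt hsq y hy
    rw [hev, hy, ev3_algebraMap, ev3_algebraMap] at h2
    have h3 : ev3 x t u H1 = 0 := by
      by_contra hne
      apply hsq
      refine ⟨-(ev3 x t u H0 / ev3 x t u H1), ?_⟩
      apply (algebraMap k F).injective
      have hne' : algebraMap k F (ev3 x t u H1) ≠ 0 := by
        rw [_root_.map_ne_zero]
        exact hne
      have h4 : y = algebraMap k F (-(ev3 x t u H0 / ev3 x t u H1)) := by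
        rw [map_neg, map_div₀]
        field_simp
        linear_combination h2
      rw [map_mul, ← h4, ← hy, sq]
    refine ⟨?_, h3⟩
    rw [h3, map_zero, mul_zero, add_zero] at h2
    exact (map_eq_zero (algebraMap k F)).1 h2
  have hfin : ∀ G : k[X][X][X], (∀ x t u : k, EqU A B0 B1 B2 C0 C1 C2 C3 x t u →
      A.eval t ≠ 0 → ¬ IsSquare u → ev3 x t u G = 0) → ev3 x t (y ^ 2) G = 0 := by
    intro G hG
    obtain ⟨m, Q, h2⟩ := core' A B0 B1 B2 C0 C1 C2 C3 t0 hd0 h0 hA hC G hG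
    have h3 := congrArg (ev3 x t (y ^ 2)) h2
    simp only [map_mul, map_add, map_pow, ev3_C, ev3_X, ev2_C, ev2_BB, ev2_CC] at h3
    have h4 : aeval t A * (y ^ 2) ^ 2 + (aeval t B0 + aeval t B1 * x + aeval t B2 * x ^ 2) *
      y ^ 2 + (x - t) * (aeval t C0 + aeval t C1 * x + aeval t C2 * x ^ 2 +
        aeval t C3 * x ^ 3) = 0 := by
      linear_combination hE
    rw [h4, zero_mul] at h3
    exact (mul_eq_zero.1 h3).resolve_left (pow_ne_zero m hAt)
  rw [hev, hfin H0 (fun x t u h2 h3 h4 => (key x t u h2 h3 h4).1),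
    hfin H1 (fun x t u h2 h3 h4 => (key x t u h2 h3 h4).2)]
  ring

end

open Polynomial

theorem dense_surface' (k : Type) [Field k] [NumberField k] (F : Type) [Field F] [CharZero F]
    [Algebra k F] [IsAlgClosed F]
    (A B0 B1 B2 C0 C1 C2 C3 : Polynomial k) (t0 : F)
    (hd0 : diag2 B0 B1 B2 ≠ 0) (h0 : aeval t0 (diag2 B0 B1 B2) = 0)
    (hA : aeval t0 A ≠ 0) (hC : aeval t0 (diag3 C0 C1 C2 C3) ≠ 0)
    (f : SRing A B0 B1 B2 C0 C1 C2 C3)
    (hf : Ideal.Quotient.mk (Ideal.span {equation A B0 B1 B2 C0 C1 C2 C3})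
      (aeval (MvPolynomial.X 1) A) ∣ f)
    (S : Over (Spec (CommRingCat.of k)))
    (j : Spec (CommRingCat.of (Localization.Away f)) ⟶ S.left) [IsOpenImmersion j]
    (hj : j ≫ S.hom = Spec.map (CommRingCat.ofHom (algebraMap k (Localization.Away f))))
    (hd : Dense (Set.range j.base)) : Dense (WRes.QuadPts k S) := by
  refine dense_of_alg k (Localization.Away f) ?_ S j hj hd
  intro h hh
  set I : Ideal (MvPolynomial (Fin 3) k) := Ideal.span {equation A B0 B1 B2 C0 C1 C2 C3} with hI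
  obtain ⟨fl, hfl⟩ := Ideal.Quotient.mk_surjective f
  obtain ⟨n, s, hs⟩ := IsLocalization.Away.surj f h
  obtain ⟨sl, hsl⟩ := Ideal.Quotient.mk_surjective s
  have hfu : IsUnit (algebraMap (SRing A B0 B1 B2 C0 C1 C2 C3) (Localization.Away f) f) :=
    IsLocalization.Away.algebraMap_isUnit f
  -- the product is not nilpotent
  have hnil : ¬ IsNilpotent (s * f) := by
    rintro ⟨m, hm⟩
    apply hh
    refine ⟨m, ?_⟩
    have h2 := congrArg (algebraMap _ (Localization.Away f)) hm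
    rw [map_pow, map_mul, ← hs, map_zero, mul_pow, mul_pow] at h2
    have h3 : IsUnit ((algebraMap (SRing A B0 B1 B2 C0 C1 C2 C3) (Localization.Away f) f ^ n) ^ m *
      algebraMap (SRing A B0 B1 B2 C0 C1 C2 C3) (Localization.Away f) f ^ m) :=
      ((hfu.pow n).pow m).mul (hfu.pow m)
    rw [mul_assoc] at h2
    exact (h3.mul_left_eq_zero).1 h2
  have hrad : sl * fl ∉ I.radical := by
    rintro ⟨m, hm⟩
    apply hnil
    refine ⟨m, ?_⟩
    rw [← hsl, ← hfl, ← map_mul, ← map_pow]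
    exact Ideal.Quotient.eq_zero_iff_mem.2 hm
  have hex : ∃ P ∈ MvPolynomial.zeroLocus F I, MvPolynomial.aeval P (sl * fl) ≠ 0 := by
    by_contra hcon
    push Not at hcon
    apply hrad
    rw [← MvPolynomial.vanishingIdeal_zeroLocus_eq_radical (K := F),
      MvPolynomial.mem_vanishingIdeal_iff]
    exact hcon
  obtain ⟨P, hPI, hP⟩ := hex
  have hPv : P = ![P 0, P 1, P 2] := by
    funext i
    fin_cases i <;> rfl
  -- a quadratic point
  have hq : ∃ x t u : k, EqU A B0 B1 B2 C0 C1 C2 C3 x t u ∧ ¬ IsSquare u ∧ ∃ y : F,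
      y ^ 2 = algebraMap k F u ∧
      MvPolynomial.aeval ![algebraMap k F x, algebraMap k F t, y] (sl * fl) ≠ 0 := by
    by_contra hcon
    push Not at hcon
    apply hP
    rw [hPv, ← ev3_emb]
    refine vanish' A B0 B1 B2 C0 C1 C2 C3 t0 hd0 h0 hA hC _ ?_ _ _ _ ?_ ?_
    · intro x t u hu _ hsq y hy
      rw [ev3_emb]
      exact hcon x t u hu hsq y hy
    · rw [← aeval_equation, ← hPv]
      exact hPI _ (Ideal.subset_span rfl)
    · intro hAP
      apply hP
      obtain ⟨c, hc⟩ := hf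
      obtain ⟨cl, hcl⟩ := Ideal.Quotient.mk_surjective c
      have h2 : fl - aeval (MvPolynomial.X 1) A * cl ∈ I := by
        rw [← Ideal.Quotient.eq_zero_iff_mem, map_sub, map_mul, hfl, hcl, hc, sub_self]
      have h3 := hPI _ h2
      have h4 : MvPolynomial.aeval P (aeval (MvPolynomial.X 1) A : MvPolynomial (Fin 3) k) =
          aeval (P 1) A := by
        have h5 := Polynomial.aeval_algHom_apply
          (MvPolynomial.aeval P : MvPolynomial (Fin 3) k →ₐ[k] F) (MvPolynomial.X 1) A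
        rw [← h5, MvPolynomial.aeval_X]
      rw [map_sub, map_mul, h4, hAP, zero_mul, sub_zero] at h3
      rw [map_mul, h3, mul_zero]
  obtain ⟨x, t, u, hu, hsq, y, hy, hne⟩ := hq
  have : Fact (∀ r : k, r ^ 2 ≠ u + 0 * r) := ⟨fun r hr => hsq ⟨r, by rw [← sq, hr]; ring⟩⟩
  refine ⟨QuadraticAlgebra k u 0, inferInstance, inferInstance,
    QuadraticAlgebra.finrank_eq_two u 0, ?_⟩
  set ω : QuadraticAlgebra k u 0 := ⟨0, 1⟩ with hω
  have hω2 : ω ^ 2 = algebraMap k _ u := by
    rw [sq, hω, QuadraticAlgebra.mk_mul_mk]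
    ext
    · simp
    · simp
  let v : Fin 3 → QuadraticAlgebra k u 0 := ![algebraMap k _ x, algebraMap k _ t, ω]
  have hv0 : ∀ G ∈ I, MvPolynomial.aeval v G = 0 := by
    intro G hG
    obtain ⟨q, rfl⟩ := Ideal.mem_span_singleton'.1 hG
    rw [map_mul, aeval_equation]
    have h2 : ω ^ 4 = algebraMap k _ (u ^ 2) := by
      rw [map_pow, ← hω2]
      ring
    rw [h2, hω2]
    simp only [Polynomial.aeval_algebraMap_apply, Polynomial.coe_aeval_eq_eval]
    have h3 := congrArg (algebraMap k (QuadraticAlgebra k u 0)) hu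
    simp only [map_add, map_mul, map_pow, map_sub, map_zero] at h3 ⊢
    rw [h3, mul_zero]
  let ψ : SRing A B0 B1 B2 C0 C1 C2 C3 →ₐ[k] QuadraticAlgebra k u 0 :=
    Ideal.Quotient.liftₐ I (MvPolynomial.aeval v) hv0
  have hψ : ∀ G, ψ (Ideal.Quotient.mk I G) = MvPolynomial.aeval v G := fun G => rfl
  let ι : QuadraticAlgebra k u 0 →ₐ[k] F := QuadraticAlgebra.lift ⟨y, by
    rw [← sq, hy, Algebra.smul_def, mul_one, zero_smul, add_zero]⟩
  have hιω : ι ω = y := by
    simp [ι, hω]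
  have hιψ : ∀ G : MvPolynomial (Fin 3) k, ι (MvPolynomial.aeval v G) =
      MvPolynomial.aeval ![algebraMap k F x, algebraMap k F t, y] G := by
    intro G
    have h2 : ι.comp (MvPolynomial.aeval v : MvPolynomial (Fin 3) k →ₐ[k] _) =
        (MvPolynomial.aeval ![algebraMap k F x, algebraMap k F t, y] :
          MvPolynomial (Fin 3) k →ₐ[k] F) := by
      apply MvPolynomial.algHom_ext
      intro i
      rw [AlgHom.comp_apply, MvPolynomial.aeval_X, MvPolynomial.aeval_X]
      fin_cases i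
      · exact ι.commutes x
      · exact ι.commutes t
      · exact hιω
    exact congrArg (fun f => f G) h2
  have hsf : ψ (s * f) ≠ 0 := by
    intro h2
    apply hne
    rw [← hιψ, ← hψ, map_mul, hsl, hfl, h2, map_zero]
  rw [map_mul] at hsf
  have hψf : ψ f ≠ 0 := right_ne_zero_of_mul hsf
  have hψs : ψ s ≠ 0 := left_ne_zero_of_mul hsf
  let φ : Localization.Away f →ₐ[k] QuadraticAlgebra k u 0 :=
    IsLocalization.liftAlgHom (M := Submonoid.powers f) (f := ψ) (by
      rintro ⟨_, m, rfl⟩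
      show IsUnit (ψ (f ^ m))
      rw [map_pow]
      exact (IsUnit.mk0 _ hψf).pow m)
  have hφ : ∀ r, φ (algebraMap _ _ r) = ψ r := by
    intro r
    exact IsLocalization.lift_eq _ r
  refine ⟨φ, ?_, ?_⟩
  · intro z
    refine ⟨algebraMap _ _ (Ideal.Quotient.mk I (MvPolynomial.C z.re +
      MvPolynomial.C z.im * MvPolynomial.X 2)), ?_⟩
    rw [hφ, hψ, map_add, map_mul, MvPolynomial.aeval_C, MvPolynomial.aeval_C,
      MvPolynomial.aeval_X]
    show algebraMap k _ z.re + algebraMap k _ z.im * ω = z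
    rw [hω, ← Algebra.smul_def]
    ext
    · simp
    · simp
  · intro h2
    apply hψs
    rw [← hφ, ← hs, map_mul, h2, zero_mul]

end P12
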