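import Pool.Agent.H.MP_89f84f_ag.P12Spec

/-!
# Values of rational functions as germs
-/

open Polynomial Filter

namespace P12

section

variable (k : Type*) [Field k]

/-- The values of a polynomial, up to finitely many of them. -/
noncomputable def germ : k[X] →+* Germ (cofinite : Filter k) k :=
  (Germ.coeRingHom (cofinite : Filter k)).comp (RingHom.pi (fun t => evalRingHom t))

variable {k}

theorem germ_apply (p : k[X]) : germ k p = ((fun t => p.eval t : k → k) : Germ cofinite k) := rfl

theorem eventually_ne (p : k[X]) (hp : p ≠ 0) : ∀ᶠ t in (cofinite : Filter k), p.eval t ≠ 0 := by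
  rw [Filter.eventually_cofinite]
  simp only [not_not]
  exact Polynomial.finite_setOfPred_isRoot hp

theorem germ_isUnit (p : k[X]) (hp : p ≠ 0) : IsUnit (germ k p) := by
  refine IsUnit.of_mul_eq_one ((fun t => (p.eval t)⁻¹ : k → k) : Germ cofinite k) ?_
  rw [germ_apply, ← Germ.coe_mul, ← Germ.coe_one, Germ.coe_eq]
  filter_upwards [eventually_ne p hp] with t ht
  exact mul_inv_cancel₀ ht

variable (P : Ideal k[X]) [P.IsPrime]

theorem ne_zero_of_primeCompl (y : P.primeCompl) : (y : k[X]) ≠ 0 := by
  intro h
  apply y.2
  rw [h]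
  exact P.zero_mem

/-- The values of an element of the local ring, up to finitely many of them. -/
noncomputable def evGerm : Localization.AtPrime P →+* Germ (cofinite : Filter k) k :=
  IsLocalization.lift (M := P.primeCompl) (g := germ k)
    (fun y => germ_isUnit _ (ne_zero_of_primeCompl P y))

theorem evGerm_algebraMap (p : k[X]) :
    evGerm P (algebraMap k[X] (Localization.AtPrime P) p) = germ k p :=
  IsLocalization.lift_eq _ p

theorem evGerm_isUnit (z : Localization.AtPrime P) (hz : z ≠ 0) : IsUnit (evGerm P z) := by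
  obtain ⟨⟨a, b⟩, h⟩ := IsLocalization.surj P.primeCompl z
  have h1 := congrArg (evGerm P) h
  rw [map_mul, evGerm_algebraMap, evGerm_algebraMap] at h1
  have ha : a ≠ 0 := by
    rintro rfl
    rw [map_zero] at h
    have h2 : algebraMap k[X] (Localization.AtPrime P) b ≠ 0 := by
      intro h3
      have h4 : IsUnit (algebraMap k[X] (Localization.AtPrime P) b) :=
        IsLocalization.map_units _ b
      rw [h3] at h4
      exact not_isUnit_zero h4
    exact hz ((mul_eq_zero.1 h).resolve_right h2)
  have h2 := germ_isUnit a ha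
  dsimp only at h1
  rw [← h1] at h2
  exact isUnit_of_mul_isUnit_left h2

theorem evGerm_eventually_ne (z : Localization.AtPrime P) (hz : z ≠ 0) (f : k → k)
    (hf : evGerm P z = (f : Germ cofinite k)) : ∀ᶠ t in (cofinite : Filter k), f t ≠ 0 := by
  have h1 := evGerm_isUnit P z hz
  rw [hf] at h1
  obtain ⟨g, hg⟩ := h1.exists_right_inv
  induction g using Germ.inductionOn with
  | _ g =>
    rw [← Germ.coe_mul, ← Germ.coe_one, Germ.coe_eq] at hg
    filter_upwards [hg] with t ht h0
    have h2 : f t * g t = 1 := ht
    rw [h0, zero_mul] at h2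
    exact zero_ne_one h2

end

/-- The values of an element of the local ring which is not a square. -/
theorem evGerm_frequently {k : Type*} [Field k] [NumberField k] (P : Ideal k[X]) [P.IsPrime]
    (z : Localization.AtPrime P) (a b : k[X]) (hb : b ≠ 0)
    (h : z * algebraMap _ _ b = algebraMap _ _ a) (hab : ¬ IsSquare (a * b)) (f : k → k)
    (hf : evGerm P z = (f : Germ cofinite k)) :
    ∃ᶠ t in (cofinite : Filter k), ¬ IsSquare (f t) := by
  have h1 := congrArg (evGerm P) h
  rw [map_mul, evGerm_algebraMap, evGerm_algebraMap, hf, germ_apply, germ_apply, ← Germ.coe_mul,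
    Germ.coe_eq] at h1
  refine (spec (a * b) hab).mp ?_
  filter_upwards [h1, eventually_ne b hb] with t ht hbt hns hsq
  apply hns
  obtain ⟨r, hr⟩ := hsq
  have h2 : f t * b.eval t = a.eval t := ht
  refine ⟨r * b.eval t, ?_⟩
  rw [Polynomial.eval_mul, ← h2, hr]
  ring

end P12
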