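import Pool.Agent.H.MP_89f84f_ag.P12Prime

/-!
# Good parameters: a prime which divides the value of a polynomial exactly once
-/

open NumberField Polynomial IsDedekindDomain WithZero

namespace P12

/-- Lifting a polynomial with coefficients in a valuation subring. -/
theorem exists_lift {k : Type*} [Field k] (O : ValuationSubring k) (p : k[X])
    (hp : ∀ n, p.coeff n ∈ O) : ∃ q : O[X], q.map (algebraMap O k) = p := by
  have h1 : p ∈ Polynomial.lifts (algebraMap O k) := by
    rw [Polynomial.lifts_iff_coeff_lifts]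
    intro n
    exact ⟨⟨p.coeff n, hp n⟩, rfl⟩
  rw [Polynomial.mem_lifts] at h1
  exact h1

theorem mul_lt_one_right {a b : ℤᵐ⁰} (ha : a ≤ 1) (hb : b < 1) : a * b < 1 :=
  lt_of_le_of_lt ((mul_le_mul' ha le_rfl).trans_eq (one_mul b)) hb

theorem mul_lt_one_left {a b : ℤᵐ⁰} (ha : a < 1) (hb : b ≤ 1) : a * b < 1 := by
  rw [mul_comm]
  exact mul_lt_one_right hb ha

/-- The local step: from a parameter at which `π` vanishes modulo the prime to infinitely many
parameters at which `π` has valuation `exp (-1)`. -/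
theorem local_step {k : Type*} [Field k] [CharZero k] (v : Valuation k ℤᵐ⁰) (ϖ : k)
    (hϖ : v ϖ = exp (-1 : ℤ)) (π d1 B U W : k[X])
    (hπ : ∀ n, v (π.coeff n) ≤ 1) (hd1 : ∀ n, v (d1.coeff n) ≤ 1) (hB : ∀ n, v (B.coeff n) ≤ 1)
    (hU : ∀ n, v (U.coeff n) ≤ 1) (hW : ∀ n, v (W.coeff n) ≤ 1)
    (hUW : U * π + W * (d1 * B * derivative π) = 1) (t : k) (ht : v t ≤ 1)
    (htπ : v (π.eval t) < 1) :
    ∃ T : ℕ → k, Function.Injective T ∧ ∀ z, v (T z) ≤ 1 ∧
      v ((π * d1).eval (T z)) = exp (-1 : ℤ) ∧ v (B.eval (T z)) = 1 := by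
  set O := v.valuationSubring with hO
  have hmem : ∀ x : k, x ∈ O ↔ v x ≤ 1 := fun x => Iff.rfl
  obtain ⟨π0, hπ0⟩ := exists_lift O π (fun n => (hmem _).2 (hπ n))
  obtain ⟨d10, hd10⟩ := exists_lift O d1 (fun n => (hmem _).2 (hd1 n))
  obtain ⟨B0, hB0⟩ := exists_lift O B (fun n => (hmem _).2 (hB n))
  obtain ⟨U0, hU0⟩ := exists_lift O U (fun n => (hmem _).2 (hU n))
  obtain ⟨W0, hW0⟩ := exists_lift O W (fun n => (hmem _).2 (hW n))
  have hinj : Function.Injective (algebraMap O k) := FaithfulSMul.algebraMap_injective O k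
  have hUW0 : U0 * π0 + W0 * (d10 * B0 * derivative π0) = 1 := by
    apply Polynomial.map_injective _ hinj
    simp only [Polynomial.map_add, Polynomial.map_mul, Polynomial.map_one, hU0, hπ0, hW0, hd10,
      hB0, ← Polynomial.derivative_map]
    exact hUW
  have hval : ∀ (p0 : O[X]) (x : O), ((p0.eval x : O) : k) =
      (p0.map (algebraMap O k)).eval (x : k) := fun p0 x =>
    (Polynomial.eval_map_apply (f := algebraMap O k) (p := p0) (x := x)).symm
  have hvO : ∀ x : O, v (x : k) ≤ 1 := fun x => x.2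
  -- the units
  have key : ∀ x : O, v (π.eval (x : k)) < 1 → v (d1.eval (x : k)) = 1 ∧
      v (B.eval (x : k)) = 1 ∧ v ((derivative π).eval (x : k)) = 1 := by
    intro x hx
    have h1 := congrArg (fun p : O[X] => ((p.eval x : O) : k)) hUW0
    beta_reduce at h1
    simp only [Polynomial.eval_add, Polynomial.eval_mul, Polynomial.eval_one] at h1
    push_cast at h1
    rw [hval π0, hval d10, hval B0, hval (derivative π0), ← Polynomial.derivative_map, hπ0, hd10,
      hB0] at h1
    have h2 : v (((U0.eval x : O) : k) * π.eval (x : k)) < 1 := by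
      rw [map_mul]
      exact mul_lt_one_right (hvO _) hx
    have h3 : v (((W0.eval x : O) : k) * (d1.eval (x : k) * B.eval (x : k) *
        (derivative π).eval (x : k))) = 1 := by
      have h4 : ((W0.eval x : O) : k) * (d1.eval (x : k) * B.eval (x : k) *
        (derivative π).eval (x : k)) = 1 - ((U0.eval x : O) : k) * π.eval (x : k) := by
        linear_combination h1
      rw [h4]
      have h5 : v (((U0.eval x : O) : k) * π.eval (x : k)) < v 1 := by rw [map_one]; exact h2
      rw [Valuation.map_sub_eq_of_lt_left v h5, map_one]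
    have i1 : v (d1.eval (x : k)) ≤ 1 := by
      rw [← hd10, ← hval]
      exact hvO _
    have i2 : v (B.eval (x : k)) ≤ 1 := by
      rw [← hB0, ← hval]
      exact hvO _
    have i3 : v ((derivative π).eval (x : k)) ≤ 1 := by
      rw [← hπ0, Polynomial.derivative_map, ← hval]
      exact hvO _
    have i4 : v (((W0.eval x : O) : k)) ≤ 1 := hvO _
    rw [map_mul, map_mul, map_mul] at h3
    refine ⟨?_, ?_, ?_⟩
    · by_contra hne
      have h6 : v (d1.eval (x : k)) < 1 := lt_of_le_of_ne i1 hne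
      have h7 : v ↑(eval x W0) * (v (eval (↑x) d1) * v (eval (↑x) B) *
          v (eval (↑x) (derivative π))) < 1 := by
        refine mul_lt_one_right i4 ?_
        exact mul_lt_one_left (mul_lt_one_left h6 i2) i3
      exact absurd h3 h7.ne
    · by_contra hne
      have h6 : v (B.eval (x : k)) < 1 := lt_of_le_of_ne i2 hne
      have h7 : v ↑(eval x W0) * (v (eval (↑x) d1) * v (eval (↑x) B) *
          v (eval (↑x) (derivative π))) < 1 := by
        refine mul_lt_one_right i4 ?_
        exact mul_lt_one_left (mul_lt_one_right i1 h6) i3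
      exact absurd h3 h7.ne
    · by_contra hne
      have h6 : v ((derivative π).eval (x : k)) < 1 := lt_of_le_of_ne i3 hne
      have h7 : v ↑(eval x W0) * (v (eval (↑x) d1) * v (eval (↑x) B) *
          v (eval (↑x) (derivative π))) < 1 := by
        refine mul_lt_one_right i4 ?_
        exact mul_lt_one_right (mul_le_one' i1 i2) h6
      exact absurd h3 h7.ne
  -- Taylor expansion
  have hexp1 : (exp (-1 : ℤ) : ℤᵐ⁰) < 1 := by
    rw [← exp_zero]
    exact exp_lt_exp.2 (by norm_num)
  have hexp2 : (exp (-1 : ℤ) : ℤᵐ⁰) ^ 2 < exp (-1 : ℤ) := by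
    rw [← exp_nsmul]
    exact exp_lt_exp.2 (by norm_num)
  have hϖO : v ϖ ≤ 1 := by rw [hϖ]; exact hexp1.le
  have taylor : ∀ x y : O, ∃ r : O, π.eval ((x : k) + y) =
      π.eval (x : k) + (derivative π).eval (x : k) * y + r * (y : k) ^ 2 := by
    intro x y
    obtain ⟨r, hr⟩ := Polynomial.binomExpansion π0 x y
    refine ⟨r, ?_⟩
    have h1 := congrArg (fun z : O => (z : k)) hr
    beta_reduce at h1
    push_cast at h1
    rw [hval, hval, hval, ← Polynomial.derivative_map, hπ0] at h1
    push_cast at h1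
    exact h1
  let tO : O := ⟨t, ht⟩
  let ϖO : O := ⟨ϖ, hϖO⟩
  -- a parameter with the right valuation
  obtain ⟨x, hx⟩ : ∃ x : O, v (π.eval (x : k)) = exp (-1 : ℤ) := by
    by_cases h : v (π.eval t) = exp (-1 : ℤ)
    · exact ⟨tO, h⟩
    · refine ⟨tO + ϖO, ?_⟩
      obtain ⟨r, hr⟩ := taylor tO ϖO
      have h1 : v (π.eval t) < exp (-1 : ℤ) := by
        refine lt_of_le_of_ne ?_ h
        have h2 : v (π.eval t) < exp (0 : ℤ) := by rw [exp_zero]; exact htπ
        rcases eq_or_ne (v (π.eval t)) 0 with h0 | h0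
        · rw [h0]
          exact zero_le
        · rw [← exp_log h0] at h2 ⊢
          rw [exp_lt_exp] at h2
          rw [exp_le_exp]
          omega
      have h3 := (key tO htπ).2.2
      push_cast
      rw [hr]
      have h4 : v ((derivative π).eval (tO : k) * (ϖO : k)) = exp (-1 : ℤ) := by
        rw [map_mul, h3, one_mul]
        exact hϖ
      have h5 : v ((r : k) * (ϖO : k) ^ 2) < exp (-1 : ℤ) := by
        rw [map_mul, map_pow]
        calc v (r : k) * v (ϖO : k) ^ 2 ≤ 1 * (exp (-1 : ℤ) : ℤᵐ⁰) ^ 2 := by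
              refine mul_le_mul' (hvO r) ?_
              show v ϖ ^ 2 ≤ _
              rw [hϖ]
          _ < exp (-1 : ℤ) := by rw [one_mul]; exact hexp2
      have h6 : v (π.eval (tO : k) + (derivative π).eval (tO : k) * (ϖO : k)) = exp (-1 : ℤ) := by
        rw [Valuation.map_add_eq_of_lt_right v (by rw [h4]; exact h1), h4]
      rw [Valuation.map_add_eq_of_lt_left v (by rw [h6]; exact h5), h6]
  refine ⟨fun z => (x : k) + (ϖ ^ 2 * (z : k)), ?_, ?_⟩
  · intro a b hab
    have h1 : ϖ ^ 2 * (a : k) = ϖ ^ 2 * (b : k) := add_left_cancel hab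
    have hϖ0 : ϖ ≠ 0 := by
      rintro rfl
      rw [map_zero] at hϖ
      exact exp_ne_zero hϖ.symm
    have h2 := mul_left_cancel₀ (pow_ne_zero 2 hϖ0) h1
    exact_mod_cast h2
  · intro z
    let zO : O := ϖO ^ 2 * (z : O)
    have hz : ((zO : O) : k) = ϖ ^ 2 * (z : k) := by
      show ((ϖO ^ 2 * (z : O) : O) : k) = _
      push_cast
      rfl
    have hzv : v (zO : k) ≤ (exp (-1 : ℤ) : ℤᵐ⁰) ^ 2 := by
      rw [hz, map_mul, map_pow, hϖ]
      calc (exp (-1 : ℤ) : ℤᵐ⁰) ^ 2 * v (z : k) ≤ (exp (-1 : ℤ) : ℤᵐ⁰) ^ 2 * 1 := by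
            refine mul_le_mul' le_rfl ?_
            have := hvO ((z : O))
            push_cast at this
            exact this
        _ = _ := mul_one _
    have h1 : v (π.eval ((x : k) + ϖ ^ 2 * (z : k))) = exp (-1 : ℤ) := by
      obtain ⟨r, hr⟩ := taylor x zO
      rw [← hz, hr]
      have h2 : v ((derivative π).eval (x : k) * (zO : k)) < exp (-1 : ℤ) := by
        rw [map_mul, (key x (by rw [hx]; exact hexp1)).2.2, one_mul]
        exact lt_of_le_of_lt hzv hexp2
      have h3 : v ((r : k) * (zO : k) ^ 2) < exp (-1 : ℤ) := by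
        rw [map_mul, map_pow]
        have h4 : v (zO : k) ^ 2 ≤ v (zO : k) := by
          rw [sq]
          calc v (zO : k) * v (zO : k) ≤ v (zO : k) * 1 := mul_le_mul' le_rfl (hvO zO)
            _ = _ := mul_one _
        calc v (r : k) * v (zO : k) ^ 2 ≤ 1 * v (zO : k) := mul_le_mul' (hvO r) h4
          _ = v (zO : k) := one_mul _
          _ < exp (-1 : ℤ) := lt_of_le_of_lt hzv hexp2
      have h5 : v (π.eval (x : k) + (derivative π).eval (x : k) * (zO : k)) = exp (-1 : ℤ) := by
        rw [Valuation.map_add_eq_of_lt_left v (by rw [hx]; exact h2), hx]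
      rw [Valuation.map_add_eq_of_lt_left v (by rw [h5]; exact h3), h5]
    have h2 : v ((x : k) + ϖ ^ 2 * (z : k)) ≤ 1 := by
      have := hvO (x + zO)
      push_cast at this
      rw [hz] at this
      exact this
    have h3 := key ⟨(x : k) + ϖ ^ 2 * (z : k), h2⟩ (by
      show v (π.eval ((x : k) + ϖ ^ 2 * (z : k))) < 1
      rw [h1]
      exact hexp1)
    refine ⟨h2, ?_, h3.2.1⟩
    rw [Polynomial.eval_mul, map_mul]
    show v (π.eval ((x : k) + ϖ ^ 2 * (z : k))) * v (d1.eval ((x : k) + ϖ ^ 2 * (z : k))) = _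
    rw [h1]
    have h4 : v (d1.eval ((x : k) + ϖ ^ 2 * (z : k))) = 1 := h3.1
    rw [h4, mul_one]

end P12
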