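import Pool.Agent.H.MP_89f84f_ag.P12Rec

/-!
# Points on a curve of genus one over a field with a valuation
-/

namespace P12

theorem exists_points {k : Type*} [Field k] (V : ValuationSubring k) (t : k)
    (q0 q1 q2 g0 g1 g2 g3 : V) (hq0 : q0 ≠ 0) (hε : IsLocalRing.residue V q0 = 0)
    (hg : IsLocalRing.residue V g0 ≠ 0) (N : ℕ)
    (hN : ∀ m : ℕ, 1 ≤ m → m ≤ 2 * N → ((m : ℕ) : IsLocalRing.ResidueField V) ≠ 0) :
    ∃ X U : ℕ → k, (∀ n, 1 ≤ n → n ≤ N →
      U n ^ 2 + ((q0 : k) + q1 * (X n - t) + q2 * (X n - t) ^ 2) * U n +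
        (X n - t) * (g0 + g1 * (X n - t) + g2 * (X n - t) ^ 2 + g3 * (X n - t) ^ 3) = 0 ∧
      ∃ w : V, IsUnit w ∧ U n = q0 * w) ∧
      ∀ m n, 1 ≤ m → m ≤ N → 1 ≤ n → n ≤ N → X m = X n → m = n := by
  have h1 := exists_point (R := V) q0 q1 q2 g0 g1 g2 g3 hε hg N
    (fun m h1 h2 => hN m h1 (by omega))
  have h2 : ∀ n : ℕ, ∃ p : V × V, 1 ≤ n → n ≤ N → Curve q0 q1 q2 g0 g1 g2 g3 p.1 p.2 ∧
      IsLocalRing.residue V p.2 = -(n : IsLocalRing.ResidueField V) ∧
      IsLocalRing.residue V p.1 * IsLocalRing.residue V g0 =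
        -((n : IsLocalRing.ResidueField V) * (n - 1)) := by
    intro n
    by_cases h : 1 ≤ n ∧ n ≤ N
    · obtain ⟨σ, υ, h3⟩ := h1 n h.1 h.2
      exact ⟨(σ, υ), fun _ _ => h3⟩
    · exact ⟨(0, 0), fun h3 h4 => absurd ⟨h3, h4⟩ h⟩
  choose p hp using h2
  refine ⟨fun n => t + (q0 : k) ^ 2 * ((p n).1 : k), fun n => (q0 : k) * ((p n).2 : k), ?_, ?_⟩
  · intro n hn1 hn2
    obtain ⟨h3, h4, -⟩ := hp n hn1 hn2
    constructor
    · unfold Curve at h3
      have h5 := congrArg (fun z : V => (z : k)) h3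
      beta_reduce at h5
      push_cast at h5
      linear_combination (q0 : k) ^ 2 * h5
    · refine ⟨(p n).2, ?_, rfl⟩
      rw [← IsLocalRing.residue_ne_zero_iff_isUnit, h4]
      exact neg_ne_zero.2 (hN n hn1 (by omega))
  · have key : ∀ m n, 1 ≤ m → m ≤ N → 1 ≤ n → n ≤ N → m < n →
        t + (q0 : k) ^ 2 * ((p m).1 : k) = t + (q0 : k) ^ 2 * ((p n).1 : k) → False := by
      intro m n hm1 hm2 hn1 hn2 hmn h
      have hq0' : (q0 : k) ≠ 0 := fun h0 => hq0 (Subtype.ext h0)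
      have h3 : ((p m).1 : k) = ((p n).1 : k) := by
        have h4 := add_left_cancel h
        exact mul_left_cancel₀ (pow_ne_zero 2 hq0') h4
      have h4 : (p m).1 = (p n).1 := Subtype.ext h3
      obtain ⟨-, -, h5⟩ := hp m hm1 hm2
      obtain ⟨-, -, h6⟩ := hp n hn1 hn2
      rw [h4, h6] at h5
      have h7 := hN (n - m) (by omega) (by omega)
      have h8 := hN (n + m - 1) (by omega) (by omega)
      have h9 : ((n - m : ℕ) : IsLocalRing.ResidueField V) *
          ((n + m - 1 : ℕ) : IsLocalRing.ResidueField V) = 0 := by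
        rw [Nat.cast_sub hmn.le, Nat.cast_sub (by omega : 1 ≤ n + m)]
        push_cast
        linear_combination -h5
      rcases mul_eq_zero.1 h9 with h10 | h10
      · exact h7 h10
      · exact h8 h10
    intro m n hm1 hm2 hn1 hn2 h
    rcases lt_trichotomy m n with h3 | h3 | h3
    · exact (key m n hm1 hm2 hn1 hn2 h3 h).elim
    · exact h3
    · exact (key n m hn1 hn2 hm1 hm2 h3 h.symm).elim

end P12
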