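import Pool.Agent.H.MP_89f84f_ag.P12Exists
import Pool.Agent.H.MP_89f84f_ag.P12Pts

/-!
# Many points with a nonsquare coordinate on infinitely many fibres
-/

open NumberField Polynomial IsDedekindDomain WithZero

namespace P12

/-- `B(x, t)` on the diagonal. -/
noncomputable def diag2 {k : Type*} [CommRing k] (B0 B1 B2 : k[X]) : k[X] :=
  B0 + B1 * X + B2 * X ^ 2

/-- `C(x, t)` on the diagonal. -/
noncomputable def diag3 {k : Type*} [CommRing k] (C0 C1 C2 C3 : k[X]) : k[X] :=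
  C0 + C1 * X + C2 * X ^ 2 + C3 * X ^ 3

/-- The equation of the quotient surface. -/
def EqU {k : Type*} [CommRing k] (A B0 B1 B2 C0 C1 C2 C3 : k[X]) (x t u : k) : Prop :=
  A.eval t * u ^ 2 + (B0.eval t + B1.eval t * x + B2.eval t * x ^ 2) * u +
    (x - t) * (C0.eval t + C1.eval t * x + C2.eval t * x ^ 2 + C3.eval t * x ^ 3) = 0

theorem eval_le_one {k : Type*} [Field k] (v : Valuation k ℤᵐ⁰) (p : k[X])
    (hp : ∀ n, v (p.coeff n) ≤ 1) (t : k) (ht : v t ≤ 1) : v (p.eval t) ≤ 1 := by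
  rw [Polynomial.eval_eq_sum_range]
  refine Valuation.map_sum_le v (fun i _ => ?_)
  rw [map_mul, map_pow]
  exact mul_le_one' (hp i) (pow_le_one' ht i)

theorem residue_ne_zero_iff {k : Type*} [Field k] (v : Valuation k ℤᵐ⁰)
    (x : v.valuationSubring) : IsLocalRing.residue v.valuationSubring x ≠ 0 ↔ v (x : k) = 1 := by
  rw [IsLocalRing.residue_ne_zero_iff_isUnit]
  exact (Valuation.valuationSubring.integers v).isUnit_iff_valuation_eq_one

theorem fibre {k : Type*} [Field k] (v : Valuation k ℤᵐ⁰) (t q0 q1 q2 g0 g1 g2 g3 : k)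
    (h0 : v q0 = exp (-1 : ℤ)) (h1 : v q1 ≤ 1) (h2 : v q2 ≤ 1) (i0 : v g0 = 1) (i1 : v g1 ≤ 1)
    (i2 : v g2 ≤ 1) (i3 : v g3 ≤ 1) (N : ℕ) (hN : ∀ m : ℕ, 1 ≤ m → m ≤ 2 * N → v (m : k) = 1) :
    ∃ X U : ℕ → k, (∀ n, 1 ≤ n → n ≤ N →
      U n ^ 2 + (q0 + q1 * (X n - t) + q2 * (X n - t) ^ 2) * U n +
        (X n - t) * (g0 + g1 * (X n - t) + g2 * (X n - t) ^ 2 + g3 * (X n - t) ^ 3) = 0 ∧
      ¬ IsSquare (U n)) ∧
      ∀ m n, 1 ≤ m → m ≤ N → 1 ≤ n → n ≤ N → X m = X n → m = n := by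
  have hexp1 : (exp (-1 : ℤ) : ℤᵐ⁰) < 1 := by
    rw [← exp_zero]
    exact exp_lt_exp.2 (by norm_num)
  have h0' : v q0 ≤ 1 := by rw [h0]; exact hexp1.le
  have i0' : v g0 ≤ 1 := i0.le
  let Q0 : v.valuationSubring := ⟨q0, h0'⟩
  let G0 : v.valuationSubring := ⟨g0, i0'⟩
  have e1 : Q0 ≠ 0 := by
    intro h
    have h3 : q0 = 0 := congrArg Subtype.val h
    rw [h3, map_zero] at h0
    exact exp_ne_zero h0.symm
  have e2 : IsLocalRing.residue v.valuationSubring Q0 = 0 := by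
    by_contra h
    have h3 := (residue_ne_zero_iff v Q0).1 h
    have h4 : v q0 = 1 := h3
    rw [h0] at h4
    exact hexp1.ne h4
  have e3 : IsLocalRing.residue v.valuationSubring G0 ≠ 0 := (residue_ne_zero_iff v G0).2 i0
  have e4 : ∀ m : ℕ, 1 ≤ m → m ≤ 2 * N →
      ((m : ℕ) : IsLocalRing.ResidueField v.valuationSubring) ≠ 0 := by
    intro m hm1 hm2
    have h3 : ((m : ℕ) : IsLocalRing.ResidueField v.valuationSubring) =
        IsLocalRing.residue v.valuationSubring (m : v.valuationSubring) := by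
      rw [map_natCast]
    rw [h3]
    refine (residue_ne_zero_iff v (m : v.valuationSubring)).2 ?_
    push_cast
    exact hN m hm1 hm2
  obtain ⟨X, U, hXU, hinj⟩ := exists_points v.valuationSubring t Q0 ⟨q1, h1⟩ ⟨q2, h2⟩ G0
    ⟨g1, i1⟩ ⟨g2, i2⟩ ⟨g3, i3⟩ e1 e2 e3 N e4
  refine ⟨X, U, fun n hn1 hn2 => ?_, hinj⟩
  obtain ⟨h3, w, hw, hUw⟩ := hXU n hn1 hn2
  refine ⟨h3, ?_⟩
  rintro ⟨r, hr⟩
  have vw : v (w : k) = 1 := (residue_ne_zero_iff v w).1
    ((IsLocalRing.residue_ne_zero_iff_isUnit w).2 hw)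
  have h4 : v (U n) = exp (-1 : ℤ) := by
    have h5 : U n = q0 * w := hUw
    rw [h5, map_mul, h0, vw, mul_one]
  rw [hr, map_mul] at h4
  have hr0 : v r ≠ 0 := by
    intro h
    rw [h, zero_mul] at h4
    exact exp_ne_zero h4.symm
  rw [← exp_log hr0, ← exp_add] at h4
  have h5 := exp_injective h4
  omega

theorem many {k : Type*} [Field k] [NumberField k] {F : Type*} [Field F] [Algebra k F]
    (A B0 B1 B2 C0 C1 C2 C3 : k[X]) (t0 : F)
    (h0 : aeval t0 (diag2 B0 B1 B2) = 0) (h1 : aeval t0 (derivative (diag2 B0 B1 B2)) ≠ 0)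
    (hA : aeval t0 A ≠ 0) (hC : aeval t0 (diag3 C0 C1 C2 C3) ≠ 0) (N : ℕ) :
    ∃ T : ℕ → k, Function.Injective T ∧ ∀ z, A.eval (T z) ≠ 0 ∧ ∃ X U : ℕ → k,
      (∀ n, 1 ≤ n → n ≤ N → EqU A B0 B1 B2 C0 C1 C2 C3 (X n) (T z) (U n) ∧ ¬ IsSquare (U n)) ∧
      ∀ m n, 1 ≤ m → m ≤ N → 1 ≤ n → n ≤ N → X m = X n → m = n := by
  classical
  have hAC : aeval t0 (A * diag3 C0 C1 C2 C3) ≠ 0 := by
    rw [map_mul]
    exact mul_ne_zero hA hC
  let im : k[X] → Finset k := fun p => p.support.image p.coeff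
  let Cs : Finset k := im A ∪ im B0 ∪ im B1 ∪ im B2 ∪ im C0 ∪ im C1 ∪ im C2 ∪ im C3 ∪
    (Finset.range (2 * N + 1)).image (fun m : ℕ => (m : k)⁻¹)
  obtain ⟨v, hv, T, hT, hTz⟩ := exists_good (diag2 B0 B1 B2) (A * diag3 C0 C1 C2 C3) t0 h0 h1 hAC
    Cs
  refine ⟨T, hT, fun z => ?_⟩
  obtain ⟨ht, hd, hB⟩ := hTz z
  generalize T z = t at ht hd hB
  have hco : ∀ p : k[X], im p ⊆ Cs → ∀ n, v (p.coeff n) ≤ 1 := by
    intro p hp n
    by_cases hn : p.coeff n = 0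
    · rw [hn, map_zero]
      exact zero_le
    · exact hv _ (hp (Finset.mem_image_of_mem _ (Polynomial.mem_support_iff.2 hn)))
  have hev : ∀ p : k[X], im p ⊆ Cs → v (p.eval t) ≤ 1 := fun p hp =>
    eval_le_one v p (hco p hp) t ht
  have vA := hev A (by intro x hx; simp only [Cs, Finset.mem_union]; tauto)
  have vB0 := hev B0 (by intro x hx; simp only [Cs, Finset.mem_union]; tauto)
  have vB1 := hev B1 (by intro x hx; simp only [Cs, Finset.mem_union]; tauto)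
  have vB2 := hev B2 (by intro x hx; simp only [Cs, Finset.mem_union]; tauto)
  have vC0 := hev C0 (by intro x hx; simp only [Cs, Finset.mem_union]; tauto)
  have vC1 := hev C1 (by intro x hx; simp only [Cs, Finset.mem_union]; tauto)
  have vC2 := hev C2 (by intro x hx; simp only [Cs, Finset.mem_union]; tauto)
  have vC3 := hev C3 (by intro x hx; simp only [Cs, Finset.mem_union]; tauto)
  have vn : ∀ n : ℕ, v (n : k) ≤ 1 := fun n =>
    (Valuation.mem_valuationSubring_iff v (n : k)).1 (natCast_mem (v.valuationSubring) n)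
  have vm : ∀ x y : k, v x ≤ 1 → v y ≤ 1 → v (x * y) ≤ 1 := fun x y hx hy => by
    rw [map_mul]
    exact mul_le_one' hx hy
  have va : ∀ x y : k, v x ≤ 1 → v y ≤ 1 → v (x + y) ≤ 1 := fun x y hx hy =>
    v.map_add_le hx hy
  have v2 : v (2 : k) ≤ 1 := by exact_mod_cast vn 2
  have v3 : v (3 : k) ≤ 1 := by exact_mod_cast vn 3
  have vt2 : v (t ^ 2) ≤ 1 := by rw [sq]; exact vm _ _ ht ht
  have vt3 : v (t ^ 3) ≤ 1 := by rw [pow_succ]; exact vm _ _ vt2 ht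
  -- the units
  have hAeval : (A * diag3 C0 C1 C2 C3).eval t = A.eval t *
      (C0.eval t + C1.eval t * t + C2.eval t * t ^ 2 + C3.eval t * t ^ 3) := by
    simp only [diag3, Polynomial.eval_mul, Polynomial.eval_add, Polynomial.eval_pow,
      Polynomial.eval_X]
  have hdeval : (diag2 B0 B1 B2).eval t = B0.eval t + B1.eval t * t + B2.eval t * t ^ 2 := by
    simp only [diag2, Polynomial.eval_mul, Polynomial.eval_add, Polynomial.eval_pow,
      Polynomial.eval_X]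
  rw [hAeval, map_mul] at hB
  rw [hdeval] at hd
  clear hAeval hdeval hTz hT h0 h1 hA hC hAC hco hev
  unfold EqU
  generalize A.eval t = a at *
  generalize B0.eval t = b0 at *
  generalize B1.eval t = b1 at *
  generalize B2.eval t = b2 at *
  generalize C0.eval t = c0 at *
  generalize C1.eval t = c1 at *
  generalize C2.eval t = c2 at *
  generalize C3.eval t = c3 at *
  have vCt : v (c0 + c1 * t + c2 * t ^ 2 + c3 * t ^ 3) ≤ 1 :=
    va _ _ (va _ _ (va _ _ vC0 (vm _ _ vC1 ht)) (vm _ _ vC2 vt2)) (vm _ _ vC3 vt3)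
  have vA1 : v a = 1 := by
    by_contra hne
    exact absurd hB (mul_lt_one_left (lt_of_le_of_ne vA hne) vCt).ne
  have vCt1 : v (c0 + c1 * t + c2 * t ^ 2 + c3 * t ^ 3) = 1 := by
    rw [vA1, one_mul] at hB
    exact hB
  have hA0 : a ≠ 0 := by
    intro h
    rw [h, map_zero] at vA1
    exact zero_ne_one vA1
  refine ⟨hA0, ?_⟩
  have vai : v (a⁻¹) = 1 := by
    rw [map_inv₀, vA1, inv_one]
  have hai : a * a⁻¹ = 1 := mul_inv_cancel₀ hA0
  have hN : ∀ m : ℕ, 1 ≤ m → m ≤ 2 * N → v (m : k) = 1 := by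
    intro m hm1 hm2
    have h3 : v ((m : k)⁻¹) ≤ 1 := by
      refine hv _ ?_
      simp only [Cs, Finset.mem_union]
      right
      exact Finset.mem_image_of_mem _ (Finset.mem_range.2 (by omega))
    have hm0 : (m : k) ≠ 0 := Nat.cast_ne_zero.2 (by omega)
    have h4 : v (m : k) * v ((m : k)⁻¹) = 1 := by
      rw [← map_mul, mul_inv_cancel₀ hm0, map_one]
    by_contra hne
    exact absurd h4 (mul_lt_one_left (lt_of_le_of_ne (vn m) hne) h3).ne
  obtain ⟨X, U, hXU, hinj⟩ := fibre v t ((b0 + b1 * t + b2 * t ^ 2) * a⁻¹)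
    ((b1 + 2 * b2 * t) * a⁻¹) (b2 * a⁻¹) ((c0 + c1 * t + c2 * t ^ 2 + c3 * t ^ 3) * a⁻¹)
    ((c1 + 2 * c2 * t + 3 * c3 * t ^ 2) * a⁻¹) ((c2 + 3 * c3 * t) * a⁻¹) (c3 * a⁻¹)
    (by rw [map_mul, hd, vai, mul_one])
    (vm _ _ (va _ _ vB1 (vm _ _ (vm _ _ v2 vB2) ht)) vai.le)
    (vm _ _ vB2 vai.le)
    (by rw [map_mul, vCt1, vai, mul_one])
    (vm _ _ (va _ _ (va _ _ vC1 (vm _ _ (vm _ _ v2 vC2) ht)) (vm _ _ (vm _ _ v3 vC3) vt2)) vai.le)
    (vm _ _ (va _ _ vC2 (vm _ _ (vm _ _ v3 vC3) ht)) vai.le)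
    (vm _ _ vC3 vai.le) N hN
  refine ⟨X, U, fun n hn1 hn2 => ⟨?_, (hXU n hn1 hn2).2⟩, hinj⟩
  have h2 := (hXU n hn1 hn2).1
  linear_combination a * h2 + (-(b0 + b1 * X n + b2 * X n ^ 2) * U n -
      (X n - t) * (c0 + c1 * X n + c2 * X n ^ 2 + c3 * X n ^ 3)) * hai

end P12
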