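import Mathlib

/-!
# The iteration on a curve of genus one near two merging points

Over a local domain `R` we consider the curve
`s (g0 + g1 s + g2 s ^ 2 + g3 s ^ 3) + (ε + q1 s + q2 s ^ 2) u + u ^ 2 = 0`
with `ε` in the maximal ideal and `g0` a unit, in the scaled coordinates `s = ε ^ 2 σ`, `u = ε υ`.
-/

namespace P12

variable {R : Type*} [CommRing R]

/-- The equation of the curve in the scaled coordinates. -/
def Curve (ε q1 q2 g0 g1 g2 g3 σ υ : R) : Prop :=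
  σ * (g0 + ε ^ 2 * σ * (g1 + g2 * (ε ^ 2 * σ) + g3 * (ε ^ 2 * σ) ^ 2)) +
    υ * (υ + 1 + ε * σ * (q1 + q2 * (ε ^ 2 * σ))) = 0

/-- The quadratic polynomial cut out by the line. -/
theorem step_root [IsDomain R] (ε q1 q2 g0 g1 g2 g3 σ υ M : R) (hυ : IsUnit υ)
    (hC : Curve ε q1 q2 g0 g1 g2 g3 σ υ)
    (hM : M * υ ^ 2 = (ε * (g1 + g2 * (ε ^ 2 * σ) + g3 * (ε ^ 2 * σ) ^ 2) -
      g0 * (q1 + q2 * (ε ^ 2 * σ))) * ε * υ -
      g0 * (g0 + ε ^ 2 * σ * (g1 + g2 * (ε ^ 2 * σ) + g3 * (ε ^ 2 * σ) ^ 2))) :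
    (M ^ 2 + q2 * M * ε ^ 3 + g3 * ε ^ 6) * σ ^ 2 +
      (ε ^ 4 * g2 - q2 * ε ^ 3 * g0 + q1 * ε * M - 2 * g0 * M) * σ +
      (ε ^ 2 * g1 - q1 * ε * g0 + M + g0 ^ 2) = 0 := by
  unfold Curve at hC
  rcases eq_or_ne σ 0 with rfl | hσ
  · have h1 : υ + 1 = 0 := by
      have h2 : υ * (υ + 1) = 0 := by linear_combination hC
      exact (mul_eq_zero.1 h2).resolve_left hυ.ne_zero
    have h2 : υ = -1 := by linear_combination h1
    rw [h2] at hM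
    linear_combination hM
  · have h1 : υ ^ 2 * (σ ^ 2 * M - (-υ - 1 - ε * σ * (q1 + q2 * (ε ^ 2 * σ))) - g0 * σ) = 0 := by
      linear_combination σ ^ 2 * hM + (υ - g0 * σ) * hC
    have h2 := (mul_eq_zero.1 h1).resolve_left (pow_ne_zero 2 hυ.ne_zero)
    have h3 : σ ^ 2 * ((M ^ 2 + q2 * M * ε ^ 3 + g3 * ε ^ 6) * σ ^ 2 +
      (ε ^ 4 * g2 - q2 * ε ^ 3 * g0 + q1 * ε * M - 2 * g0 * M) * σ +
      (ε ^ 2 * g1 - q1 * ε * g0 + M + g0 ^ 2)) = 0 := by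
      linear_combination hC + (σ * (M * σ - g0) - υ) * h2
    exact (mul_eq_zero.1 h3).resolve_left (pow_ne_zero 2 hσ)

/-- One step of the iteration. -/
theorem step_curve [IsDomain R] (ε q1 q2 g0 g1 g2 g3 σ υ M Di : R) (hυ : IsUnit υ)
    (hC : Curve ε q1 q2 g0 g1 g2 g3 σ υ)
    (hM : M * υ ^ 2 = (ε * (g1 + g2 * (ε ^ 2 * σ) + g3 * (ε ^ 2 * σ) ^ 2) -
      g0 * (q1 + q2 * (ε ^ 2 * σ))) * ε * υ -
      g0 * (g0 + ε ^ 2 * σ * (g1 + g2 * (ε ^ 2 * σ) + g3 * (ε ^ 2 * σ) ^ 2)))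
    (hD : (M ^ 2 + q2 * M * ε ^ 3 + g3 * ε ^ 6) * Di = 1) (σ' : R)
    (hσ' : σ' = -σ - (ε ^ 4 * g2 - q2 * ε ^ 3 * g0 + q1 * ε * M - 2 * g0 * M) * Di) :
    Curve ε q1 q2 g0 g1 g2 g3 σ' ((M * σ' - g0) * σ') := by
  have h1 := step_root ε q1 q2 g0 g1 g2 g3 σ υ M hυ hC hM
  have h2 : (M ^ 2 + q2 * M * ε ^ 3 + g3 * ε ^ 6) * σ' ^ 2 +
      (ε ^ 4 * g2 - q2 * ε ^ 3 * g0 + q1 * ε * M - 2 * g0 * M) * σ' +
      (ε ^ 2 * g1 - q1 * ε * g0 + M + g0 ^ 2) = 0 := by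
    rw [hσ']
    linear_combination h1 + (2 * σ * (ε ^ 4 * g2 - q2 * ε ^ 3 * g0 + q1 * ε * M - 2 * g0 * M) +
      (ε ^ 4 * g2 - q2 * ε ^ 3 * g0 + q1 * ε * M - 2 * g0 * M) ^ 2 * Di) * hD
  unfold Curve
  linear_combination σ' ^ 2 * h2

/-- The iteration over a local domain: the `n`-th point. -/
theorem exists_point [IsDomain R] [IsLocalRing R] (ε q1 q2 g0 g1 g2 g3 : R)
    (hε : IsLocalRing.residue R ε = 0) (hg : IsLocalRing.residue R g0 ≠ 0) (N : ℕ)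
    (hN : ∀ m : ℕ, 1 ≤ m → m ≤ N → ((m : ℕ) : IsLocalRing.ResidueField R) ≠ 0) :
    ∀ n : ℕ, 1 ≤ n → n ≤ N → ∃ σ υ : R, Curve ε q1 q2 g0 g1 g2 g3 σ υ ∧
      IsLocalRing.residue R υ = -(n : IsLocalRing.ResidueField R) ∧
      IsLocalRing.residue R σ * IsLocalRing.residue R g0 =
        -((n : IsLocalRing.ResidueField R) * (n - 1)) := by
  intro n hn
  induction n, hn using Nat.le_induction with
  | base =>
    intro _
    refine ⟨0, -1, ?_, ?_, ?_⟩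
    · unfold Curve
      ring
    · simp
    · simp
  | succ n hn ih =>
    intro hnN
    obtain ⟨σ, υ, hC, hυ, hσ⟩ := ih (by omega)
    have hn0 := hN n hn (by omega)
    set ρ := IsLocalRing.residue R with hρ
    have hunit : ∀ x : R, ρ x ≠ 0 → IsUnit x := fun x hx =>
      (IsLocalRing.residue_ne_zero_iff_isUnit x).1 hx
    have hυu : IsUnit υ := hunit υ (by rw [hυ]; exact neg_ne_zero.2 hn0)
    obtain ⟨υi, hυi⟩ := hυu.exists_right_inv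
    set M : R := ((ε * (g1 + g2 * (ε ^ 2 * σ) + g3 * (ε ^ 2 * σ) ^ 2) -
      g0 * (q1 + q2 * (ε ^ 2 * σ))) * ε * υ -
      g0 * (g0 + ε ^ 2 * σ * (g1 + g2 * (ε ^ 2 * σ) + g3 * (ε ^ 2 * σ) ^ 2))) * υi ^ 2 with hMdef
    have hM : M * υ ^ 2 = (ε * (g1 + g2 * (ε ^ 2 * σ) + g3 * (ε ^ 2 * σ) ^ 2) -
      g0 * (q1 + q2 * (ε ^ 2 * σ))) * ε * υ -
      g0 * (g0 + ε ^ 2 * σ * (g1 + g2 * (ε ^ 2 * σ) + g3 * (ε ^ 2 * σ) ^ 2)) := by
      rw [hMdef]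
      linear_combination ((ε * (g1 + g2 * (ε ^ 2 * σ) + g3 * (ε ^ 2 * σ) ^ 2) -
      g0 * (q1 + q2 * (ε ^ 2 * σ))) * ε * υ -
      g0 * (g0 + ε ^ 2 * σ * (g1 + g2 * (ε ^ 2 * σ) + g3 * (ε ^ 2 * σ) ^ 2))) *
        (υ * υi + 1) * hυi
    have hρM : ρ M * (n : IsLocalRing.ResidueField R) ^ 2 = -(ρ g0) ^ 2 := by
      have h1 := congrArg ρ hM
      simp only [map_mul, map_pow, map_sub, map_add, hε, hυ] at h1
      linear_combination h1
    have hρM0 : ρ M ≠ 0 := by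
      intro h0
      rw [h0, zero_mul] at hρM
      exact pow_ne_zero 2 hg (by linear_combination hρM)
    have hD : IsUnit (M ^ 2 + q2 * M * ε ^ 3 + g3 * ε ^ 6) := by
      apply hunit
      simp only [map_mul, map_pow, map_add, hε]
      simpa using hρM0
    obtain ⟨Di, hDi⟩ := hD.exists_right_inv
    have hρD : ρ M ^ 2 * ρ Di = 1 := by
      have h1 := congrArg ρ hDi
      simp only [map_mul, map_pow, map_add, hε, map_one] at h1
      linear_combination h1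
    set σ' : R := -σ - (ε ^ 4 * g2 - q2 * ε ^ 3 * g0 + q1 * ε * M - 2 * g0 * M) * Di with hσ'
    have hρσ' : ρ σ' * ρ g0 = -(((n + 1 : ℕ) : IsLocalRing.ResidueField R) *
        (((n + 1 : ℕ) : IsLocalRing.ResidueField R) - 1)) := by
      have h1 : ρ σ' = -ρ σ + 2 * ρ g0 * (ρ M * ρ Di) := by
        rw [hσ']
        simp only [map_mul, map_pow, map_add, map_sub, map_neg, hε, map_ofNat]
        ring
      rw [h1]
      have h2 : ρ M * (ρ M * ρ Di) = 1 := by linear_combination hρD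
      have h3 : (ρ g0) ^ 2 * (ρ M * ρ Di) = -(n : IsLocalRing.ResidueField R) ^ 2 := by
        linear_combination (ρ M * ρ Di) * hρM + (-(n : IsLocalRing.ResidueField R) ^ 2) * h2
      push_cast
      linear_combination -hσ + 2 * h3
    refine ⟨σ', (M * σ' - g0) * σ', step_curve ε q1 q2 g0 g1 g2 g3 σ υ M Di hυu hC hM hDi σ' hσ',
      ?_, hρσ'⟩
    have h4 : ρ ((M * σ' - g0) * σ') = (ρ M * ρ σ' - ρ g0) * ρ σ' := by
      simp only [map_mul, map_sub]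
    rw [h4]
    have h5 : (n : IsLocalRing.ResidueField R) ^ 2 * (ρ g0) ^ 2 * ((ρ M * ρ σ' - ρ g0) * ρ σ' +
        ((n + 1 : ℕ) : IsLocalRing.ResidueField R)) = 0 := by
      push_cast at hρσ' ⊢
      have h6 : ρ σ' * ρ g0 = -(((n : IsLocalRing.ResidueField R) + 1) * n) := by
        linear_combination hρσ'
      have h7 : (n : IsLocalRing.ResidueField R) ^ 2 * (ρ g0) ^ 2 *
          ((ρ M * ρ σ' - ρ g0) * ρ σ') =
          (ρ M * (n : IsLocalRing.ResidueField R) ^ 2) * (ρ σ' * ρ g0) ^ 2 -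
          (n : IsLocalRing.ResidueField R) ^ 2 * (ρ g0) ^ 2 * (ρ σ' * ρ g0) := by ring
      rw [mul_add, h7, h6, hρM]
      ring
    have h6 := (mul_eq_zero.1 h5).resolve_left (mul_ne_zero (pow_ne_zero 2 hn0)
      (pow_ne_zero 2 hg))
    linear_combination h6

end P12
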