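import Mathlib

/-!
# In a number field some prime number is not a square
-/

open Polynomial

namespace P12

theorem trace_sqrt {K : Type*} [Field K] [Algebra ℚ K] [FiniteDimensional ℚ K] (x : K) (m : ℚ)
    (hx : x ^ 2 = algebraMap ℚ K m) (hm : ¬ IsSquare m) : Algebra.trace ℚ K x = 0 := by
  have h1 : minpoly ℚ x = X ^ 2 - C m := by
    symm
    apply minpoly.eq_of_irreducible_of_monic
    · rw [X_pow_sub_C_irreducible_iff_of_prime Nat.prime_two]
      intro b hb
      exact hm ⟨b, by rw [← hb, sq]⟩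
    · simp [hx]
    · exact monic_X_pow_sub_C m two_ne_zero
  have h2 : (X ^ 2 - C m : ℚ[X]).nextCoeff = 0 := by
    have h3 : (X ^ 2 - C m : ℚ[X]).natDegree = 2 := natDegree_X_pow_sub_C
    rw [nextCoeff_of_natDegree_pos (by rw [h3]; norm_num), h3]
    simp [coeff_X_pow]
  rw [trace_eq_finrank_mul_minpoly_nextCoeff, h1, h2]
  simp

theorem not_isSquare_mul {p q : ℕ} (hp : p.Prime) (hq : q.Prime) (hpq : p ≠ q) :
    ¬ IsSquare ((p : ℚ) * q) := by
  intro h
  have h1 : IsSquare ((p * q : ℕ) : ℚ) := by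
    push_cast
    exact h
  rw [Rat.isSquare_natCast_iff] at h1
  obtain ⟨r, hr⟩ := h1
  have h2 : p ∣ r * r := ⟨q, hr.symm⟩
  have h3 : p ∣ r := by
    rcases hp.dvd_mul.1 h2 with h | h <;> exact h
  obtain ⟨s, rfl⟩ := h3
  have h4 : q = p * (s * s) := by
    have h5 : p * q = p * (p * (s * s)) := by
      rw [hr]
      ring
    exact Nat.eq_of_mul_eq_mul_left hp.pos h5
  have h5 : p ∣ q := ⟨_, h4⟩
  exact hpq ((Nat.prime_dvd_prime_iff_eq hp hq).1 h5)

theorem exists_prime_not_square (K : Type*) [Field K] [Algebra ℚ K] [FiniteDimensional ℚ K] :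
    ∃ p : ℕ, p.Prime ∧ ¬ IsSquare (p : K) := by
  by_contra hcon
  push Not at hcon
  have h1 : ∀ p : Nat.Primes, ∃ x : K, x ^ 2 = algebraMap ℚ K (p : ℕ) := by
    intro p
    obtain ⟨x, hx⟩ := hcon p p.2
    refine ⟨x, ?_⟩
    rw [sq, ← hx]
    simp
  choose x hx using h1
  have h2 : LinearIndependent ℚ x := by
    refine LinearMap.BilinForm.linearIndependent_of_iIsOrtho (B := Algebra.traceForm ℚ K) ?_ ?_
    · intro p q hpq
      show Algebra.traceForm ℚ K (x p) (x q) = 0
      rw [Algebra.traceForm_apply]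
      refine trace_sqrt _ ((p : ℕ) * (q : ℕ) : ℚ) ?_
        (not_isSquare_mul p.2 q.2 (fun h => hpq (Subtype.ext h)))
      rw [mul_pow, hx, hx, map_mul]
    · intro p
      rw [Algebra.traceForm_apply, ← sq, hx, Algebra.trace_algebraMap]
      have h3 : ((p : ℕ) : ℚ) ≠ 0 := Nat.cast_ne_zero.2 p.2.ne_zero
      have h4 : 0 < Module.finrank ℚ K := Module.finrank_pos
      rw [nsmul_eq_mul]
      exact mul_ne_zero (Nat.cast_ne_zero.2 h4.ne') h3
  have h3 : Finite Nat.Primes := h2.finite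
  exact not_finite Nat.Primes

end P12
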