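import Pool.Agent.H.MP_89f84f_ag.P12Germ
import Pool.Agent.H.MP_89f84f_ag.P12Sq
import Pool.Agent.H.MP_89f84f_ag.P12Rec
import Pool.Agent.H.MP_89f84f_ag.P12Many

/-!
# Points over a local ring of the affine line
-/

open Polynomial Filter

namespace P12

theorem fin_aux (k K : Type*) [Field k] [NumberField k] [Field K] [Algebra k K]
    [Module.Finite k K] : ∃ p : ℕ, p.Prime ∧ ¬ IsSquare (p : K) := by
  have h3 : CharZero K := charZero_of_injective_algebraMap (algebraMap k K).injective
  have h2 : Module.Finite ℚ K := Module.Finite.trans k K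
  exact exists_prime_not_square K

theorem exists_prime_not_square_residue {k : Type*} [Field k] [NumberField k] (P : Ideal k[X])
    [P.IsMaximal] :
    ∃ p : ℕ, p.Prime ∧ ¬ IsSquare (p : IsLocalRing.ResidueField (Localization.AtPrime P)) := by
  have h0 : Algebra.FiniteType k P.ResidueField :=
    Algebra.FiniteType.of_surjective (IsScalarTower.toAlgHom k k[X] P.ResidueField)
      P.algebraMap_residueField_surjective
  have h1 : Module.Finite k P.ResidueField := finite_of_finite_type_of_isJacobsonRing k _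
  exact fin_aux k P.ResidueField

section

variable {k : Type*} [Field k] [CharZero k] (P : Ideal k[X]) [P.IsPrime]

theorem residue_natCast_ne_zero (m : ℕ) (hm : 1 ≤ m) :
    ((m : ℕ) : IsLocalRing.ResidueField (Localization.AtPrime P)) ≠ 0 := by
  have h1 : IsUnit ((m : ℕ) : k[X]) := by
    have h2 : ((m : ℕ) : k[X]) = C (m : k) := by simp
    rw [h2, Polynomial.isUnit_C]
    exact (Nat.cast_ne_zero.2 (by omega)).isUnit
  have h2 := h1.map ((IsLocalRing.residue (Localization.AtPrime P)).comp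
    (algebraMap k[X] (Localization.AtPrime P)))
  rw [map_natCast] at h2
  exact h2.ne_zero

/-- The equation of the quotient surface over an algebra. -/
def EqR {k R : Type*} [CommRing k] [CommRing R] [Algebra k[X] R] (A B0 B1 B2 C0 C1 C2 C3 : k[X])
    (x u : R) : Prop :=
  algebraMap _ R A * u ^ 2 +
    (algebraMap _ R B0 + algebraMap _ R B1 * x + algebraMap _ R B2 * x ^ 2) * u +
    (x - algebraMap k[X] R X) * (algebraMap _ R C0 + algebraMap _ R C1 * x +
      algebraMap _ R C2 * x ^ 2 + algebraMap _ R C3 * x ^ 3) = 0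

theorem loc_points (A B0 B1 B2 C0 C1 C2 C3 : k[X]) (hd0 : diag2 B0 B1 B2 ≠ 0)
    (hd : diag2 B0 B1 B2 ∈ P) (hA : A ∉ P) (hC : diag3 C0 C1 C2 C3 ∉ P) :
    ∃ (q : Localization.AtPrime P) (x u υ : ℕ → Localization.AtPrime P), q ≠ 0 ∧
      (∀ n, 1 ≤ n → EqR A B0 B1 B2 C0 C1 C2 C3 (x n) (u n) ∧ u n = q * υ n ∧
        IsLocalRing.residue (Localization.AtPrime P) (υ n) =
          -(n : IsLocalRing.ResidueField (Localization.AtPrime P))) ∧
      ∀ m n, 1 ≤ m → 1 ≤ n → x m = x n → m = n := by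
  set R := Localization.AtPrime P with hR
  set ρ := IsLocalRing.residue R with hρ
  have hun : ∀ p : k[X], p ∉ P → IsUnit (algebraMap k[X] R p) := fun p hp =>
    IsLocalization.map_units R (⟨p, hp⟩ : P.primeCompl)
  have hinj : Function.Injective (algebraMap k[X] R) :=
    IsLocalization.injective R P.primeCompl_le_nonZeroDivisors
  obtain ⟨ai, hai⟩ := (hun A hA).exists_right_inv
  have hd2 : algebraMap k[X] R (diag2 B0 B1 B2) = algebraMap _ R B0 +
      algebraMap _ R B1 * algebraMap k[X] R X + algebraMap _ R B2 * algebraMap k[X] R X ^ 2 := by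
    simp only [diag2, map_add, map_mul, map_pow]
  have hd3 : algebraMap k[X] R (diag3 C0 C1 C2 C3) = algebraMap _ R C0 +
      algebraMap _ R C1 * algebraMap k[X] R X + algebraMap _ R C2 * algebraMap k[X] R X ^ 2 +
      algebraMap _ R C3 * algebraMap k[X] R X ^ 3 := by
    simp only [diag3, map_add, map_mul, map_pow]
  have hai0 : ai ≠ 0 := by
    rintro rfl
    rw [mul_zero] at hai
    exact zero_ne_one hai
  have hq0 : algebraMap k[X] R (diag2 B0 B1 B2) * ai ≠ 0 := by
    refine mul_ne_zero ?_ hai0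
    intro h
    apply hd0
    apply hinj
    rw [h, map_zero]
  have hρq : ρ (algebraMap k[X] R (diag2 B0 B1 B2) * ai) = 0 := by
    rw [map_mul]
    have h1 : ρ (algebraMap k[X] R (diag2 B0 B1 B2)) = 0 := by
      rw [IsLocalRing.residue_eq_zero_iff]
      exact (IsLocalization.AtPrime.to_map_mem_maximal_iff R P _).2 hd
    rw [h1, zero_mul]
  have hρg : ρ (algebraMap k[X] R (diag3 C0 C1 C2 C3) * ai) ≠ 0 := by
    rw [IsLocalRing.residue_ne_zero_iff_isUnit]
    exact (hun _ hC).mul (IsUnit.of_mul_eq_one _ (by rw [mul_comm]; exact hai))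
  have hex := fun n : ℕ => exists_point (algebraMap k[X] R (diag2 B0 B1 B2) * ai)
    ((algebraMap _ R B1 + 2 * algebraMap _ R B2 * algebraMap k[X] R X) * ai)
    (algebraMap _ R B2 * ai) (algebraMap k[X] R (diag3 C0 C1 C2 C3) * ai)
    ((algebraMap _ R C1 + 2 * algebraMap _ R C2 * algebraMap k[X] R X +
      3 * algebraMap _ R C3 * algebraMap k[X] R X ^ 2) * ai)
    ((algebraMap _ R C2 + 3 * algebraMap _ R C3 * algebraMap k[X] R X) * ai)
    (algebraMap _ R C3 * ai) hρq hρg n (fun m h1 _ => residue_natCast_ne_zero P m h1) n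
  have hex' : ∀ n : ℕ, ∃ p : R × R, 1 ≤ n →
      Curve (algebraMap k[X] R (diag2 B0 B1 B2) * ai)
        ((algebraMap _ R B1 + 2 * algebraMap _ R B2 * algebraMap k[X] R X) * ai)
        (algebraMap _ R B2 * ai) (algebraMap k[X] R (diag3 C0 C1 C2 C3) * ai)
        ((algebraMap _ R C1 + 2 * algebraMap _ R C2 * algebraMap k[X] R X +
          3 * algebraMap _ R C3 * algebraMap k[X] R X ^ 2) * ai)
        ((algebraMap _ R C2 + 3 * algebraMap _ R C3 * algebraMap k[X] R X) * ai)
        (algebraMap _ R C3 * ai) p.1 p.2 ∧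
      ρ p.2 = -(n : IsLocalRing.ResidueField R) ∧
      ρ p.1 * ρ (algebraMap k[X] R (diag3 C0 C1 C2 C3) * ai) =
        -((n : IsLocalRing.ResidueField R) * (n - 1)) := by
    intro n
    by_cases h : 1 ≤ n
    · obtain ⟨σ, υ, h3⟩ := hex n h le_rfl
      exact ⟨(σ, υ), fun _ => h3⟩
    · exact ⟨(0, 0), fun h3 => absurd h3 h⟩
  choose p hp using hex'
  refine ⟨algebraMap k[X] R (diag2 B0 B1 B2) * ai,
    fun n => algebraMap k[X] R X + (algebraMap k[X] R (diag2 B0 B1 B2) * ai) ^ 2 * (p n).1,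
    fun n => algebraMap k[X] R (diag2 B0 B1 B2) * ai * (p n).2, fun n => (p n).2, hq0, ?_, ?_⟩
  · intro n hn
    obtain ⟨h1, h2, -⟩ := hp n hn
    refine ⟨?_, rfl, h2⟩
    rw [hd2, hd3] at h1
    rw [hd2]
    beta_reduce
    unfold EqR
    unfold Curve at h1
    generalize algebraMap _ R A = a at hai ⊢
    generalize algebraMap _ R B0 = b0 at h1 ⊢
    generalize algebraMap _ R B1 = b1 at h1 ⊢
    generalize algebraMap _ R B2 = b2 at h1 ⊢
    generalize algebraMap _ R C0 = c0 at h1 ⊢
    generalize algebraMap _ R C1 = c1 at h1 ⊢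
    generalize algebraMap _ R C2 = c2 at h1 ⊢
    generalize algebraMap _ R C3 = c3 at h1 ⊢
    generalize algebraMap k[X] R X = t at h1 ⊢
    generalize (p n).1 = σ at h1 ⊢
    generalize (p n).2 = υ at h1 ⊢
    generalize hε : (b0 + b1 * t + b2 * t ^ 2) * ai = ε at h1 ⊢
    have h3 : (ε * υ) ^ 2 + (ε + (b1 + 2 * b2 * t) * ai * (ε ^ 2 * σ) +
        b2 * ai * (ε ^ 2 * σ) ^ 2) * (ε * υ) + (ε ^ 2 * σ) *
        ((c0 + c1 * t + c2 * t ^ 2 + c3 * t ^ 3) * ai +
          (c1 + 2 * c2 * t + 3 * c3 * t ^ 2) * ai * (ε ^ 2 * σ) +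
          (c2 + 3 * c3 * t) * ai * (ε ^ 2 * σ) ^ 2 + c3 * ai * (ε ^ 2 * σ) ^ 3) = 0 := by
      linear_combination ε ^ 2 * h1
    generalize ε ^ 2 * σ = s at h3 ⊢
    generalize ε * υ = u at h3 ⊢
    rw [← hε] at h3
    linear_combination a * h3 + (-(b0 + b1 * (t + s) + b2 * (t + s) ^ 2) * u -
      s * (c0 + c1 * (t + s) + c2 * (t + s) ^ 2 + c3 * (t + s) ^ 3)) * hai
  · have key : ∀ m n, 1 ≤ m → m < n → algebraMap k[X] R X +
        (algebraMap k[X] R (diag2 B0 B1 B2) * ai) ^ 2 * (p m).1 = algebraMap k[X] R X +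
        (algebraMap k[X] R (diag2 B0 B1 B2) * ai) ^ 2 * (p n).1 → False := by
      intro m n hm hmn h
      have h3 : (p m).1 = (p n).1 :=
        mul_left_cancel₀ (pow_ne_zero 2 hq0) (add_left_cancel h)
      obtain ⟨-, -, h5⟩ := hp m hm
      obtain ⟨-, -, h6⟩ := hp n (by omega)
      rw [h3, h6] at h5
      have h7 := residue_natCast_ne_zero P (n - m) (by omega)
      have h8 := residue_natCast_ne_zero P (n + m - 1) (by omega)
      have h9 : ((n - m : ℕ) : IsLocalRing.ResidueField R) *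
          ((n + m - 1 : ℕ) : IsLocalRing.ResidueField R) = 0 := by
        rw [Nat.cast_sub hmn.le, Nat.cast_sub (by omega : 1 ≤ n + m)]
        push_cast
        linear_combination -h5
      rcases mul_eq_zero.1 h9 with h10 | h10
      · exact h7 h10
      · exact h8 h10
    intro m n hm hn h
    rcases lt_trichotomy m n with h3 | h3 | h3
    · exact (key m n hm h3 h).elim
    · exact h3
    · exact (key n m hn h3 h.symm).elim

end

end P12
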