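import Mathlib

/-!
# Primes of a number field dividing values of a polynomial
-/

open NumberField Polynomial IsDedekindDomain

namespace P12

variable {k : Type*} [Field k] [NumberField k]

/-- A nonconstant polynomial with integral coefficients takes a value which is not a unit. -/
theorem exists_not_isUnit (f : (𝓞 k)[X]) (hf : 0 < f.natDegree) :
    ∃ j : ℕ, ¬ IsUnit (f.eval (j : 𝓞 k)) := by
  by_contra hcon
  push Not at hcon
  let g : (k →ₐ[ℚ] ℂ) → ℂ[X] := fun σ => f.map ((σ : k →+* ℂ).comp (algebraMap (𝓞 k) k))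
  have hinj : ∀ σ : k →ₐ[ℚ] ℂ, Function.Injective
      (((σ : k →+* ℂ).comp (algebraMap (𝓞 k) k))) := fun σ =>
    (σ : k →+* ℂ).injective.comp (FaithfulSMul.algebraMap_injective (𝓞 k) k)
  have hg0 : ∀ σ, g σ ≠ 0 := by
    intro σ h0
    have h1 : f = 0 := by
      rw [← Polynomial.map_eq_zero_iff (hinj σ)]
      exact h0
    rw [h1] at hf
    simp at hf
  have hgd : ∀ σ, (g σ).natDegree = f.natDegree := fun σ =>
    Polynomial.natDegree_map_eq_of_injective (hinj σ) f
  set Q : ℂ[X] := ∏ σ, g σ with hQ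
  have hQeval : ∀ j : ℕ, Q.eval (j : ℂ) ^ 2 = 1 := by
    intro j
    have h1 := hcon j
    rw [NumberField.isUnit_iff_norm] at h1
    have h2 : Q.eval (j : ℂ) = algebraMap ℚ ℂ (Algebra.norm ℚ ((f.eval (j : 𝓞 k) : 𝓞 k) : k)) := by
      rw [Algebra.norm_eq_prod_embeddings ℚ ℂ, hQ, Polynomial.eval_prod]
      refine Finset.prod_congr rfl (fun σ _ => ?_)
      have h3 : (j : ℂ) = ((σ : k →+* ℂ).comp (algebraMap (𝓞 k) k)) (j : 𝓞 k) := by
        rw [map_natCast]
      rw [h3]
      show Polynomial.eval _ (f.map _) = _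
      rw [Polynomial.eval_map_apply]
      rfl
    have h4 : (Algebra.norm ℚ ((f.eval (j : 𝓞 k) : 𝓞 k) : k)) ^ 2 = 1 := by
      have h5 := h1
      rw [RingOfIntegers.coe_norm] at h5
      rw [← sq_abs, h5, one_pow]
    rw [h2, ← map_pow, h4, map_one]
  have hQ2 : Q ^ 2 - 1 = 0 := by
    apply Polynomial.eq_zero_of_infinite_isRoot
    refine Set.Infinite.mono ?_ (Set.infinite_range_of_injective
      (Nat.cast_injective (R := ℂ)))
    rintro _ ⟨j, rfl⟩
    show Polynomial.IsRoot _ _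
    rw [Polynomial.IsRoot.def, Polynomial.eval_sub, Polynomial.eval_pow, hQeval j,
      Polynomial.eval_one, sub_self]
  have h6 : (Q ^ 2).natDegree = 0 := by
    rw [sub_eq_zero.1 hQ2]
    exact Polynomial.natDegree_one
  rw [Polynomial.natDegree_pow, hQ, Polynomial.natDegree_prod _ _ (fun σ _ => hg0 σ)] at h6
  have h7 : 0 < ∑ σ : k →ₐ[ℚ] ℂ, (g σ).natDegree := by
    have h8 : Nonempty (k →ₐ[ℚ] ℂ) := ⟨IsAlgClosed.lift⟩
    refine Finset.sum_pos (fun σ _ => ?_) Finset.univ_nonempty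
    rw [hgd σ]
    exact hf
  omega

/-- Values of a nonconstant polynomial are divisible by primes outside any finite set. -/
theorem exists_prime_dvd (P : (𝓞 k)[X]) (hP : 0 < P.natDegree)
    (S : Set (HeightOneSpectrum (𝓞 k))) (hS : S.Finite) :
    ∃ v ∉ S, ∃ t : 𝓞 k, P.eval t ∈ v.asIdeal := by
  classical
  -- reduce to `P.eval 0 ≠ 0`
  obtain ⟨a, ha⟩ : ∃ a : 𝓞 k, P.eval a ≠ 0 := by
    by_contra hcon
    push Not at hcon
    have h1 : P = 0 := Polynomial.funext (fun x => by rw [hcon x, Polynomial.eval_zero])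
    rw [h1] at hP
    simp at hP
  -- an element in all the primes of `S`
  have hm : ∃ m : 𝓞 k, m ≠ 0 ∧ ∀ v ∈ S, m ∈ v.asIdeal := by
    have h1 : ∀ v : HeightOneSpectrum (𝓞 k), ∃ x ∈ v.asIdeal, x ≠ 0 := fun v =>
      Submodule.exists_mem_ne_zero_of_ne_bot v.ne_bot
    choose x hx hx0 using h1
    refine ⟨∏ v ∈ hS.toFinset, x v, Finset.prod_ne_zero_iff.2 (fun v _ => hx0 v), fun v hv => ?_⟩
    exact Ideal.mem_of_dvd _ (Finset.dvd_prod_of_mem x (hS.mem_toFinset.2 hv)) (hx v)
  obtain ⟨m, hm0, hm⟩ := hm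
  set P' : (𝓞 k)[X] := P.comp (X + C a) with hP'
  set c : 𝓞 k := P.eval a with hc
  have hP'c : P'.coeff 0 = c := by
    rw [hP', Polynomial.coeff_zero_eq_eval_zero, Polynomial.eval_comp]
    simp [hc]
  have hP'd : P'.natDegree = P.natDegree := by
    rw [hP', Polynomial.natDegree_comp]
    simp
  set W : (𝓞 k)[X] := 1 + C m * X * (P'.divX.comp (C (c * m) * X)) with hW
  have hcW : C c * W = P'.comp (C (c * m) * X) := by
    have h1 := Polynomial.divX_mul_X_add P'
    rw [hP'c] at h1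
    rw [hW]
    nth_rewrite 2 [← h1]
    rw [Polynomial.add_comp, Polynomial.mul_comp, Polynomial.X_comp, Polynomial.C_comp, C_mul]
    ring
  have hWd : 0 < W.natDegree := by
    have h1 : (C c * W).natDegree = W.natDegree := Polynomial.natDegree_C_mul ha
    rw [← h1, hcW, Polynomial.natDegree_comp, hP'd, Polynomial.natDegree_C_mul_X _
      (mul_ne_zero ha hm0), mul_one]
    exact hP
  obtain ⟨j, hj⟩ := exists_not_isUnit W hWd
  obtain ⟨I, hI, hWI⟩ := exists_max_ideal_of_mem_nonunits hj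
  have hIbot : I ≠ ⊥ := Ring.ne_bot_of_isMaximal_of_not_isField hI
    (RingOfIntegers.not_isField k)
  refine ⟨⟨I, hI.isPrime, hIbot⟩, ?_, c * m * j + a, ?_⟩
  · intro hv
    have h1 : m ∈ I := hm _ hv
    apply hI.ne_top
    rw [Ideal.eq_top_iff_one]
    have h2 : W.eval (j : 𝓞 k) = 1 + m * ((j : 𝓞 k) *
        (P'.divX.comp (C (c * m) * X)).eval (j : 𝓞 k)) := by
      rw [hW]
      simp only [Polynomial.eval_add, Polynomial.eval_mul, Polynomial.eval_one,
        Polynomial.eval_C, Polynomial.eval_X]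
      ring
    rw [h2] at hWI
    have h3 := I.sub_mem hWI (I.mul_mem_right ((j : 𝓞 k) *
        (P'.divX.comp (C (c * m) * X)).eval (j : 𝓞 k)) h1)
    rwa [add_sub_cancel_right] at h3
  · show P.eval (c * m * j + a) ∈ I
    have h1 : P.eval (c * m * j + a) = c * W.eval (j : 𝓞 k) := by
      have h2 := congrArg (Polynomial.eval (j : 𝓞 k)) hcW
      rw [Polynomial.eval_mul, Polynomial.eval_C] at h2
      rw [h2, hP']
      simp only [Polynomial.eval_comp, Polynomial.eval_add, Polynomial.eval_mul,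
        Polynomial.eval_C, Polynomial.eval_X]
    rw [h1]
    exact I.mul_mem_left c hWI

end P12
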