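import Pool.Agent.H.MP_89f84f_ag.Fin

/-!
# From points over an algebraic closure to points of a scheme
-/

open AlgebraicGeometry CategoryTheory CategoryTheory.Limits

noncomputable section

namespace WRes

/-- The points of degree two of a `k`-scheme: those which are the image of `Spec L` for a field
extension `L` of degree two, but not of `Spec k`. -/
def QuadPts (k : Type) [Field k] (A : Over (Spec (CommRingCat.of k))) : Set A.left :=
  {x : A.left |
    (∃ (L : Type) (_ : Field L) (_ : Algebra k L),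
      Module.finrank k L = 2 ∧
      ∃ g : Spec (CommRingCat.of L) ⟶ A.left,
        g ≫ A.hom = Spec.map (CommRingCat.ofHom (algebraMap k L)) ∧
        ∃ p, g.base p = x) ∧
    ¬ ∃ s : Spec (CommRingCat.of k) ⟶ A.left, s ≫ A.hom = 𝟙 _ ∧ ∃ p, s.base p = x}

theorem dense_of_points (k F : Type) [Field k] [Field F] [Algebra k F] [IsAlgClosed F]
    (I : Ideal (MvPolynomial (Fin 4) k))
    (hI : ∀ H : MvPolynomial (Fin 4) k, (∃ P ∈ MvPolynomial.zeroLocus F I,
        MvPolynomial.aeval P H ≠ 0) →
      ∃ P ∈ MvPolynomial.zeroLocus F I,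
        Module.finrank k (IntermediateField.adjoin k (Set.range P)) = 2 ∧
        MvPolynomial.aeval P H ≠ 0)
    (A : Over (Spec (CommRingCat.of k)))
    (j : Spec (CommRingCat.of (MvPolynomial (Fin 4) k ⧸ I)) ⟶ A.left) [IsOpenImmersion j]
    (hj : j ≫ A.hom =
      Spec.map (CommRingCat.ofHom (algebraMap k (MvPolynomial (Fin 4) k ⧸ I))))
    (hd : Dense (Set.range j.base)) : Dense (QuadPts k A) := by
  rw [dense_iff_inter_open]
  intro O hO hne
  -- a basic open subset
  obtain ⟨_, hxO, ⟨y, rfl⟩⟩ := hd.inter_open_nonempty O hO hne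
  have hV : IsOpen (j.base ⁻¹' O) := hO.preimage j.continuous
  obtain ⟨_, ⟨h, rfl⟩, hyh, hhV⟩ :=
    (PrimeSpectrum.isTopologicalBasis_basic_opens
      (R := MvPolynomial (Fin 4) k ⧸ I)).exists_subset_of_mem_open (a := y) hxO hV
  obtain ⟨H, rfl⟩ := Ideal.Quotient.mk_surjective h
  -- a point over `F`
  have hH : H ∉ I.radical := by
    rintro ⟨n, hn⟩
    have h1 : Ideal.Quotient.mk I H ∉ y.asIdeal := hyh
    apply h1
    refine y.2.mem_of_pow_mem n ?_
    rw [← map_pow, Ideal.Quotient.eq_zero_iff_mem.2 hn]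
    exact y.asIdeal.zero_mem
  have hex : ∃ P ∈ MvPolynomial.zeroLocus F I, MvPolynomial.aeval P H ≠ 0 := by
    by_contra hcon
    push Not at hcon
    apply hH
    rw [← MvPolynomial.vanishingIdeal_zeroLocus_eq_radical (K := F), 
      MvPolynomial.mem_vanishingIdeal_iff]
    exact hcon
  obtain ⟨P, hPI, hP2, hPH⟩ := hI H hex
  set L := IntermediateField.adjoin k (Set.range P) with hL
  let PL : Fin 4 → L := fun i => ⟨P i, IntermediateField.subset_adjoin k _ ⟨i, rfl⟩⟩
  have hval : ∀ G : MvPolynomial (Fin 4) k,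
      ((MvPolynomial.aeval PL G : L) : F) = MvPolynomial.aeval P G := by
    intro G
    have h1 := MvPolynomial.aeval_algebraMap_apply (A := L) F PL G
    exact h1.symm
  let ψ : MvPolynomial (Fin 4) k ⧸ I →ₐ[k] L :=
    Ideal.Quotient.liftₐ I (MvPolynomial.aeval PL) (fun G hG => by
      have h1 : MvPolynomial.aeval P G = 0 := hPI G hG
      rw [← hval] at h1
      exact Subtype.ext h1)
  have hψ : ∀ G, ψ (Ideal.Quotient.mk I G) = MvPolynomial.aeval PL G := fun G => rfl
  let g : Spec (CommRingCat.of L) ⟶ A.left := Spec.map (CommRingCat.ofHom ψ.toRingHom) ≫ j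
  have hg : g ≫ A.hom = Spec.map (CommRingCat.ofHom (algebraMap k L)) := by
    show (Spec.map (CommRingCat.ofHom ψ.toRingHom) ≫ j) ≫ A.hom = _
    rw [Category.assoc, hj, ← Spec.map_comp, ← CommRingCat.ofHom_comp]
    congr 2
    exact ψ.comp_algebraMap
  let p : Spec (CommRingCat.of L) := (⊥ : PrimeSpectrum L)
  refine ⟨g.base p, ?_, ⟨L, inferInstance, inferInstance, hP2, g, hg, p, rfl⟩, ?_⟩
  · -- the point lies in `O`
    apply hhV
    show Ideal.Quotient.mk I H ∉ (PrimeSpectrum.comap ψ.toRingHom ⊥).asIdeal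
    rw [PrimeSpectrum.comap_asIdeal, Ideal.mem_comap]
    intro h0
    have h1 : ψ (Ideal.Quotient.mk I H) = 0 := h0
    rw [hψ] at h1
    apply hPH
    rw [← hval, h1]
    rfl
  · -- it is not rational
    rintro ⟨s, hs, q, hq⟩
    have hrange : Set.range s.base ⊆ Set.range j.base := by
      rintro _ ⟨q', rfl⟩
      have : q' = q := Subsingleton.elim (α := PrimeSpectrum k) q' q
      rw [this, hq]
      exact ⟨_, rfl⟩
    let s' := IsOpenImmersion.lift j s hrange
    have hs' : s' ≫ j = s := IsOpenImmersion.lift_fac j s hrange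
    obtain ⟨χ, hχ⟩ := Spec.map_surjective s'
    have h1 : CommRingCat.ofHom (algebraMap k (MvPolynomial (Fin 4) k ⧸ I)) ≫ χ = 𝟙 _ := by
      apply Spec.map_injective
      rw [Spec.map_comp, hχ, ← hj, ← Category.assoc, hs', hs, Spec.map_id]
    have h2 : ∀ c : k, χ.hom (algebraMap k (MvPolynomial (Fin 4) k ⧸ I) c) = c := by
      intro c
      have h3 := congrArg (fun f => f.hom c) h1
      exact h3
    have h3 : (Spec.map χ).base q = (Spec.map (CommRingCat.ofHom ψ.toRingHom)).base p := by
      apply j.isOpenEmbedding.injective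
      have h4 : j.base ((Spec.map χ).base q) = s.base q := by
        rw [← hs', ← hχ]
        rfl
      exact h4.trans hq
    have hq0 : q = (⊥ : PrimeSpectrum k) := Subsingleton.elim (α := PrimeSpectrum k) _ _
    have h5 : ∀ r : MvPolynomial (Fin 4) k ⧸ I, χ.hom r = 0 → ψ r = 0 := by
      intro r hr
      have h6 : r ∈ ((Spec.map χ).base q).asIdeal := by
        rw [hq0]
        show χ.hom r ∈ (⊥ : Ideal k)
        exact hr
      rw [h3] at h6
      exact h6
    have h7 : ∀ i, P i ∈ (⊥ : IntermediateField k F) := by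
      intro i
      rw [IntermediateField.mem_bot]
      refine ⟨χ.hom (Ideal.Quotient.mk I (MvPolynomial.X i)), ?_⟩
      have h8 := h5 (Ideal.Quotient.mk I (MvPolynomial.X i) - algebraMap k _
        (χ.hom (Ideal.Quotient.mk I (MvPolynomial.X i)))) (by
          rw [map_sub, h2, sub_self])
      rw [map_sub, AlgHom.commutes, hψ, MvPolynomial.aeval_X, sub_eq_zero] at h8
      have h9 := congrArg (fun z : L => (z : F)) h8
      exact h9.symm
    have h8 : L = ⊥ := by
      rw [eq_bot_iff, hL, IntermediateField.adjoin_le_iff]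
      rintro _ ⟨i, rfl⟩
      exact h7 i
    have h9 : Module.finrank k L = 1 := by
      rw [h8]
      exact IntermediateField.finrank_bot
    omega

end WRes
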