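import Pool.Agent.H.MP_89f84f_ag.P12Core
import Pool.Agent.H.MP_89f84f_ag.Sch

/-!
# Density of the quadratic points of a scheme with a dense affine open subscheme
-/

open AlgebraicGeometry CategoryTheory CategoryTheory.Limits

noncomputable section

namespace P12

theorem dense_of_alg (k : Type) [Field k] (R : Type) [CommRing R] [Algebra k R]
    (hR : ∀ h : R, ¬ IsNilpotent h → ∃ (L : Type) (_ : Field L) (_ : Algebra k L),
      Module.finrank k L = 2 ∧ ∃ φ : R →ₐ[k] L, Function.Surjective φ ∧ φ h ≠ 0)
    (A : Over (Spec (CommRingCat.of k))) (j : Spec (CommRingCat.of R) ⟶ A.left)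
    [IsOpenImmersion j]
    (hj : j ≫ A.hom = Spec.map (CommRingCat.ofHom (algebraMap k R)))
    (hd : Dense (Set.range j.base)) : Dense (WRes.QuadPts k A) := by
  rw [dense_iff_inter_open]
  intro O hO hne
  -- a basic open subset
  obtain ⟨_, hxO, ⟨y, rfl⟩⟩ := hd.inter_open_nonempty O hO hne
  have hV : IsOpen (j.base ⁻¹' O) := hO.preimage j.continuous
  obtain ⟨_, ⟨h, rfl⟩, hyh, hhV⟩ :=
    (PrimeSpectrum.isTopologicalBasis_basic_opens
      (R := R)).exists_subset_of_mem_open (a := y) hxO hV
  have hH : ¬ IsNilpotent h := by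
    rintro ⟨n, hn⟩
    have h1 : h ∉ y.asIdeal := hyh
    apply h1
    refine y.2.mem_of_pow_mem n ?_
    rw [hn]
    exact y.asIdeal.zero_mem
  obtain ⟨L, _, _, hL2, ψ, hsurj, hψh⟩ := hR h hH
  let g : Spec (CommRingCat.of L) ⟶ A.left := Spec.map (CommRingCat.ofHom ψ.toRingHom) ≫ j
  have hg : g ≫ A.hom = Spec.map (CommRingCat.ofHom (algebraMap k L)) := by
    show (Spec.map (CommRingCat.ofHom ψ.toRingHom) ≫ j) ≫ A.hom = _
    rw [Category.assoc, hj, ← Spec.map_comp, ← CommRingCat.ofHom_comp]
    congr 2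
    exact ψ.comp_algebraMap
  let p : Spec (CommRingCat.of L) := (⊥ : PrimeSpectrum L)
  refine ⟨g.base p, ?_, ⟨L, inferInstance, inferInstance, hL2, g, hg, p, rfl⟩, ?_⟩
  · -- the point lies in `O`
    apply hhV
    show h ∉ (PrimeSpectrum.comap ψ.toRingHom ⊥).asIdeal
    rw [PrimeSpectrum.comap_asIdeal, Ideal.mem_comap]
    intro h0
    exact hψh h0
  · -- it is not rational
    rintro ⟨s, hs, q, hq⟩
    have hrange : Set.range s.base ⊆ Set.range j.base := by
      rintro _ ⟨q', rfl⟩
      have : q' = q := Subsingleton.elim (α := PrimeSpectrum k) q' q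
      rw [this, hq]
      exact ⟨_, rfl⟩
    let s' := IsOpenImmersion.lift j s hrange
    have hs' : s' ≫ j = s := IsOpenImmersion.lift_fac j s hrange
    obtain ⟨χ, hχ⟩ := Spec.map_surjective s'
    have h1 : CommRingCat.ofHom (algebraMap k R) ≫ χ = 𝟙 _ := by
      apply Spec.map_injective
      rw [Spec.map_comp, hχ, ← hj, ← Category.assoc, hs', hs, Spec.map_id]
    have h2 : ∀ c : k, χ.hom (algebraMap k R c) = c := by
      intro c
      have h3 := congrArg (fun f => f.hom c) h1
      exact h3
    have h3 : (Spec.map χ).base q = (Spec.map (CommRingCat.ofHom ψ.toRingHom)).base p := by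
      apply j.isOpenEmbedding.injective
      have h4 : j.base ((Spec.map χ).base q) = s.base q := by
        rw [← hs', ← hχ]
        rfl
      exact h4.trans hq
    have hq0 : q = (⊥ : PrimeSpectrum k) := Subsingleton.elim (α := PrimeSpectrum k) _ _
    have h5 : ∀ r : R, χ.hom r = 0 → ψ r = 0 := by
      intro r hr
      have h6 : r ∈ ((Spec.map χ).base q).asIdeal := by
        rw [hq0]
        show χ.hom r ∈ (⊥ : Ideal k)
        exact hr
      rw [h3] at h6
      exact h6
    have h7 : Function.Bijective (algebraMap k L) := by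
      refine ⟨(algebraMap k L).injective, fun l => ?_⟩
      obtain ⟨r, rfl⟩ := hsurj l
      refine ⟨χ.hom r, ?_⟩
      have h8 := h5 (r - algebraMap k _ (χ.hom r)) (by rw [map_sub, h2, sub_self])
      rw [map_sub, AlgHom.commutes, sub_eq_zero] at h8
      exact h8.symm
    have h9 : Module.finrank k L = 1 := by
      have e : k ≃ₗ[k] L := LinearEquiv.ofBijective (Algebra.linearMap k L) h7
      rw [← e.finrank_eq, Module.finrank_self]
    omega

end P12
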