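import Pool.Agent.H.MP_89f84f_ag.P12Exists

/-!
# A polynomial which is not a square takes many values which are not squares
-/

open Polynomial WithZero

namespace P12

/-- Every polynomial is a constant times a square or has an irreducible factor of odd
multiplicity. -/
theorem odd_factor {k : Type*} [Field k] : ∀ (N : ℕ) (f : k[X]), f ≠ 0 → f.natDegree ≤ N →
    (∃ (c : k) (g : k[X]), f = C c * g ^ 2) ∨
    ∃ (π f1 : k[X]) (e : ℕ), Irreducible π ∧ Odd e ∧ f = π ^ e * f1 ∧ ¬ π ∣ f1 := by
  intro N
  induction N with
  | zero =>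
    intro f _ hd
    left
    refine ⟨f.coeff 0, 1, ?_⟩
    rw [one_pow, mul_one]
    exact Polynomial.eq_C_of_natDegree_le_zero hd
  | succ N ih =>
    intro f hf hd
    by_cases hu : IsUnit f
    · left
      rw [Polynomial.isUnit_iff] at hu
      obtain ⟨c, -, hc⟩ := hu
      exact ⟨c, 1, by rw [one_pow, mul_one, hc]⟩
    · obtain ⟨π, hπ, hπf⟩ := WfDvdMonoid.exists_irreducible_factor hu hf
      have hfin : FiniteMultiplicity π f := FiniteMultiplicity.of_not_isUnit hπ.not_isUnit hf
      obtain ⟨f1, hf1, hndvd⟩ := hfin.exists_eq_pow_mul_and_not_dvd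
      set e := multiplicity π f with he
      have he0 : 0 < e := by
        rcases Nat.eq_zero_or_pos e with h | h
        · rw [h, pow_zero, one_mul] at hf1
          rw [hf1] at hπf
          exact absurd hπf hndvd
        · exact h
      rcases Nat.even_or_odd e with hev | hod
      · obtain ⟨j, hj⟩ := hev
        have hf10 : f1 ≠ 0 := by
          rintro rfl
          exact hndvd (dvd_zero π)
        have hdeg : f1.natDegree ≤ N := by
          have h1 : f.natDegree = e * π.natDegree + f1.natDegree := by
            conv_lhs => rw [hf1]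
            rw [Polynomial.natDegree_mul (pow_ne_zero _ hπ.ne_zero) hf10,
              Polynomial.natDegree_pow]
          have h2 : 0 < π.natDegree := hπ.natDegree_pos
          have h3 : 0 < e * π.natDegree := Nat.mul_pos he0 h2
          omega
        rcases ih f1 hf10 hdeg with ⟨c, g, hg⟩ | ⟨ρ, f2, e', hρ, he', hf2, hnd⟩
        · left
          refine ⟨c, π ^ j * g, ?_⟩
          rw [hf1, hg, hj]
          ring
        · right
          refine ⟨ρ, π ^ e * f2, e', hρ, he', ?_, ?_⟩
          · conv_lhs => rw [hf1, hf2]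
            ring
          · intro h
            rcases hρ.prime.dvd_or_dvd h with h1 | h1
            · have h2 : ρ ∣ π := hρ.prime.dvd_of_dvd_pow h1
              have h3 : π ∣ ρ := (hρ.associated_of_dvd hπ h2).symm.dvd
              apply hndvd
              rw [hf2]
              obtain ⟨m, hm⟩ : ∃ m, e' = m + 1 := ⟨e' - 1, by
                have := he'.pos
                omega⟩
              rw [hm, pow_succ]
              exact Dvd.dvd.mul_right (Dvd.dvd.mul_left h3 _) _
            · exact hnd h1
      · right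
        exact ⟨π, f1, e, hπ, hod, hf1, hndvd⟩

theorem exp_odd_not_square {k : Type*} [Field k] (v : Valuation k ℤᵐ⁰) (x : k) (e : ℕ)
    (he : Odd e) (hx : v x = exp (-(e : ℤ))) : ¬ IsSquare x := by
  rintro ⟨r, hr⟩
  rw [hr, map_mul] at hx
  have hr0 : v r ≠ 0 := by
    intro h
    rw [h, zero_mul] at hx
    exact exp_ne_zero hx.symm
  rw [← exp_log hr0, ← exp_add] at hx
  have h5 := exp_injective hx
  obtain ⟨j, hj⟩ := he
  omega

theorem spec {k : Type*} [Field k] [NumberField k] (f : k[X]) (hf : ¬ IsSquare f) :
    ∃ᶠ t in (Filter.cofinite : Filter k), ¬ IsSquare (f.eval t) := by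
  have hf0 : f ≠ 0 := by
    rintro rfl
    exact hf ⟨0, by rw [mul_zero]⟩
  rw [Filter.frequently_cofinite_iff_infinite]
  rcases odd_factor f.natDegree f hf0 le_rfl with ⟨c, g, hg⟩ | ⟨π, f1, e, hπ, he, hf1, hnd⟩
  · have hc : ¬ IsSquare c := by
      rintro ⟨r, hr⟩
      apply hf
      exact ⟨C r * g, by rw [hg, hr, C_mul]; ring⟩
    have hg0 : g ≠ 0 := by
      rintro rfl
      apply hf0
      rw [hg]
      simp
    have h1 : {t : k | g.eval t ≠ 0}.Infinite := by
      have h2 : {t : k | g.eval t = 0}.Finite := Polynomial.finite_setOfPred_isRoot hg0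
      have h3 : {t : k | g.eval t ≠ 0} = {t : k | g.eval t = 0}ᶜ := rfl
      rw [h3]
      exact h2.infinite_compl
    refine h1.mono (fun t ht hsq => hc ?_)
    obtain ⟨r, hr⟩ := hsq
    rw [hg, Polynomial.eval_mul, Polynomial.eval_C, Polynomial.eval_pow] at hr
    refine ⟨r / g.eval t, ?_⟩
    have ht' : g.eval t ≠ 0 := ht
    field_simp
    linear_combination hr
  · let F := AlgebraicClosure k
    obtain ⟨t0, ht0⟩ := IsAlgClosed.exists_aeval_eq_zero F π hπ.degree_pos.ne'
    have hsep : π.Separable := hπ.separable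
    have h1 : aeval t0 (derivative π) ≠ 0 := by
      intro h
      obtain ⟨u, w, huw⟩ := hsep
      have h2 := congrArg (aeval t0) huw
      rw [map_add, map_mul, map_mul, ht0, h, map_one] at h2
      simp at h2
    have h2 : aeval t0 f1 ≠ 0 := by
      intro h
      apply hnd
      have h3 : IsCoprime π f1 := (Irreducible.coprime_iff_not_dvd hπ).2 hnd
      obtain ⟨u, w, huw⟩ := h3
      have h4 := congrArg (aeval t0) huw
      rw [map_add, map_mul, map_mul, ht0, h, map_one] at h4
      simp at h4
    obtain ⟨v, -, T, hT, hTz⟩ := exists_good π f1 t0 ht0 h1 h2 ∅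
    refine (Set.infinite_range_of_injective hT).mono ?_
    rintro _ ⟨z, rfl⟩
    obtain ⟨-, h3, h4⟩ := hTz z
    refine exp_odd_not_square v _ e he ?_
    rw [hf1, Polynomial.eval_mul, Polynomial.eval_pow, map_mul, map_pow, h3, h4, mul_one,
      ← exp_nsmul]
    congr 1
    simp

end P12
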