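import Pool.Agent.H.MP_89f84f_ag.P13Dich

/-!
# Polynomials in three variables which vanish at the points with nonsquare `u Q(x, t, u)`
-/

open Polynomial

namespace P12

section

variable {k : Type*} [Field k]

/-- The point `(x, t, u)` of the quotient surface is good: `A(t) ≠ 0` and `u Q(x, t, u)` is not a
square. -/
def Good (A B0 B1 B2 C0 C1 C2 C3 : k[X]) (Q : k[X][X][X]) (x t u : k) : Prop :=
  EqU A B0 B1 B2 C0 C1 C2 C3 x t u ∧ A.eval t ≠ 0 ∧ ¬ IsSquare (u * ev3 x t u Q)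

/-- `G` vanishes at all good points. -/
def Van (A B0 B1 B2 C0 C1 C2 C3 : k[X]) (Q G : k[X][X][X]) : Prop :=
  ∀ x t u : k, Good A B0 B1 B2 C0 C1 C2 C3 Q x t u → ev3 x t u G = 0

theorem eq_of_good (A B0 B1 B2 C0 C1 C2 C3 : k[X]) {Q : k[X][X][X]} {x t u : k}
    (h : Good A B0 B1 B2 C0 C1 C2 C3 Q x t u) :
    A.eval t * u ^ 2 + ev2 x t (BB B0 B1 B2) * u + ev2 x t (CC C0 C1 C2 C3) = 0 := by
  rw [ev2_BB, ev2_CC]
  simp only [Polynomial.coe_aeval_eq_eval]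
  exact h.1

end

/-- A polynomial in two variables which vanishes at the good points is zero. -/
theorem zero_of_good {k : Type*} [Field k] [NumberField k] {F : Type*} [Field F] [CharZero F]
    [Algebra k F] (A B0 B1 B2 C0 C1 C2 C3 : k[X]) (t0 : F) (hd0 : diag2 B0 B1 B2 ≠ 0)
    (h0 : aeval t0 (diag2 B0 B1 B2) = 0)
    (hA : aeval t0 A ≠ 0) (hC : aeval t0 (diag3 C0 C1 C2 C3) ≠ 0)
    (Q : k[X][X][X]) (hQ : aeval t0 (diag0 Q) ≠ 0) (n : k[X][X])
    (hn : ∀ x t u : k, Good A B0 B1 B2 C0 C1 C2 C3 Q x t u → ev2 x t n = 0) : n = 0 := by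
  have hPp : (RingHom.ker (aeval t0 : k[X] →ₐ[k] F)).IsPrime := RingHom.ker_isPrime _
  have hP0 : RingHom.ker (aeval t0 : k[X] →ₐ[k] F) ≠ ⊥ := by
    intro hb
    apply hd0
    have h2 : diag2 B0 B1 B2 ∈ RingHom.ker (aeval t0 : k[X] →ₐ[k] F) := h0
    rw [hb] at h2
    exact h2
  have hPm : (RingHom.ker (aeval t0 : k[X] →ₐ[k] F)).IsMaximal := hPp.isMaximal hP0
  exact zero_of_local3 (RingHom.ker (aeval t0 : k[X] →ₐ[k] F)) A B0 B1 B2 C0 C1 C2 C3 hd0 h0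
    (fun h2 => hA h2) (fun h2 => hC h2) Q (fun h2 => hQ h2) n
    (fun x t u h1 h2 h3 => hn x t u ⟨h1, h2, h3⟩)

/-- If the norm of `α + β u` vanishes then `α = β = 0`. -/
theorem zero_of_norm {k F : Type*} [Field k] [Field F] [CharZero F] [Algebra k F] [CharZero k]
    (A B0 B1 B2 C0 C1 C2 C3 : k[X]) (t0 : F)
    (h0 : aeval t0 (diag2 B0 B1 B2) = 0)
    (hA : aeval t0 A ≠ 0) (hC : aeval t0 (diag3 C0 C1 C2 C3) ≠ 0) (α β : k[X][X])
    (hn : C A * α ^ 2 - BB B0 B1 B2 * α * β + CC C0 C1 C2 C3 * β ^ 2 = 0) : α = 0 ∧ β = 0 := by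
  have hA0 : (C A : k[X][X]) ≠ 0 := by
    intro h
    rw [Polynomial.C_eq_zero] at h
    rw [h, map_zero] at hA
    exact hA rfl
  have hsq : (2 * C A * α - BB B0 B1 B2 * β) ^ 2 =
      (BB B0 B1 B2 ^ 2 - 4 * C A * CC C0 C1 C2 C3) * β ^ 2 := by
    linear_combination 4 * C A * hn
  have hβ : β = 0 := by
    by_contra hβ
    have h2 : β ^ 2 ∣ (2 * C A * α - BB B0 B1 B2 * β) ^ 2 := ⟨_, hsq.trans (mul_comm _ _)⟩
    rw [IsIntegrallyClosed.pow_dvd_pow_iff two_ne_zero] at h2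
    obtain ⟨z, hz⟩ := h2
    refine not_square A B0 B1 B2 C0 C1 C2 C3 t0 h0 hA hC z ?_
    rw [hz] at hsq
    have h3 : β ^ 2 * (BB B0 B1 B2 ^ 2 - 4 * C A * CC C0 C1 C2 C3) = β ^ 2 * z ^ 2 := by
      linear_combination -hsq
    exact mul_left_cancel₀ (pow_ne_zero 2 hβ) h3
  refine ⟨?_, hβ⟩
  rw [hβ] at hsq
  have h2 : 2 * C A * α = 0 := by
    have h3 : (2 * C A * α) ^ 2 = 0 := by
      linear_combination hsq
    exact pow_eq_zero_iff two_ne_zero |>.1 h3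
  exact (mul_eq_zero.1 h2).resolve_left (mul_ne_zero two_ne_zero hA0)

/-- A polynomial which vanishes at the good points is divisible by the equation, up to a power of
`A`. -/
theorem core3 {k : Type*} [Field k] [NumberField k] {F : Type*} [Field F] [CharZero F] [Algebra k F]
    (A B0 B1 B2 C0 C1 C2 C3 : k[X]) (t0 : F) (hd0 : diag2 B0 B1 B2 ≠ 0)
    (h0 : aeval t0 (diag2 B0 B1 B2) = 0)
    (hA : aeval t0 A ≠ 0) (hC : aeval t0 (diag3 C0 C1 C2 C3) ≠ 0)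
    (Q : k[X][X][X]) (hQ : aeval t0 (diag0 Q) ≠ 0) (G : k[X][X][X])
    (hG : Van A B0 B1 B2 C0 C1 C2 C3 Q G) :
    ∃ (m : ℕ) (K : k[X][X][X]), C (C A ^ m) * G =
      (C (C A) * X ^ 2 + C (BB B0 B1 B2) * X + C (CC C0 C1 C2 C3)) * K := by
  obtain ⟨m, K, α, β, h⟩ := pseudo_div (C A : k[X][X]) (BB B0 B1 B2) (CC C0 C1 C2 C3) G
  have hn : C A * α ^ 2 - BB B0 B1 B2 * α * β + CC C0 C1 C2 C3 * β ^ 2 = 0 := by
    refine zero_of_good A B0 B1 B2 C0 C1 C2 C3 t0 hd0 h0 hA hC Q hQ _ ?_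
    intro x t u hg
    have h3 := eq_of_good A B0 B1 B2 C0 C1 C2 C3 hg
    have h2 := congrArg (ev3 x t u) h
    simp only [map_mul, map_add, map_pow, ev3_C, ev3_X, ev2_C, hG x t u hg, mul_zero,
      Polynomial.coe_aeval_eq_eval] at h2
    rw [h3, zero_mul, zero_add] at h2
    simp only [map_add, map_sub, map_mul, map_pow, ev2_C, Polynomial.coe_aeval_eq_eval]
    linear_combination -(A.eval t * (ev2 x t α - ev2 x t β * u) -
      ev2 x t (BB B0 B1 B2) * ev2 x t β) * h2 + ev2 x t β ^ 2 * h3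
  obtain ⟨hα, hβ⟩ := zero_of_norm A B0 B1 B2 C0 C1 C2 C3 t0 h0 hA hC α β hn
  refine ⟨m, K, ?_⟩
  rw [h, hα, hβ]
  simp

/-- The polynomials which vanish at the good points form a prime ideal. -/
theorem van_mul {k : Type*} [Field k] [NumberField k] {F : Type*} [Field F] [CharZero F]
    [Algebra k F]
    (A B0 B1 B2 C0 C1 C2 C3 : k[X]) (t0 : F) (hd0 : diag2 B0 B1 B2 ≠ 0)
    (h0 : aeval t0 (diag2 B0 B1 B2) = 0)
    (hA : aeval t0 A ≠ 0) (hC : aeval t0 (diag3 C0 C1 C2 C3) ≠ 0)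
    (Q : k[X][X][X]) (hQ : aeval t0 (diag0 Q) ≠ 0) (G G' : k[X][X][X])
    (hG : Van A B0 B1 B2 C0 C1 C2 C3 Q (G * G')) :
    Van A B0 B1 B2 C0 C1 C2 C3 Q G ∨ Van A B0 B1 B2 C0 C1 C2 C3 Q G' := by
  obtain ⟨m, K, α, β, h⟩ := pseudo_div (C A : k[X][X]) (BB B0 B1 B2) (CC C0 C1 C2 C3) G
  obtain ⟨m', K', α', β', h'⟩ := pseudo_div (C A : k[X][X]) (BB B0 B1 B2) (CC C0 C1 C2 C3) G'
  have hev : ∀ x t u : k, Good A B0 B1 B2 C0 C1 C2 C3 Q x t u →
      A.eval t ^ m * ev3 x t u G = ev2 x t α + ev2 x t β * u ∧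
      A.eval t ^ m' * ev3 x t u G' = ev2 x t α' + ev2 x t β' * u := by
    intro x t u hg
    have h3 := eq_of_good A B0 B1 B2 C0 C1 C2 C3 hg
    have h2 := congrArg (ev3 x t u) h
    have h2' := congrArg (ev3 x t u) h'
    simp only [map_mul, map_add, map_pow, ev3_C, ev3_X, ev2_C, Polynomial.coe_aeval_eq_eval,
      h3, zero_mul, zero_add] at h2 h2'
    exact ⟨h2, h2'⟩
  have hn : (C A * α ^ 2 - BB B0 B1 B2 * α * β + CC C0 C1 C2 C3 * β ^ 2) *
      (C A * α' ^ 2 - BB B0 B1 B2 * α' * β' + CC C0 C1 C2 C3 * β' ^ 2) = 0 := by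
    refine zero_of_good A B0 B1 B2 C0 C1 C2 C3 t0 hd0 h0 hA hC Q hQ _ ?_
    intro x t u hg
    have h3 := eq_of_good A B0 B1 B2 C0 C1 C2 C3 hg
    obtain ⟨h4, h5⟩ := hev x t u hg
    have h6 : (ev2 x t α + ev2 x t β * u) * (ev2 x t α' + ev2 x t β' * u) = 0 := by
      rw [← h4, ← h5]
      have h7 := hG x t u hg
      rw [map_mul] at h7
      linear_combination A.eval t ^ m * A.eval t ^ m' * h7
    simp only [map_add, map_sub, map_mul, map_pow, ev2_C, Polynomial.coe_aeval_eq_eval]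
    generalize ev2 x t (BB B0 B1 B2) = b at h3 ⊢
    generalize ev2 x t (CC C0 C1 C2 C3) = c at h3 ⊢
    generalize ev2 x t α = α at h6 ⊢
    generalize ev2 x t β = β at h6 ⊢
    generalize ev2 x t α' = α' at h6 ⊢
    generalize ev2 x t β' = β' at h6 ⊢
    generalize A.eval t = a at h3 ⊢
    have h7 : a * α ^ 2 - b * α * β + c * β ^ 2 =
        (a * (α - β * u) - b * β) * (α + β * u) := by
      linear_combination β ^ 2 * h3
    have h8 : a * α' ^ 2 - b * α' * β' + c * β' ^ 2 =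
        (a * (α' - β' * u) - b * β') * (α' + β' * u) := by
      linear_combination β' ^ 2 * h3
    rw [h7, h8]
    linear_combination (a * (α - β * u) - b * β) * (a * (α' - β' * u) - b * β') * h6
  rcases mul_eq_zero.1 hn with hn | hn
  · left
    obtain ⟨hα, hβ⟩ := zero_of_norm A B0 B1 B2 C0 C1 C2 C3 t0 h0 hA hC α β hn
    intro x t u hg
    have h4 := (hev x t u hg).1
    rw [hα, hβ, map_zero, zero_mul, add_zero] at h4
    exact (mul_eq_zero.1 h4).resolve_left (pow_ne_zero _ hg.2.1)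
  · right
    obtain ⟨hα, hβ⟩ := zero_of_norm A B0 B1 B2 C0 C1 C2 C3 t0 h0 hA hC α' β' hn
    intro x t u hg
    have h4 := (hev x t u hg).2
    rw [hα, hβ, map_zero, zero_mul, add_zero] at h4
    exact (mul_eq_zero.1 h4).resolve_left (pow_ne_zero _ hg.2.1)

end P12
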