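import Pool.Agent.H.MP_89f84f_ag.P12Dich

/-!
# The values of `u Q(x, t, u)` at infinitely many points are not squares
-/

open Polynomial Filter

namespace P12

/-- The polynomial `Q(t, t, 0)`. -/
noncomputable def diag0 {k : Type*} [CommRing k] (Q : k[X][X][X]) : k[X] := (Q.eval 0).eval X

section

variable {k : Type*} [Field k] [CharZero k] (P : Ideal k[X]) [P.IsPrime]

/-- The points of the quotient surface over the local ring, with their residues. -/
theorem loc_points3 (A B0 B1 B2 C0 C1 C2 C3 : k[X]) (hd0 : diag2 B0 B1 B2 ≠ 0)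
    (hd : diag2 B0 B1 B2 ∈ P) (hA : A ∉ P) (hC : diag3 C0 C1 C2 C3 ∉ P) :
    ∃ (q : Localization.AtPrime P) (x u υ : ℕ → Localization.AtPrime P), q ≠ 0 ∧
      (∀ n, 1 ≤ n → EqR A B0 B1 B2 C0 C1 C2 C3 (x n) (u n) ∧ u n = q * υ n ∧
        IsLocalRing.residue (Localization.AtPrime P) (υ n) =
          -(n : IsLocalRing.ResidueField (Localization.AtPrime P)) ∧
        IsLocalRing.residue (Localization.AtPrime P) (x n) =
          IsLocalRing.residue (Localization.AtPrime P) (algebraMap k[X] _ X) ∧
        IsLocalRing.residue (Localization.AtPrime P) (u n) = 0) ∧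
      ∀ m n, 1 ≤ m → 1 ≤ n → x m = x n → m = n := by
  set R := Localization.AtPrime P with hR
  set ρ := IsLocalRing.residue R with hρ
  have hun : ∀ p : k[X], p ∉ P → IsUnit (algebraMap k[X] R p) := fun p hp =>
    IsLocalization.map_units R (⟨p, hp⟩ : P.primeCompl)
  have hinj : Function.Injective (algebraMap k[X] R) :=
    IsLocalization.injective R P.primeCompl_le_nonZeroDivisors
  obtain ⟨ai, hai⟩ := (hun A hA).exists_right_inv
  have hd2 : algebraMap k[X] R (diag2 B0 B1 B2) = algebraMap _ R B0 +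
      algebraMap _ R B1 * algebraMap k[X] R X + algebraMap _ R B2 * algebraMap k[X] R X ^ 2 := by
    simp only [diag2, map_add, map_mul, map_pow]
  have hd3 : algebraMap k[X] R (diag3 C0 C1 C2 C3) = algebraMap _ R C0 +
      algebraMap _ R C1 * algebraMap k[X] R X + algebraMap _ R C2 * algebraMap k[X] R X ^ 2 +
      algebraMap _ R C3 * algebraMap k[X] R X ^ 3 := by
    simp only [diag3, map_add, map_mul, map_pow]
  have hai0 : ai ≠ 0 := by
    rintro rfl
    rw [mul_zero] at hai
    exact zero_ne_one hai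
  have hq0 : algebraMap k[X] R (diag2 B0 B1 B2) * ai ≠ 0 := by
    refine mul_ne_zero ?_ hai0
    intro h
    apply hd0
    apply hinj
    rw [h, map_zero]
  have hρq : ρ (algebraMap k[X] R (diag2 B0 B1 B2) * ai) = 0 := by
    rw [map_mul]
    have h1 : ρ (algebraMap k[X] R (diag2 B0 B1 B2)) = 0 := by
      rw [IsLocalRing.residue_eq_zero_iff]
      exact (IsLocalization.AtPrime.to_map_mem_maximal_iff R P _).2 hd
    rw [h1, zero_mul]
  have hρg : ρ (algebraMap k[X] R (diag3 C0 C1 C2 C3) * ai) ≠ 0 := by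
    rw [IsLocalRing.residue_ne_zero_iff_isUnit]
    exact (hun _ hC).mul (IsUnit.of_mul_eq_one _ (by rw [mul_comm]; exact hai))
  have hex := fun n : ℕ => exists_point (algebraMap k[X] R (diag2 B0 B1 B2) * ai)
    ((algebraMap _ R B1 + 2 * algebraMap _ R B2 * algebraMap k[X] R X) * ai)
    (algebraMap _ R B2 * ai) (algebraMap k[X] R (diag3 C0 C1 C2 C3) * ai)
    ((algebraMap _ R C1 + 2 * algebraMap _ R C2 * algebraMap k[X] R X +
      3 * algebraMap _ R C3 * algebraMap k[X] R X ^ 2) * ai)
    ((algebraMap _ R C2 + 3 * algebraMap _ R C3 * algebraMap k[X] R X) * ai)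
    (algebraMap _ R C3 * ai) hρq hρg n (fun m h1 _ => residue_natCast_ne_zero P m h1) n
  have hex' : ∀ n : ℕ, ∃ p : R × R, 1 ≤ n →
      Curve (algebraMap k[X] R (diag2 B0 B1 B2) * ai)
        ((algebraMap _ R B1 + 2 * algebraMap _ R B2 * algebraMap k[X] R X) * ai)
        (algebraMap _ R B2 * ai) (algebraMap k[X] R (diag3 C0 C1 C2 C3) * ai)
        ((algebraMap _ R C1 + 2 * algebraMap _ R C2 * algebraMap k[X] R X +
          3 * algebraMap _ R C3 * algebraMap k[X] R X ^ 2) * ai)
        ((algebraMap _ R C2 + 3 * algebraMap _ R C3 * algebraMap k[X] R X) * ai)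
        (algebraMap _ R C3 * ai) p.1 p.2 ∧
      ρ p.2 = -(n : IsLocalRing.ResidueField R) ∧
      ρ p.1 * ρ (algebraMap k[X] R (diag3 C0 C1 C2 C3) * ai) =
        -((n : IsLocalRing.ResidueField R) * (n - 1)) := by
    intro n
    by_cases h : 1 ≤ n
    · obtain ⟨σ, υ, h3⟩ := hex n h le_rfl
      exact ⟨(σ, υ), fun _ => h3⟩
    · exact ⟨(0, 0), fun h3 => absurd h3 h⟩
  choose p hp using hex'
  refine ⟨algebraMap k[X] R (diag2 B0 B1 B2) * ai,
    fun n => algebraMap k[X] R X + (algebraMap k[X] R (diag2 B0 B1 B2) * ai) ^ 2 * (p n).1,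
    fun n => algebraMap k[X] R (diag2 B0 B1 B2) * ai * (p n).2, fun n => (p n).2, hq0, ?_, ?_⟩
  · intro n hn
    obtain ⟨h1, h2, -⟩ := hp n hn
    refine ⟨?_, rfl, h2, ?_, ?_⟩
    · rw [hd2, hd3] at h1
      rw [hd2]
      beta_reduce
      unfold EqR
      unfold Curve at h1
      generalize algebraMap _ R A = a at hai ⊢
      generalize algebraMap _ R B0 = b0 at h1 ⊢
      generalize algebraMap _ R B1 = b1 at h1 ⊢
      generalize algebraMap _ R B2 = b2 at h1 ⊢
      generalize algebraMap _ R C0 = c0 at h1 ⊢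
      generalize algebraMap _ R C1 = c1 at h1 ⊢
      generalize algebraMap _ R C2 = c2 at h1 ⊢
      generalize algebraMap _ R C3 = c3 at h1 ⊢
      generalize algebraMap k[X] R X = t at h1 ⊢
      generalize (p n).1 = σ at h1 ⊢
      generalize (p n).2 = υ at h1 ⊢
      generalize hε : (b0 + b1 * t + b2 * t ^ 2) * ai = ε at h1 ⊢
      have h3 : (ε * υ) ^ 2 + (ε + (b1 + 2 * b2 * t) * ai * (ε ^ 2 * σ) +
          b2 * ai * (ε ^ 2 * σ) ^ 2) * (ε * υ) + (ε ^ 2 * σ) *
          ((c0 + c1 * t + c2 * t ^ 2 + c3 * t ^ 3) * ai +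
            (c1 + 2 * c2 * t + 3 * c3 * t ^ 2) * ai * (ε ^ 2 * σ) +
            (c2 + 3 * c3 * t) * ai * (ε ^ 2 * σ) ^ 2 + c3 * ai * (ε ^ 2 * σ) ^ 3) = 0 := by
        linear_combination ε ^ 2 * h1
      generalize ε ^ 2 * σ = s at h3 ⊢
      generalize ε * υ = u at h3 ⊢
      rw [← hε] at h3
      linear_combination a * h3 + (-(b0 + b1 * (t + s) + b2 * (t + s) ^ 2) * u -
        s * (c0 + c1 * (t + s) + c2 * (t + s) ^ 2 + c3 * (t + s) ^ 3)) * hai
    · beta_reduce
      rw [map_add, map_mul, map_pow, hρq]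
      ring
    · beta_reduce
      rw [map_mul, hρq, zero_mul]
  · have key : ∀ m n, 1 ≤ m → m < n → algebraMap k[X] R X +
        (algebraMap k[X] R (diag2 B0 B1 B2) * ai) ^ 2 * (p m).1 = algebraMap k[X] R X +
        (algebraMap k[X] R (diag2 B0 B1 B2) * ai) ^ 2 * (p n).1 → False := by
      intro m n hm hmn h
      have h3 : (p m).1 = (p n).1 :=
        mul_left_cancel₀ (pow_ne_zero 2 hq0) (add_left_cancel h)
      obtain ⟨-, -, h5⟩ := hp m hm
      obtain ⟨-, -, h6⟩ := hp n (by omega)
      rw [h3, h6] at h5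
      have h7 := residue_natCast_ne_zero P (n - m) (by omega)
      have h8 := residue_natCast_ne_zero P (n + m - 1) (by omega)
      have h9 : ((n - m : ℕ) : IsLocalRing.ResidueField R) *
          ((n + m - 1 : ℕ) : IsLocalRing.ResidueField R) = 0 := by
        rw [Nat.cast_sub hmn.le, Nat.cast_sub (by omega : 1 ≤ n + m)]
        push_cast
        linear_combination -h5
      rcases mul_eq_zero.1 h9 with h10 | h10
      · exact h7 h10
      · exact h8 h10
    intro m n hm hn h
    rcases lt_trichotomy m n with h3 | h3 | h3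
    · exact (key m n hm h3 h).elim
    · exact h3
    · exact (key n m hn h3 h.symm).elim

end

/-- There are infinitely many indices for which the product of the last coordinate and a function
with a constant residue is not a square. -/
theorem infinite_not_square3 {k : Type*} [Field k] [NumberField k] (P : Ideal k[X]) [P.IsMaximal]
    [IsIntegrallyClosed (Localization.AtPrime P)] (q : Localization.AtPrime P) (hq : q ≠ 0)
    (υ κ : ℕ → Localization.AtPrime P) (c : IsLocalRing.ResidueField (Localization.AtPrime P))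
    (hc : c ≠ 0) (hυ : ∀ n, 1 ≤ n →
      IsLocalRing.residue (Localization.AtPrime P) (υ n) =
        -(n : IsLocalRing.ResidueField (Localization.AtPrime P)))
    (hκ : ∀ n, 1 ≤ n → IsLocalRing.residue (Localization.AtPrime P) (κ n) = c)
    (a b : ℕ → k[X]) (hb : ∀ n, 1 ≤ n → b n ≠ 0)
    (hab : ∀ n, 1 ≤ n → q * (υ n * κ n) * algebraMap _ _ (b n) = algebraMap _ _ (a n)) :
    {n : ℕ | 1 ≤ n ∧ ¬ IsSquare (a n * b n)}.Infinite := by
  rw [Set.infinite_iff_exists_gt]
  intro N
  by_contra hcon
  push Not at hcon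
  obtain ⟨p, hp, hns⟩ := exists_prime_not_square_residue P
  have hsq : ∀ n, N < n → IsSquare (a n * b n) := by
    intro n hn
    by_contra h
    exact absurd hn (not_lt.2 (hcon n ⟨by omega, h⟩))
  have h1 : N < N + 1 := Nat.lt_succ_self N
  have h2 : N < (N + 1) * p := by
    have := hp.two_le
    nlinarith
  obtain ⟨s, hs⟩ := two_squares P q (υ (N + 1) * κ (N + 1))
    (υ ((N + 1) * p) * κ ((N + 1) * p)) hq (a (N + 1)) (b (N + 1))
    (a ((N + 1) * p)) (b ((N + 1) * p)) (hb _ (by omega)) (hb _ (by omega)) (hab _ (by omega))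
    (hab _ (by omega)) (hsq _ h1) (hsq _ h2)
  have h3 := congrArg (IsLocalRing.residue (Localization.AtPrime P)) hs
  rw [map_mul, map_mul, map_mul, map_mul, hυ _ (by omega), hυ _ (by omega), hκ _ (by omega),
    hκ _ (by omega)] at h3
  have h4 := residue_natCast_ne_zero P (N + 1) (by omega)
  apply hns
  refine ⟨IsLocalRing.residue (Localization.AtPrime P) s / (((N + 1 : ℕ) : _) * c), ?_⟩
  rw [Nat.cast_mul] at h3
  generalize ((N + 1 : ℕ) : IsLocalRing.ResidueField (Localization.AtPrime P)) = m at h3 h4 ⊢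
  generalize IsLocalRing.residue (Localization.AtPrime P) s = r at h3 ⊢
  field_simp
  linear_combination h3

/-- The values of a polynomial in three variables over an algebra. -/
noncomputable def ev3R {k R : Type*} [CommRing k] [CommRing R] [Algebra k[X] R] (x u : R) :
    k[X][X][X] →+* R :=
  eval₂RingHom (eval₂RingHom (algebraMap k[X] R) x) u

theorem ev3R_diag0 {k : Type*} [Field k] (P : Ideal k[X]) [P.IsPrime]
    (x u : Localization.AtPrime P)
    (hx : IsLocalRing.residue (Localization.AtPrime P) x =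
      IsLocalRing.residue (Localization.AtPrime P) (algebraMap k[X] _ X))
    (hu : IsLocalRing.residue (Localization.AtPrime P) u = 0) (Q : k[X][X][X]) :
    IsLocalRing.residue (Localization.AtPrime P) (ev3R x u Q) =
      IsLocalRing.residue (Localization.AtPrime P) (algebraMap k[X] _ (diag0 Q)) := by
  have h : (IsLocalRing.residue (Localization.AtPrime P)).comp
      (ev3R x u : k[X][X][X] →+* Localization.AtPrime P) =
      ((IsLocalRing.residue (Localization.AtPrime P)).comp
        (algebraMap k[X] (Localization.AtPrime P))).comp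
        ((evalRingHom (X : k[X])).comp (evalRingHom (0 : k[X][X]))) := by
    refine Polynomial.ringHom_ext (fun a => ?_) ?_
    · have h2 : ((IsLocalRing.residue (Localization.AtPrime P)).comp
          (eval₂RingHom (algebraMap k[X] (Localization.AtPrime P)) x)) =
          ((IsLocalRing.residue (Localization.AtPrime P)).comp
            (algebraMap k[X] (Localization.AtPrime P))).comp (evalRingHom (X : k[X])) := by
        refine Polynomial.ringHom_ext (fun b => ?_) ?_
        · simp
        · simp [hx]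
      have h3 := congrArg (fun g => g a) h2
      simpa [ev3R] using h3
    · simp [ev3R, hu]
  exact congrArg (fun g => g Q) h

/-- The values of a polynomial in three variables at a point over the local ring. -/
theorem evGerm_ev3R {k : Type*} [Field k] (P : Ideal k[X]) [P.IsPrime]
    (x u : Localization.AtPrime P) (xh uh : k → k)
    (hx : evGerm P x = (xh : Germ (cofinite : Filter k) k))
    (hu : evGerm P u = (uh : Germ (cofinite : Filter k) k))
    (Q : k[X][X][X]) : evGerm P (ev3R x u Q) =
      ((fun t => ev3 (xh t) t (uh t) Q : k → k) : Germ (cofinite : Filter k) k) := by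
  have h : (evGerm P).comp (ev3R x u : k[X][X][X] →+* Localization.AtPrime P) =
      (Germ.coeRingHom (cofinite : Filter k)).comp
        (RingHom.pi (fun t => ev3 (xh t) t (uh t))) := by
    refine Polynomial.ringHom_ext (fun a => ?_) ?_
    · rw [RingHom.comp_apply, ev3R, coe_eval₂RingHom, eval₂_C, coe_eval₂RingHom,
        evGerm_eval₂ P x xh hx, RingHom.comp_apply]
      change _ = (↑(fun t => ev3 (xh t) t (uh t) (C a) : k → k) : Germ (cofinite : Filter k) k)
      congr 1
      funext t
      rw [ev3_C]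
    · rw [RingHom.comp_apply, ev3R, coe_eval₂RingHom, eval₂_X, hu, RingHom.comp_apply]
      change _ = (↑(fun t => ev3 (xh t) t (uh t) X : k → k) : Germ (cofinite : Filter k) k)
      congr 1
      funext t
      rw [ev3_X]
  exact congrArg (fun g => g Q) h

/-- A polynomial in two variables which vanishes at the points at which `u Q(x, t, u)` is not a
square. -/
theorem zero_of_local3 {k : Type*} [Field k] [NumberField k] (P : Ideal k[X]) [P.IsMaximal]
    (A B0 B1 B2 C0 C1 C2 C3 : k[X]) (hd0 : diag2 B0 B1 B2 ≠ 0)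
    (hd : diag2 B0 B1 B2 ∈ P) (hA : A ∉ P) (hC : diag3 C0 C1 C2 C3 ∉ P)
    (Q : k[X][X][X]) (hQ : diag0 Q ∉ P) (n : k[X][X])
    (hn : ∀ x t u : k, EqU A B0 B1 B2 C0 C1 C2 C3 x t u → A.eval t ≠ 0 →
      ¬ IsSquare (u * ev3 x t u Q) → ev2 x t n = 0) : n = 0 := by
  have hic : IsIntegrallyClosed (Localization.AtPrime P) :=
    isIntegrallyClosed_of_isLocalization _ P.primeCompl P.primeCompl_le_nonZeroDivisors
  have hinj : Function.Injective (algebraMap k[X] (Localization.AtPrime P)) :=
    IsLocalization.injective _ P.primeCompl_le_nonZeroDivisors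
  have hA0 : A ≠ 0 := by
    rintro rfl
    exact hA P.zero_mem
  obtain ⟨q, x, u, υ, hq, h1, hxinj⟩ := loc_points3 P A B0 B1 B2 C0 C1 C2 C3 hd0 hd hA hC
  set κ : ℕ → Localization.AtPrime P := fun n => ev3R (x n) (u n) Q with hκ
  have hsurj : ∀ n, ∃ a b : k[X], b ≠ 0 ∧
      q * (υ n * κ n) * algebraMap k[X] (Localization.AtPrime P) b = algebraMap _ _ a := by
    intro n
    obtain ⟨⟨a, b⟩, h⟩ := IsLocalization.surj P.primeCompl (q * (υ n * κ n))
    exact ⟨a, b, ne_zero_of_primeCompl P b, h⟩
  choose a b hb hab using hsurj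
  have hinf := infinite_not_square3 P q hq υ κ
    (IsLocalRing.residue (Localization.AtPrime P) (algebraMap k[X] _ (diag0 Q)))
    (by
      rw [IsLocalRing.residue_ne_zero_iff_isUnit]
      exact IsLocalization.map_units _ (⟨diag0 Q, hQ⟩ : P.primeCompl))
    (fun n hn => (h1 n hn).2.2.1)
    (fun n hn => ev3R_diag0 P (x n) (u n) (h1 n hn).2.2.2.1 (h1 n hn).2.2.2.2 Q)
    a b (fun n _ => hb n) (fun n _ => hab n)
  have hroot : ∀ i, 1 ≤ i → ¬ IsSquare (a i * b i) →
      n.eval₂ (algebraMap k[X] (Localization.AtPrime P)) (x i) = 0 := by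
    intro i hi hns
    by_contra hz
    obtain ⟨hE, hu, -⟩ := h1 i hi
    obtain ⟨xh, hxh⟩ : ∃ f : k → k, evGerm P (x i) = (f : Germ (cofinite : Filter k) k) := by
      induction h : evGerm P (x i) using Germ.inductionOn with
      | _ f => exact ⟨f, rfl⟩
    obtain ⟨uh, huh⟩ : ∃ f : k → k, evGerm P (u i) = (f : Germ (cofinite : Filter k) k) := by
      induction h : evGerm P (u i) using Germ.inductionOn with
      | _ f => exact ⟨f, rfl⟩
    have h2 := evGerm_EqR P A B0 B1 B2 C0 C1 C2 C3 (x i) (u i) hE xh uh hxh huh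
    have h3 := evGerm_eventually_ne P _ hz _ (evGerm_eval₂ P (x i) xh hxh n)
    have h5 : evGerm P (q * (υ i * κ i)) =
        ((fun t => uh t * ev3 (xh t) t (uh t) Q : k → k) : Germ (cofinite : Filter k) k) := by
      rw [← mul_assoc, ← hu, map_mul, huh, hκ]
      beta_reduce
      rw [evGerm_ev3R P (x i) (u i) xh uh hxh huh Q]
      rfl
    have h4 := evGerm_frequently P (q * (υ i * κ i)) (a i) (b i) (hb i) (hab i) hns _ h5
    obtain ⟨t, ht1, ht2, ht3, ht4⟩ :=
      (h4.and_eventually (h2.and (h3.and (eventually_ne A hA0)))).exists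
    exact ht3 (hn _ _ _ ht2 ht4 ht1)
  have hmap : n.map (algebraMap k[X] (Localization.AtPrime P)) = 0 := by
    apply Polynomial.eq_zero_of_infinite_isRoot
    refine Set.Infinite.mono ?_ (hinf.image (f := x) ?_)
    · rintro _ ⟨i, ⟨hi1, hi2⟩, rfl⟩
      change Polynomial.IsRoot _ _
      rw [Polynomial.IsRoot, Polynomial.eval_map]
      exact hroot i hi1 hi2
    · intro i hi j hj hij
      exact hxinj i j hi.1 hj.1 hij
  exact (Polynomial.map_eq_zero_iff hinj).1 hmap

end P12
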