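import Pool.Agent.H.MP_89f84f_ag.P12Core
import Pool.Agent.H.MP_89f84f_ag.Sch

/-!
# Density of the quadratic points of a separated scheme with a dominant morphism from an affine
# integral scheme with an automorphism
-/

open AlgebraicGeometry CategoryTheory CategoryTheory.Limits

noncomputable section

namespace P12

/-- Two different morphisms from the spectrum of a domain to a separated scheme agree only on a
proper closed subset. -/
theorem exists_not_agree (k : Type) [Field k] (R : Type) [CommRing R] [IsDomain R] [Algebra k R]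
    (A : Over (Spec (CommRingCat.of k))) [IsSeparated A.hom]
    (f g : Spec (CommRingCat.of R) ⟶ A.left)
    (hf : f ≫ A.hom = Spec.map (CommRingCat.ofHom (algebraMap k R)))
    (hg : g ≫ A.hom = Spec.map (CommRingCat.ofHom (algebraMap k R))) (hfg : f ≠ g) :
    ∃ Z : Set (Spec (CommRingCat.of R)), IsClosed Z ∧ Z ≠ Set.univ ∧
      ∀ (W : Scheme) (w : W ⟶ Spec (CommRingCat.of R)), w ≫ f = w ≫ g →
        ∀ p, w.base p ∈ Z := by
  let X' : Over (Spec (CommRingCat.of k)) :=
    Over.mk (Spec.map (CommRingCat.ofHom (algebraMap k R)))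
  let f' : X' ⟶ A := Over.homMk f hf
  let g' : X' ⟶ A := Over.homMk g hg
  refine ⟨Set.range (equalizer.ι f' g').left.base,
    (Scheme.Hom.isClosedEmbedding _).isClosed_range, ?_, ?_⟩
  · intro hu
    apply hfg
    have : Surjective (equalizer.ι f' g').left := ⟨Set.range_eq_univ.1 hu⟩
    have : IsDominant (equalizer.ι f' g').left := inferInstance
    exact ext_of_isDominant_of_isSeparated A.hom (hf.trans hg.symm) (equalizer.ι f' g').left
      congr($(equalizer.condition f' g').left)
  · intro W w hw p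
    let W' : Over (Spec (CommRingCat.of k)) := Over.mk (w ≫ X'.hom)
    let w' : W' ⟶ X' := Over.homMk w rfl
    have hw' : w' ≫ f' = w' ≫ g' := by
      ext1
      exact hw
    have h1 : (equalizer.lift w' hw').left ≫ (equalizer.ι f' g').left = w := by
      rw [← Over.comp_left, equalizer.lift_ι]
      rfl
    refine ⟨(equalizer.lift w' hw').left.base p, ?_⟩
    conv_rhs => rw [← h1]
    rfl

/-- A field-valued point with the same image as a rational point factors through it. -/
theorem eq_of_same_point (k : Type) [Field k] (L : Type) [Field L] [Algebra k L]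
    (A : Over (Spec (CommRingCat.of k))) (g : Spec (CommRingCat.of L) ⟶ A.left)
    (hg : g ≫ A.hom = Spec.map (CommRingCat.ofHom (algebraMap k L)))
    (s : Spec (CommRingCat.of k) ⟶ A.left) (hs : s ≫ A.hom = 𝟙 _)
    (p : Spec (CommRingCat.of L)) (q : Spec (CommRingCat.of k)) (h : s.base q = g.base p) :
    g = Spec.map (CommRingCat.ofHom (algebraMap k L)) ≫ s := by
  obtain ⟨U, hU, hxU, -⟩ := exists_isAffineOpen_mem_and_subset
    (X := A.left) (x := g.base p) (U := ⊤) trivial
  have hpL : ∀ p' : Spec (CommRingCat.of L), p' = p := fun p' =>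
    Subsingleton.elim (α := PrimeSpectrum L) p' p
  have hpk : ∀ q' : Spec (CommRingCat.of k), q' = q := fun q' =>
    Subsingleton.elim (α := PrimeSpectrum k) q' q
  have hrg : Set.range g.base ⊆ Set.range hU.fromSpec.base := by
    rintro _ ⟨p', rfl⟩
    rw [hpL p']
    rw [hU.range_fromSpec]
    exact hxU
  have hrs : Set.range s.base ⊆ Set.range hU.fromSpec.base := by
    rintro _ ⟨q', rfl⟩
    rw [hpk q', h]
    rw [hU.range_fromSpec]
    exact hxU
  set g' := IsOpenImmersion.lift hU.fromSpec g hrg with hg'def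
  set s' := IsOpenImmersion.lift hU.fromSpec s hrs with hs'def
  have hg' : g' ≫ hU.fromSpec = g := IsOpenImmersion.lift_fac _ _ hrg
  have hs' : s' ≫ hU.fromSpec = s := IsOpenImmersion.lift_fac _ _ hrs
  obtain ⟨γ, hγ⟩ := Spec.map_surjective g'
  obtain ⟨σ, hσ⟩ := Spec.map_surjective s'
  obtain ⟨c, hc⟩ := Spec.map_surjective (hU.fromSpec ≫ A.hom)
  have h1 : c ≫ γ = CommRingCat.ofHom (algebraMap k L) := by
    apply Spec.map_injective
    rw [Spec.map_comp, hc, hγ, ← Category.assoc, hg', hg]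
  have h2 : c ≫ σ = 𝟙 _ := by
    apply Spec.map_injective
    rw [Spec.map_comp, hc, hσ, ← Category.assoc, hs', hs, Spec.map_id]
  have h3 : (Spec.map σ).base q = (Spec.map γ).base p := by
    apply hU.fromSpec.isOpenEmbedding.injective
    have h4 : hU.fromSpec.base ((Spec.map σ).base q) = s.base q := by
      rw [← hs', ← hσ]
      rfl
    have h5 : hU.fromSpec.base ((Spec.map γ).base p) = g.base p := by
      rw [← hg', ← hγ]
      rfl
    exact (h4.trans h).trans h5.symm
  have hq0 : q = (⊥ : PrimeSpectrum k) := Subsingleton.elim (α := PrimeSpectrum k) _ _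
  have hp0 : p = (⊥ : PrimeSpectrum L) := Subsingleton.elim (α := PrimeSpectrum L) _ _
  have h4 : ∀ r, σ.hom r = 0 → γ.hom r = 0 := by
    intro r hr
    have h6 : r ∈ ((Spec.map σ).base q).asIdeal := by
      rw [hq0]
      show σ.hom r ∈ (⊥ : Ideal k)
      exact hr
    rw [h3, hp0] at h6
    exact h6
  have h5 : γ = σ ≫ CommRingCat.ofHom (algebraMap k L) := by
    ext r
    have h6 : ∀ z : k, σ.hom (c.hom z) = z := fun z => congrArg (fun f => f.hom z) h2
    have h7 : ∀ z : k, γ.hom (c.hom z) = algebraMap k L z := fun z =>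
      congrArg (fun f => f.hom z) h1
    have h8 := h4 (r - c.hom (σ.hom r)) (by rw [map_sub, h6, sub_self])
    rw [map_sub, sub_eq_zero, h7] at h8
    exact h8
  rw [← hg', ← hγ, h5, Spec.map_comp, Category.assoc, hσ, hs']

theorem dense_of_alg3 (k : Type) [Field k] (R : Type) [CommRing R] [IsDomain R] [Algebra k R]
    (ι : R →ₐ[k] R)
    (hR : ∀ h : R, h ≠ 0 → ∃ (L : Type) (_ : Field L) (_ : Algebra k L),
      Module.finrank k L = 2 ∧ ∃ (φ : R →ₐ[k] L) (τ : L →ₐ[k] L), τ.comp φ = φ.comp ι ∧ φ h ≠ 0)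
    (A : Over (Spec (CommRingCat.of k))) [IsSeparated A.hom]
    (j : Spec (CommRingCat.of R) ⟶ A.left)
    (hj : j ≫ A.hom = Spec.map (CommRingCat.ofHom (algebraMap k R)))
    (hd : Dense (Set.range j.base))
    (hι : Spec.map (CommRingCat.ofHom ι.toRingHom) ≫ j ≠ j) : Dense (WRes.QuadPts k A) := by
  rw [dense_iff_inter_open]
  intro O hO hne
  have hιj : (Spec.map (CommRingCat.ofHom ι.toRingHom) ≫ j) ≫ A.hom =
      Spec.map (CommRingCat.ofHom (algebraMap k R)) := by
    rw [Category.assoc, hj, ← Spec.map_comp, ← CommRingCat.ofHom_comp]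
    congr 2
    exact ι.comp_algebraMap
  obtain ⟨Z, hZc, hZu, hZ⟩ := exists_not_agree k R A _ j hιj hj hι
  -- a basic open subset
  obtain ⟨_, hxO, ⟨y, rfl⟩⟩ := hd.inter_open_nonempty O hO hne
  have hV : IsOpen (j.base ⁻¹' O) := hO.preimage j.continuous
  have hVZ : ((j.base ⁻¹' O) ∩ Zᶜ).Nonempty := by
    have hirr : PreirreducibleSpace (PrimeSpectrum R) := inferInstance
    have hZne : (Zᶜ).Nonempty := Set.nonempty_compl.2 hZu
    have h1 := hirr.isPreirreducible_univ (j.base ⁻¹' O) Zᶜ hV hZc.isOpen_compl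
      ⟨y, trivial, hxO⟩ (by
        obtain ⟨z, hz⟩ := hZne
        exact ⟨z, trivial, hz⟩)
    obtain ⟨z, -, hz⟩ := h1
    exact ⟨z, hz⟩
  obtain ⟨y', hy'⟩ := hVZ
  obtain ⟨_, ⟨h, rfl⟩, hyh, hhV⟩ :=
    (PrimeSpectrum.isTopologicalBasis_basic_opens
      (R := R)).exists_subset_of_mem_open (a := y') hy' (hV.inter hZc.isOpen_compl)
  have hH : h ≠ 0 := by
    rintro rfl
    exact hyh (y'.asIdeal.zero_mem)
  obtain ⟨L, _, _, hL2, φ, τ, hτ, hφh⟩ := hR h hH
  let g : Spec (CommRingCat.of L) ⟶ A.left := Spec.map (CommRingCat.ofHom φ.toRingHom) ≫ j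
  have hg : g ≫ A.hom = Spec.map (CommRingCat.ofHom (algebraMap k L)) := by
    show (Spec.map (CommRingCat.ofHom φ.toRingHom) ≫ j) ≫ A.hom = _
    rw [Category.assoc, hj, ← Spec.map_comp, ← CommRingCat.ofHom_comp]
    congr 2
    exact φ.comp_algebraMap
  let p : Spec (CommRingCat.of L) := (⊥ : PrimeSpectrum L)
  have hp : (Spec.map (CommRingCat.ofHom φ.toRingHom)).base p ∈ (j.base ⁻¹' O) ∩ Zᶜ := by
    apply hhV
    show h ∉ (PrimeSpectrum.comap φ.toRingHom ⊥).asIdeal
    rw [PrimeSpectrum.comap_asIdeal, Ideal.mem_comap]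
    intro h0
    exact hφh h0
  refine ⟨g.base p, hp.1, ⟨L, inferInstance, inferInstance, hL2, g, hg, p, rfl⟩, ?_⟩
  rintro ⟨s, hs, q, hq⟩
  have h1 := eq_of_same_point k L A g hg s hs p q hq
  apply hp.2
  refine hZ _ (Spec.map (CommRingCat.ofHom φ.toRingHom)) ?_ p
  have h2 : Spec.map (CommRingCat.ofHom τ.toRingHom) ≫ g = g := by
    conv_lhs => rw [h1, ← Category.assoc, ← Spec.map_comp, ← CommRingCat.ofHom_comp]
    conv_rhs => rw [h1]
    congr 3
    exact τ.comp_algebraMap
  have h3 : Spec.map (CommRingCat.ofHom τ.toRingHom) ≫ g =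
      Spec.map (CommRingCat.ofHom φ.toRingHom) ≫
        (Spec.map (CommRingCat.ofHom ι.toRingHom) ≫ j) := by
    show Spec.map (CommRingCat.ofHom τ.toRingHom) ≫
      (Spec.map (CommRingCat.ofHom φ.toRingHom) ≫ j) = _
    rw [← Category.assoc, ← Category.assoc, ← Spec.map_comp, ← Spec.map_comp,
      ← CommRingCat.ofHom_comp, ← CommRingCat.ofHom_comp]
    congr 3
    exact congrArg AlgHom.toRingHom hτ
  rw [← h3, h2]

end P12
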