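import Pool.Agent.H.MP_89f84f_ag.P13Ring
import Pool.Agent.H.MP_89f84f_ag.P13Sch

/-!
# Quadratic points of the schemes dominated by the double covering `y ^ 2 = u Q(x, t, u)`
-/

open AlgebraicGeometry CategoryTheory CategoryTheory.Limits

noncomputable section

namespace P12

section values

variable {k : Type} [Field k]

/-- The norm of `H0 + H1 y`. -/
def nrm (Q H0 H1 : MvPolynomial (Fin 3) k) : MvPolynomial (Fin 3) k :=
  H0 ^ 2 - MvPolynomial.X 2 * Q * H1 ^ 2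

theorem aeval_nrm (Q H0 H1 : MvPolynomial (Fin 3) k) (p : Fin 3 → k) :
    MvPolynomial.aeval p (nrm Q H0 H1) = MvPolynomial.aeval p H0 ^ 2 -
      p 2 * MvPolynomial.aeval p Q * MvPolynomial.aeval p H1 ^ 2 := by
  simp only [nrm, map_sub, map_mul, map_pow, MvPolynomial.aeval_X]

/-- `H` is `H0 + H1 y` modulo the second equation. -/
def Dec (Q : MvPolynomial (Fin 3) k) (H : MvPolynomial (Fin 4) k)
    (H0 H1 : MvPolynomial (Fin 3) k) : Prop :=
  ∃ K : MvPolynomial (Fin 4) k, H = ren k H0 + MvPolynomial.X 3 * ren k H1 +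
        (MvPolynomial.X 3 ^ 2 - MvPolynomial.X 2 * ren k Q) * K

theorem zero_iff {L : Type} [CommRing L] [Algebra k L] [Nontrivial L]
    {Q : MvPolynomial (Fin 3) k} {H : MvPolynomial (Fin 4) k} {H0 H1 : MvPolynomial (Fin 3) k}
    (hH : Dec Q H H0 H1) (p : Fin 3 → k) (hw : ¬ IsSquare (p 2 * MvPolynomial.aeval p Q)) (y : L)
    (hy : y ^ 2 = algebraMap k L (p 2 * MvPolynomial.aeval p Q)) :
    MvPolynomial.aeval (pt4 p y) H = 0 ↔ MvPolynomial.aeval p (nrm Q H0 H1) = 0 := by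
  obtain ⟨K, hK⟩ := hH
  rw [hK, aeval_decomp Q p y hy, aeval_nrm]
  constructor
  · intro h
    obtain ⟨h1, h2⟩ := zero_of_add_mul hw y hy h
    rw [h1, h2]
    ring
  · intro h
    obtain ⟨h1, h2⟩ := zero_of_norm_eq_zero hw h
    rw [h1, h2, map_zero]
    ring

theorem aeval_pt4_mem {L : Type} [CommRing L] [Algebra k L] (e Q : MvPolynomial (Fin 3) k)
    (p : Fin 3 → k) (hp : MvPolynomial.aeval p e = 0) (y : L)
    (hy : y ^ 2 = algebraMap k L (p 2 * MvPolynomial.aeval p Q)) (H : MvPolynomial (Fin 4) k)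
    (hH : H ∈ ideal4 e Q) : MvPolynomial.aeval (pt4 p y) H = 0 := by
  obtain ⟨c, d, rfl⟩ := Ideal.mem_span_pair.1 hH
  simp only [map_add, map_mul, map_sub, map_pow, aeval_pt4_ren, aeval_pt4_y, aeval_pt4_u]
  rw [hy, hp, map_zero, map_mul]
  ring

theorem omega_sq (w : k) : (⟨0, 1⟩ : QuadraticAlgebra k w 0) ^ 2 = algebraMap k _ w := by
  rw [sq, QuadraticAlgebra.mk_mul_mk]
  ext
  · simp
  · simp

theorem lift_omega {w : k} {T : Type} [CommRing T] [Algebra k T] (u : T)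
    (hu : u * u = w • (1 : T) + (0 : k) • u) :
    QuadraticAlgebra.lift (a := w) (b := 0) ⟨u, hu⟩ (⟨0, 1⟩ : QuadraticAlgebra k w 0) = u := by
  simp [QuadraticAlgebra.lift]

theorem fact_of_not_isSquare {w : k} (hw : ¬ IsSquare w) : Fact (∀ r : k, r ^ 2 ≠ w + 0 * r) :=
  ⟨fun r hr => hw ⟨r, by rw [← sq, hr]; ring⟩⟩

theorem van_of_mem (A : Polynomial k) (e Q f : MvPolynomial (Fin 3) k)
    (H : MvPolynomial (Fin 4) k) (H0 H1 : MvPolynomial (Fin 3) k) (hH : Dec Q H H0 H1)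
    (n : ℕ) (hn : ren k f ^ n * H ∈ ideal4 e Q) : VanM A e Q (f * nrm Q H0 H1) := by
  rintro p ⟨hp, -, hw⟩
  have := fact_of_not_isSquare hw
  have h1 := aeval_pt4_mem e Q p hp _ (omega_sq (p 2 * MvPolynomial.aeval p Q)) _ hn
  rw [map_mul, map_pow, aeval_pt4_ren] at h1
  rw [map_mul]
  rcases mul_eq_zero.1 h1 with h2 | h2
  · have h3 := eq_zero_of_pow_eq_zero h2
    rw [map_eq_zero] at h3
    rw [h3, zero_mul]
  · rw [(zero_iff hH p hw _ (omega_sq (p 2 * MvPolynomial.aeval p Q))).1 h2, mul_zero]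

end values

open Polynomial

section main

variable {k : Type} [Field k] [NumberField k] {F : Type} [Field F] [CharZero F]
    [Algebra k F] (A B0 B1 B2 C0 C1 C2 C3 : k[X])
    (t0 : F) (hd0 : diag2 B0 B1 B2 ≠ 0)
    (h0 : aeval t0 (diag2 B0 B1 B2) = 0)
    (hA : aeval t0 A ≠ 0) (hC : aeval t0 (diag3 C0 C1 C2 C3) ≠ 0)
    (Q f : MvPolynomial (Fin 3) k) (hQ : aeval t0 (diag0 (emb k Q)) ≠ 0)
    (hf : aeval (MvPolynomial.X 1) A ∣ f)

include hd0 h0 hA hC hQ hf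

theorem mem_of_van (H : MvPolynomial (Fin 4) k) (H0 H1 : MvPolynomial (Fin 3) k)
    (hH : Dec Q H H0 H1)
    (h : VanM A (equationT A B0 B1 B2 C0 C1 C2 C3) Q (f * nrm Q H0 H1)) :
    ∃ n : ℕ, ren k f ^ n * H ∈ ideal4 (equationT A B0 B1 B2 C0 C1 C2 C3) Q := by
  have h2 : VanM A (equationT A B0 B1 B2 C0 C1 C2 C3) Q (f * H0) := by
    intro p hp
    have h3 := h p hp
    rw [map_mul] at h3 ⊢
    rcases mul_eq_zero.1 h3 with h4 | h4
    · rw [h4, zero_mul]
    · rw [aeval_nrm] at h4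
      rw [(zero_of_norm_eq_zero hp.2.2 h4).1, mul_zero]
  have h3 : VanM A (equationT A B0 B1 B2 C0 C1 C2 C3) Q (f * H1) := by
    intro p hp
    have h3 := h p hp
    rw [map_mul] at h3 ⊢
    rcases mul_eq_zero.1 h3 with h4 | h4
    · rw [h4, zero_mul]
    · rw [aeval_nrm] at h4
      rw [(zero_of_norm_eq_zero hp.2.2 h4).2, mul_zero]
  obtain ⟨m0, K0, h4⟩ := core4 A B0 B1 B2 C0 C1 C2 C3 t0 hd0 h0 hA hC Q hQ _ h2
  obtain ⟨m1, K1, h5⟩ := core4 A B0 B1 B2 C0 C1 C2 C3 t0 hd0 h0 hA hC Q hQ _ h3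
  obtain ⟨K, hK⟩ := hH
  obtain ⟨g, hg⟩ := hf
  refine ⟨m0 + m1 + 1, ?_⟩
  have h6 : f ^ (m0 + m1 + 1) * H0 =
      equationT A B0 B1 B2 C0 C1 C2 C3 * (K0 * (g ^ m0 * f ^ m1)) := by
    calc f ^ (m0 + m1 + 1) * H0 = f ^ m0 * f ^ m1 * (f * H0) := by ring
      _ = (aeval (MvPolynomial.X 1) A * g) ^ m0 * f ^ m1 * (f * H0) := by
        congr 3
      _ = (aeval (MvPolynomial.X 1) A ^ m0 * (f * H0)) * (g ^ m0 * f ^ m1) := by ring
      _ = _ := by rw [h4]; ring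
  have h7 : f ^ (m0 + m1 + 1) * H1 =
      equationT A B0 B1 B2 C0 C1 C2 C3 * (K1 * (g ^ m1 * f ^ m0)) := by
    calc f ^ (m0 + m1 + 1) * H1 = f ^ m1 * f ^ m0 * (f * H1) := by ring
      _ = (aeval (MvPolynomial.X 1) A * g) ^ m1 * f ^ m0 * (f * H1) := by
        congr 3
      _ = (aeval (MvPolynomial.X 1) A ^ m1 * (f * H1)) * (g ^ m1 * f ^ m0) := by ring
      _ = _ := by rw [h5]; ring
  have h8 := congrArg (ren k) h6
  have h9 := congrArg (ren k) h7
  rw [map_mul, map_mul, map_pow] at h8 h9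
  have h10 : ren k f ^ (m0 + m1 + 1) * H =
      (ren k (K0 * (g ^ m0 * f ^ m1)) + MvPolynomial.X 3 * ren k (K1 * (g ^ m1 * f ^ m0))) *
        ren k (equationT A B0 B1 B2 C0 C1 C2 C3) +
      (ren k f ^ (m0 + m1 + 1) * K) * (MvPolynomial.X 3 ^ 2 - MvPolynomial.X 2 * ren k Q) := by
    rw [hK]
    linear_combination h8 + MvPolynomial.X 3 * h9
  rw [h10]
  exact Ideal.mem_span_pair.2 ⟨_, _, rfl⟩

variable (R : Type) [CommRing R] [Algebra k R]
    [Algebra (MvPolynomial (Fin 4) k ⧸ ideal4 (equationT A B0 B1 B2 C0 C1 C2 C3) Q) R]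
    [IsScalarTower k (MvPolynomial (Fin 4) k ⧸ ideal4 (equationT A B0 B1 B2 C0 C1 C2 C3) Q) R]
    [IsLocalization.Away
      (Ideal.Quotient.mk (ideal4 (equationT A B0 B1 B2 C0 C1 C2 C3) Q) (ren k f)) R]

theorem zero_iff_van (H : MvPolynomial (Fin 4) k) (H0 H1 : MvPolynomial (Fin 3) k)
    (hH : Dec Q H H0 H1) :
    algebraMap _ R (Ideal.Quotient.mk (ideal4 (equationT A B0 B1 B2 C0 C1 C2 C3) Q) H) = 0 ↔
      VanM A (equationT A B0 B1 B2 C0 C1 C2 C3) Q (f * nrm Q H0 H1) := by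
  rw [IsLocalization.map_eq_zero_iff (Submonoid.powers
    (Ideal.Quotient.mk (ideal4 (equationT A B0 B1 B2 C0 C1 C2 C3) Q) (ren k f))) R]
  constructor
  · rintro ⟨⟨_, n, rfl⟩, h⟩
    refine van_of_mem A _ Q f H H0 H1 hH n ?_
    rw [← Ideal.Quotient.eq_zero_iff_mem, map_mul, map_pow]
    exact h
  · intro h
    obtain ⟨n, hn⟩ := mem_of_van A B0 B1 B2 C0 C1 C2 C3 t0 hd0 h0 hA hC Q f hQ hf H H0 H1 hH h
    refine ⟨⟨_, n, rfl⟩, ?_⟩
    rw [← Ideal.Quotient.eq_zero_iff_mem, map_mul, map_pow] at hn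
    exact hn

theorem isDomain_of_nontrivial [Nontrivial R] : IsDomain R := by
  have key : NoZeroDivisors R := by
    constructor
    intro a b hab
    obtain ⟨n, s, hs⟩ := IsLocalization.Away.surj
      (Ideal.Quotient.mk (ideal4 (equationT A B0 B1 B2 C0 C1 C2 C3) Q) (ren k f)) a
    obtain ⟨m, r, hr⟩ := IsLocalization.Away.surj
      (Ideal.Quotient.mk (ideal4 (equationT A B0 B1 B2 C0 C1 C2 C3) Q) (ren k f)) b
    obtain ⟨H, rfl⟩ := Ideal.Quotient.mk_surjective s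
    obtain ⟨H', rfl⟩ := Ideal.Quotient.mk_surjective r
    have hu : IsUnit (algebraMap _ R
        (Ideal.Quotient.mk (ideal4 (equationT A B0 B1 B2 C0 C1 C2 C3) Q) (ren k f))) :=
      IsLocalization.Away.algebraMap_isUnit _
    obtain ⟨H0, H1, hH⟩ : ∃ H0 H1, Dec Q H H0 H1 := decomp Q H
    obtain ⟨H0', H1', hH'⟩ : ∃ H0 H1, Dec Q H' H0 H1 := decomp Q H'
    obtain ⟨H0'', H1'', hH''⟩ : ∃ H0 H1, Dec Q (H * H') H0 H1 := decomp Q (H * H')
    have h1 : algebraMap _ R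
        (Ideal.Quotient.mk (ideal4 (equationT A B0 B1 B2 C0 C1 C2 C3) Q) (H * H')) = 0 := by
      rw [map_mul, map_mul, ← hs, ← hr]
      linear_combination (algebraMap _ R (Ideal.Quotient.mk
        (ideal4 (equationT A B0 B1 B2 C0 C1 C2 C3) Q) (ren k f)) ^ n * algebraMap _ R
        (Ideal.Quotient.mk (ideal4 (equationT A B0 B1 B2 C0 C1 C2 C3) Q) (ren k f)) ^ m) * hab
    rw [zero_iff_van A B0 B1 B2 C0 C1 C2 C3 t0 hd0 h0 hA hC Q f hQ hf R _ _ _ hH''] at h1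
    have h2 : VanM A (equationT A B0 B1 B2 C0 C1 C2 C3) Q
        ((f * nrm Q H0 H1) * nrm Q H0' H1') := by
      intro p hp
      have h3 := h1 p hp
      have := fact_of_not_isSquare hp.2.2
      rw [map_mul] at h3
      rw [map_mul, map_mul]
      rcases mul_eq_zero.1 h3 with h4 | h4
      · rw [h4, zero_mul, zero_mul]
      · have hom := omega_sq (p 2 * MvPolynomial.aeval p Q)
        rw [← zero_iff hH'' p hp.2.2 _ hom, map_mul] at h4
        rcases mul_eq_zero.1 h4 with h5 | h5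
        · rw [zero_iff hH p hp.2.2 _ hom] at h5
          rw [h5, mul_zero, zero_mul]
        · rw [zero_iff hH' p hp.2.2 _ hom] at h5
          rw [h5, mul_zero]
    rcases vanM_mul A B0 B1 B2 C0 C1 C2 C3 t0 hd0 h0 hA hC Q hQ _ _ h2 with h3 | h3
    · left
      rw [← zero_iff_van A B0 B1 B2 C0 C1 C2 C3 t0 hd0 h0 hA hC Q f hQ hf R _ _ _ hH,
        ← hs] at h3
      exact (hu.pow n).mul_left_eq_zero.1 h3
    · right
      have h4 : VanM A (equationT A B0 B1 B2 C0 C1 C2 C3) Q (f * nrm Q H0' H1') := by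
        intro p hp
        rw [map_mul, h3 p hp, mul_zero]
      rw [← zero_iff_van A B0 B1 B2 C0 C1 C2 C3 t0 hd0 h0 hA hC Q f hQ hf R _ _ _ hH',
        ← hr] at h4
      exact (hu.pow m).mul_left_eq_zero.1 h4
  exact NoZeroDivisors.to_isDomain R

theorem y_ne_zero [Nontrivial R] : algebraMap _ R
    (Ideal.Quotient.mk (ideal4 (equationT A B0 B1 B2 C0 C1 C2 C3) Q)
      (MvPolynomial.X 3 : MvPolynomial (Fin 4) k)) ≠ 0 := by
  intro h
  have hdec : Dec Q (MvPolynomial.X 3 : MvPolynomial (Fin 4) k) 0 1 := ⟨0, by simp⟩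
  have hdec1 : Dec Q (1 : MvPolynomial (Fin 4) k) 1 0 := ⟨0, by simp⟩
  rw [zero_iff_van A B0 B1 B2 C0 C1 C2 C3 t0 hd0 h0 hA hC Q f hQ hf R _ _ _ hdec] at h
  have h1 : algebraMap _ R (Ideal.Quotient.mk (ideal4 (equationT A B0 B1 B2 C0 C1 C2 C3) Q)
      (1 : MvPolynomial (Fin 4) k)) ≠ 0 := by
    rw [map_one, map_one]
    exact one_ne_zero
  apply h1
  rw [zero_iff_van A B0 B1 B2 C0 C1 C2 C3 t0 hd0 h0 hA hC Q f hQ hf R _ _ _ hdec1]
  intro p hp
  have h2 := h p hp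
  rw [map_mul] at h2 ⊢
  rcases mul_eq_zero.1 h2 with h3 | h3
  · rw [h3, zero_mul]
  · exfalso
    rw [aeval_nrm, map_zero, map_one] at h3
    apply hp.2.2
    have h4 : p 2 * MvPolynomial.aeval p Q = 0 := by linear_combination -h3
    rw [h4]
    exact IsSquare.zero

/-- Quadratic points outside of a given proper closed subset. -/
theorem exists_quadratic (ι : R →ₐ[k] R)
    (hι1 : ∀ G : MvPolynomial (Fin 3) k, ι (algebraMap _ R
      (Ideal.Quotient.mk (ideal4 (equationT A B0 B1 B2 C0 C1 C2 C3) Q) (ren k G))) =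
      algebraMap _ R
      (Ideal.Quotient.mk (ideal4 (equationT A B0 B1 B2 C0 C1 C2 C3) Q) (ren k G)))
    (hι2 : ι (algebraMap _ R
      (Ideal.Quotient.mk (ideal4 (equationT A B0 B1 B2 C0 C1 C2 C3) Q) (MvPolynomial.X 3))) =
      -algebraMap _ R
      (Ideal.Quotient.mk (ideal4 (equationT A B0 B1 B2 C0 C1 C2 C3) Q) (MvPolynomial.X 3)))
    (h : R) (hh : h ≠ 0) : ∃ (L : Type) (_ : Field L) (_ : Algebra k L),
      Module.finrank k L = 2 ∧ ∃ (φ : R →ₐ[k] L) (τ : L →ₐ[k] L),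
        τ.comp φ = φ.comp ι ∧ φ h ≠ 0 := by
  obtain ⟨n, s, hs⟩ := IsLocalization.Away.surj (Ideal.Quotient.mk (ideal4 (equationT A B0 B1 B2 C0 C1 C2 C3) Q) (ren k f)) h
  obtain ⟨H, rfl⟩ := Ideal.Quotient.mk_surjective s
  have hu : IsUnit (algebraMap _ R (Ideal.Quotient.mk (ideal4 (equationT A B0 B1 B2 C0 C1 C2 C3) Q) (ren k f))) :=
    IsLocalization.Away.algebraMap_isUnit _
  obtain ⟨H0, H1, hH⟩ : ∃ H0 H1, Dec Q H H0 H1 := decomp Q H
  have h1 : algebraMap _ R (Ideal.Quotient.mk (ideal4 (equationT A B0 B1 B2 C0 C1 C2 C3) Q) H) ≠ 0 := by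
    rw [← hs]
    intro h2
    exact hh ((hu.pow n).mul_left_eq_zero.1 h2)
  rw [ne_eq, zero_iff_van A B0 B1 B2 C0 C1 C2 C3 t0 hd0 h0 hA hC Q f hQ hf R _ _ _ hH] at h1
  unfold VanM at h1
  push Not at h1
  obtain ⟨p, hp, hne⟩ := h1
  rw [map_mul] at hne
  have hfp := left_ne_zero_of_mul hne
  have hnp := right_ne_zero_of_mul hne
  have := fact_of_not_isSquare hp.2.2
  refine ⟨QuadraticAlgebra k (p 2 * MvPolynomial.aeval p Q) 0, inferInstance, inferInstance,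
    QuadraticAlgebra.finrank_eq_two _ _, ?_⟩
  set ω : QuadraticAlgebra k (p 2 * MvPolynomial.aeval p Q) 0 := ⟨0, 1⟩ with hω
  have hω2 : ω ^ 2 = algebraMap k _ (p 2 * MvPolynomial.aeval p Q) := omega_sq _
  rw [ne_eq, ← zero_iff hH p hp.2.2 ω hω2] at hnp
  let ψ : (MvPolynomial (Fin 4) k ⧸ ideal4 (equationT A B0 B1 B2 C0 C1 C2 C3) Q) →ₐ[k]
      QuadraticAlgebra k (p 2 * MvPolynomial.aeval p Q) 0 :=
    Ideal.Quotient.liftₐ (ideal4 (equationT A B0 B1 B2 C0 C1 C2 C3) Q) (MvPolynomial.aeval (pt4 p ω))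
      (fun G hG => aeval_pt4_mem _ Q p hp.1 ω hω2 G hG)
  have hψ : ∀ G, ψ (Ideal.Quotient.mk (ideal4 (equationT A B0 B1 B2 C0 C1 C2 C3) Q) G) = MvPolynomial.aeval (pt4 p ω) G := fun G => rfl
  have hψf : ψ (Ideal.Quotient.mk (ideal4 (equationT A B0 B1 B2 C0 C1 C2 C3) Q) (ren k f)) ≠ 0 := by
    rw [hψ, aeval_pt4_ren, ne_eq, map_eq_zero]
    exact hfp
  let φ : R →ₐ[k] QuadraticAlgebra k (p 2 * MvPolynomial.aeval p Q) 0 :=
    IsLocalization.liftAlgHom (M := Submonoid.powers (Ideal.Quotient.mk (ideal4 (equationT A B0 B1 B2 C0 C1 C2 C3) Q) (ren k f))) (f := ψ) (by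
      rintro ⟨_, m, rfl⟩
      show IsUnit (ψ ((Ideal.Quotient.mk (ideal4 (equationT A B0 B1 B2 C0 C1 C2 C3) Q) (ren k f)) ^ m))
      rw [map_pow]
      exact (IsUnit.mk0 _ hψf).pow m)
  have hφ : ∀ r, φ (algebraMap _ _ r) = ψ r := by
    intro r
    exact IsLocalization.lift_eq _ r
  let τ : QuadraticAlgebra k (p 2 * MvPolynomial.aeval p Q) 0 →ₐ[k]
      QuadraticAlgebra k (p 2 * MvPolynomial.aeval p Q) 0 := QuadraticAlgebra.lift ⟨-ω, by
    rw [neg_mul_neg, ← sq, hω2, Algebra.smul_def, mul_one, zero_smul, add_zero]⟩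
  have hτω : τ ω = -ω := lift_omega (-ω) _
  refine ⟨φ, τ, ?_, ?_⟩
  · have h2 : ((τ.comp φ).toRingHom) = ((φ.comp ι).toRingHom) := by
      apply IsLocalization.ringHom_ext (Submonoid.powers (Ideal.Quotient.mk (ideal4 (equationT A B0 B1 B2 C0 C1 C2 C3) Q) (ren k f)))
      apply Ideal.Quotient.ringHom_ext
      apply MvPolynomial.ringHom_ext
      · intro c
        show τ (φ (algebraMap _ R (Ideal.Quotient.mk (ideal4 (equationT A B0 B1 B2 C0 C1 C2 C3) Q) (MvPolynomial.C c)))) =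
          φ (ι (algebraMap _ R (Ideal.Quotient.mk (ideal4 (equationT A B0 B1 B2 C0 C1 C2 C3) Q) (MvPolynomial.C c))))
        have h3 : (MvPolynomial.C c : MvPolynomial (Fin 4) k) = ren k (MvPolynomial.C c) := by
          rw [ren, MvPolynomial.rename_C]
        rw [h3, hι1, hφ, hψ, aeval_pt4_ren, AlgHom.commutes]
      · intro i
        show τ (φ (algebraMap _ R (Ideal.Quotient.mk (ideal4 (equationT A B0 B1 B2 C0 C1 C2 C3) Q) (MvPolynomial.X i)))) =
          φ (ι (algebraMap _ R (Ideal.Quotient.mk (ideal4 (equationT A B0 B1 B2 C0 C1 C2 C3) Q) (MvPolynomial.X i))))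
        rcases Fin.eq_castSucc_or_eq_last i with ⟨j, rfl⟩ | rfl
        · have h3 : (MvPolynomial.X j.castSucc : MvPolynomial (Fin 4) k) =
              ren k (MvPolynomial.X j) := by
            rw [ren, MvPolynomial.rename_X]
          rw [h3, hι1, hφ, hψ, aeval_pt4_ren, AlgHom.commutes]
        · have h3 : (MvPolynomial.X (Fin.last 3) : MvPolynomial (Fin 4) k) =
            MvPolynomial.X 3 := rfl
          rw [h3, hι2, map_neg, hφ, hψ, aeval_pt4_y, hτω]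
    apply AlgHom.coe_ringHom_injective
    exact h2
  · intro h2
    apply hnp
    rw [← hψ, ← hφ, ← hs, map_mul, h2, zero_mul]

end main

theorem dense_surface3 {k : Type} [Field k] [NumberField k] {F : Type} [Field F] [CharZero F]
    [Algebra k F] (A B0 B1 B2 C0 C1 C2 C3 : k[X])
    (t0 : F) (hd0 : diag2 B0 B1 B2 ≠ 0)
    (h0 : aeval t0 (diag2 B0 B1 B2) = 0)
    (hA : aeval t0 A ≠ 0) (hC : aeval t0 (diag3 C0 C1 C2 C3) ≠ 0)
    (Q f : MvPolynomial (Fin 3) k) (hQ : aeval t0 (diag0 (emb k Q)) ≠ 0)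
    (hf : aeval (MvPolynomial.X 1) A ∣ f) (R : Type) [CommRing R] [Algebra k R]
    [Algebra (MvPolynomial (Fin 4) k ⧸ ideal4 (equationT A B0 B1 B2 C0 C1 C2 C3) Q) R]
    [IsScalarTower k (MvPolynomial (Fin 4) k ⧸ ideal4 (equationT A B0 B1 B2 C0 C1 C2 C3) Q) R]
    [IsLocalization.Away
      (Ideal.Quotient.mk (ideal4 (equationT A B0 B1 B2 C0 C1 C2 C3) Q) (ren k f)) R]
    (ι : R →ₐ[k] R)
    (hι1 : ∀ G : MvPolynomial (Fin 3) k, ι (algebraMap _ R
      (Ideal.Quotient.mk (ideal4 (equationT A B0 B1 B2 C0 C1 C2 C3) Q) (ren k G))) =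
      algebraMap _ R
      (Ideal.Quotient.mk (ideal4 (equationT A B0 B1 B2 C0 C1 C2 C3) Q) (ren k G)))
    (hι2 : ι (algebraMap _ R
      (Ideal.Quotient.mk (ideal4 (equationT A B0 B1 B2 C0 C1 C2 C3) Q) (MvPolynomial.X 3))) =
      -algebraMap _ R
      (Ideal.Quotient.mk (ideal4 (equationT A B0 B1 B2 C0 C1 C2 C3) Q) (MvPolynomial.X 3)))
    (S : Over (Spec (CommRingCat.of k))) [IsSeparated S.hom]
    (j : Spec (CommRingCat.of R) ⟶ S.left)
    (hj : j ≫ S.hom = Spec.map (CommRingCat.ofHom (algebraMap k R)))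
    (hd : Dense (Set.range j.base))
    (hne : Spec.map (CommRingCat.ofHom ι.toRingHom) ≫ j ≠ j) : Dense (WRes.QuadPts k S) := by
  have hR : Nontrivial R := by
    by_contra hcon
    rw [not_nontrivial_iff_subsingleton] at hcon
    apply hne
    have h2 : CommRingCat.ofHom ι.toRingHom = 𝟙 (CommRingCat.of R) := by
      ext r
      exact Subsingleton.elim (α := R) _ _
    rw [h2, Spec.map_id, Category.id_comp]
  have hdom := isDomain_of_nontrivial A B0 B1 B2 C0 C1 C2 C3 t0 hd0 h0 hA hC Q f hQ hf R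
  exact dense_of_alg3 k R ι
    (exists_quadratic A B0 B1 B2 C0 C1 C2 C3 t0 hd0 h0 hA hC Q f hQ hf R ι hι1 hι2) S j hj hd hne

/-- Density of quadratic points can be checked on a dense open subscheme. -/
theorem dense_of_open (k : Type) [Field k] (R : Type) [CommRing R] [Algebra k R]
    (S' : Over (Spec (CommRingCat.of k))) (S : Over (Spec (CommRingCat.of k)))
    (j : S'.left ⟶ S.left) [IsOpenImmersion j] (hj : j ≫ S.hom = S'.hom)
    (hd : Dense (Set.range j.base)) (h : Dense (WRes.QuadPts k S')) :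
    Dense (WRes.QuadPts k S) := by
  have h1 : Dense (j.base '' WRes.QuadPts k S') :=
    DenseRange.dense_image (f := j.base) hd j.continuous h
  refine h1.mono ?_
  rintro _ ⟨x, ⟨⟨L, i1, i2, hL, g, hg, p, hp⟩, hx⟩, rfl⟩
  refine ⟨⟨L, i1, i2, hL, g ≫ j, by rw [Category.assoc, hj, hg], p, ?_⟩, ?_⟩
  · rw [← hp]
    rfl
  · rintro ⟨s, hs, q, hq⟩
    apply hx
    have hrange : Set.range s.base ⊆ Set.range j.base := by
      rintro _ ⟨q', rfl⟩
      have : q' = q := Subsingleton.elim (α := PrimeSpectrum k) q' q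
      rw [this, hq]
      exact ⟨_, rfl⟩
    have hs' : IsOpenImmersion.lift j s hrange ≫ j = s := IsOpenImmersion.lift_fac j s hrange
    refine ⟨IsOpenImmersion.lift j s hrange, ?_, q, ?_⟩
    · rw [← hj, ← Category.assoc, hs', hs]
    · apply j.isOpenEmbedding.injective
      have h4 : j.base ((IsOpenImmersion.lift j s hrange).base q) = s.base q := by
        conv_rhs => rw [← hs']
        rfl
      exact h4.trans hq

end P12
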