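import Pool.Agent.H.MP_89f84f_ag.P13Core
import Pool.Agent.H.MP_89f84f_ag.P12Fin

/-!
# The coordinate ring of the double covering `y ^ 2 = u Q(x, t, u)` of the surface
`A(t) u ^ 2 + B(x, t) u + (x - t) C(x, t) = 0`
-/

noncomputable section

namespace P12

section defs

variable {k : Type} [Field k]

open MvPolynomial in
/-- The polynomial `A(t) u ^ 2 + (B0(t) + B1(t) x + B2(t) x ^ 2) u +
(x - t) (C0(t) + C1(t) x + C2(t) x ^ 2 + C3(t) x ^ 3)`, where `x = X 0`, `t = X 1`, `u = X 2`. -/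
def equationT (A B0 B1 B2 C0 C1 C2 C3 : Polynomial k) : MvPolynomial (Fin 3) k :=
  Polynomial.aeval (X 1) A * X 2 ^ 2 + (Polynomial.aeval (X 1) B0 +
    Polynomial.aeval (X 1) B1 * X 0 + Polynomial.aeval (X 1) B2 * X 0 ^ 2) * X 2 +
    (X 0 - X 1) * (Polynomial.aeval (X 1) C0 + Polynomial.aeval (X 1) C1 * X 0 +
      Polynomial.aeval (X 1) C2 * X 0 ^ 2 + Polynomial.aeval (X 1) C3 * X 0 ^ 3)

/-- The inclusion of the polynomials in `x, t, u` into those in `x, t, u, y`. -/
def ren (k : Type) [Field k] : MvPolynomial (Fin 3) k →ₐ[k] MvPolynomial (Fin 4) k :=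
  MvPolynomial.rename Fin.castSucc

/-- The ideal of the double covering `y ^ 2 = u Q(x, t, u)`. -/
def ideal4 (e Q : MvPolynomial (Fin 3) k) : Ideal (MvPolynomial (Fin 4) k) :=
  Ideal.span {ren k e, MvPolynomial.X 3 ^ 2 - MvPolynomial.X 2 * ren k Q}

/-- The point `(x, t, u, y)`, where `p = (x, t, u)`. -/
def pt4 {L : Type} [CommRing L] [Algebra k L] (p : Fin 3 → k) (y : L) : Fin 4 → L :=
  Fin.snoc (α := fun _ => L) (fun i => algebraMap k L (p i)) y

theorem aeval_pt4_ren {L : Type} [CommRing L] [Algebra k L] (p : Fin 3 → k) (y : L)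
    (G : MvPolynomial (Fin 3) k) : MvPolynomial.aeval (pt4 p y) (ren k G) =
      algebraMap k L (MvPolynomial.aeval p G) := by
  rw [ren, MvPolynomial.aeval_rename]
  have h : (pt4 p y ∘ Fin.castSucc : Fin 3 → L) = fun i => algebraMap k L (p i) := by
    funext i
    simp [pt4]
  rw [h]
  have h2 := MvPolynomial.aeval_algebraMap_apply L p G
  exact h2

theorem aeval_pt4_y {L : Type} [CommRing L] [Algebra k L] (p : Fin 3 → k) (y : L) :
    MvPolynomial.aeval (pt4 p y) (MvPolynomial.X 3 : MvPolynomial (Fin 4) k) = y := by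
  rw [MvPolynomial.aeval_X]
  exact Fin.snoc_last (α := fun _ => L) y (fun i => algebraMap k L (p i))

theorem aeval_pt4_u {L : Type} [CommRing L] [Algebra k L] (p : Fin 3 → k) (y : L) :
    MvPolynomial.aeval (pt4 p y) (MvPolynomial.X 2 : MvPolynomial (Fin 4) k) =
      algebraMap k L (p 2) := by
  have h := aeval_pt4_ren p y (MvPolynomial.X 2)
  rw [ren, MvPolynomial.rename_X, MvPolynomial.aeval_X (R := k) p 2] at h
  exact h

theorem ren_X2 : ren k (MvPolynomial.X 2) = MvPolynomial.X 2 := by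
  rw [ren, MvPolynomial.rename_X]
  rfl

/-- Modulo the second equation a polynomial is of degree at most one in `y`. -/
theorem decomp (Q : MvPolynomial (Fin 3) k) (H : MvPolynomial (Fin 4) k) :
    ∃ (H0 H1 : MvPolynomial (Fin 3) k) (K : MvPolynomial (Fin 4) k),
      H = ren k H0 + MvPolynomial.X 3 * ren k H1 +
        (MvPolynomial.X 3 ^ 2 - MvPolynomial.X 2 * ren k Q) * K := by
  induction H using MvPolynomial.induction_on with
  | C a =>
    refine ⟨MvPolynomial.C a, 0, 0, ?_⟩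
    rw [ren, MvPolynomial.rename_C, map_zero, mul_zero, mul_zero, add_zero, add_zero]
  | add p q hp hq =>
    obtain ⟨H0, H1, K, h⟩ := hp
    obtain ⟨H0', H1', K', h'⟩ := hq
    refine ⟨H0 + H0', H1 + H1', K + K', ?_⟩
    rw [h, h', map_add, map_add]
    ring
  | mul_X p i hp =>
    obtain ⟨H0, H1, K, h⟩ := hp
    rcases Fin.eq_castSucc_or_eq_last i with ⟨j, rfl⟩ | rfl
    · refine ⟨H0 * MvPolynomial.X j, H1 * MvPolynomial.X j, K * MvPolynomial.X j.castSucc, ?_⟩
      have h2 : ren k (MvPolynomial.X j) = MvPolynomial.X j.castSucc := by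
        rw [ren, MvPolynomial.rename_X]
      rw [h, map_mul, map_mul, h2]
      ring
    · refine ⟨MvPolynomial.X 2 * Q * H1, H0, K * MvPolynomial.X 3 + ren k H1, ?_⟩
      have h2 : (MvPolynomial.X (Fin.last 3) : MvPolynomial (Fin 4) k) = MvPolynomial.X 3 := rfl
      rw [h, map_mul, map_mul, ren_X2, h2]
      ring

/-- The norm of `a + b y`. -/
theorem zero_of_norm_eq_zero {w a b : k} (hw : ¬ IsSquare w) (h : a ^ 2 - w * b ^ 2 = 0) :
    a = 0 ∧ b = 0 := by
  have hb : b = 0 := by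
    by_contra hb
    apply hw
    refine ⟨a / b, ?_⟩
    field_simp
    linear_combination -h
  refine ⟨?_, hb⟩
  rw [hb] at h
  have h2 : a ^ 2 = 0 := by linear_combination h
  exact pow_eq_zero_iff two_ne_zero |>.1 h2

theorem zero_of_add_mul {L : Type} [CommRing L] [Algebra k L] [Nontrivial L] {w a b : k}
    (hw : ¬ IsSquare w) (y : L) (hy : y ^ 2 = algebraMap k L w)
    (h : algebraMap k L a + y * algebraMap k L b = 0) : a = 0 ∧ b = 0 := by
  apply zero_of_norm_eq_zero hw
  apply (algebraMap k L).injective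
  rw [map_sub, map_mul, map_pow, map_pow, map_zero, ← hy]
  linear_combination (algebraMap k L a - y * algebraMap k L b) * h

theorem aeval_decomp {L : Type} [CommRing L] [Algebra k L] (Q : MvPolynomial (Fin 3) k)
    (p : Fin 3 → k) (y : L) (hy : y ^ 2 = algebraMap k L (p 2 * MvPolynomial.aeval p Q))
    (H0 H1 : MvPolynomial (Fin 3) k) (K : MvPolynomial (Fin 4) k) :
    MvPolynomial.aeval (pt4 p y) (ren k H0 + MvPolynomial.X 3 * ren k H1 +
        (MvPolynomial.X 3 ^ 2 - MvPolynomial.X 2 * ren k Q) * K) =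
      algebraMap k L (MvPolynomial.aeval p H0) + y * algebraMap k L (MvPolynomial.aeval p H1) := by
  simp only [map_add, map_mul, map_sub, map_pow, aeval_pt4_ren, aeval_pt4_y, aeval_pt4_u]
  rw [hy, map_mul]
  ring

/-- The point `p = (x, t, u)` of the quotient surface is good. -/
def GoodM (A : Polynomial k) (e Q : MvPolynomial (Fin 3) k) (p : Fin 3 → k) : Prop :=
  MvPolynomial.aeval p e = 0 ∧ A.eval (p 1) ≠ 0 ∧ ¬ IsSquare (p 2 * MvPolynomial.aeval p Q)

/-- `G` vanishes at the good points. -/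
def VanM (A : Polynomial k) (e Q G : MvPolynomial (Fin 3) k) : Prop :=
  ∀ p : Fin 3 → k, GoodM A e Q p → MvPolynomial.aeval p G = 0

end defs

open Polynomial

theorem ev3_emb' {k : Type} [Field k] {F : Type} [CommRing F] [Algebra k F] (x t y : F)
    (H : MvPolynomial (Fin 3) k) : ev3 x t y (emb k H) = MvPolynomial.aeval ![x, t, y] H := by
  have h : (ev3 x t y).comp (emb k).toRingHom =
      (MvPolynomial.aeval ![x, t, y] : MvPolynomial (Fin 3) k →ₐ[k] F).toRingHom := by
    apply MvPolynomial.ringHom_ext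
    · intro c
      show ev3 x t y (emb k (MvPolynomial.C c)) = MvPolynomial.aeval ![x, t, y] (MvPolynomial.C c)
      have h1 : emb k (MvPolynomial.C c) = C (C (C c)) := by
        simp [emb, Polynomial.algebraMap_apply]
      rw [h1, ev3_C, ev2_C, Polynomial.aeval_C, MvPolynomial.aeval_C]
    · intro i
      show ev3 x t y (emb k (MvPolynomial.X i)) = MvPolynomial.aeval ![x, t, y] (MvPolynomial.X i)
      fin_cases i
      · simp [emb]
      · simp [emb]
      · simp [emb]
  exact congrArg (fun f => f H) h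

theorem aeval_equationT {k : Type} [Field k] {T : Type} [CommRing T] [Algebra k T]
    (A B0 B1 B2 C0 C1 C2 C3 : Polynomial k) (x t y : T) :
    MvPolynomial.aeval ![x, t, y] (equationT A B0 B1 B2 C0 C1 C2 C3) =
      aeval t A * y ^ 2 + (aeval t B0 + aeval t B1 * x + aeval t B2 * x ^ 2) * y +
      (x - t) * (aeval t C0 + aeval t C1 * x + aeval t C2 * x ^ 2 + aeval t C3 * x ^ 3) := by
  have h : ∀ p : Polynomial k, MvPolynomial.aeval ![x, t, y]
      (Polynomial.aeval (MvPolynomial.X 1 : MvPolynomial (Fin 3) k) p) = aeval t p := by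
    intro p
    have h1 := Polynomial.aeval_algHom_apply
      (MvPolynomial.aeval ![x, t, y] : MvPolynomial (Fin 3) k →ₐ[k] T) (MvPolynomial.X 1) p
    rw [← h1, MvPolynomial.aeval_X]
    rfl
  simp only [equationT, map_add, map_mul, map_pow, map_sub, h, MvPolynomial.aeval_X]
  rfl

section main

variable {k : Type} [Field k] [NumberField k] {F : Type} [Field F] [CharZero F]
    [Algebra k F] (A B0 B1 B2 C0 C1 C2 C3 : k[X])

theorem goodM_iff (Q : MvPolynomial (Fin 3) k) (x t u : k) :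
    GoodM A (equationT A B0 B1 B2 C0 C1 C2 C3) Q ![x, t, u] ↔
      Good A B0 B1 B2 C0 C1 C2 C3 (emb k Q) x t u := by
  unfold GoodM Good
  rw [ev3_emb', aeval_equationT]
  simp only [Polynomial.coe_aeval_eq_eval]
  exact Iff.rfl

theorem vanM_iff (Q G : MvPolynomial (Fin 3) k) :
    VanM A (equationT A B0 B1 B2 C0 C1 C2 C3) Q G ↔
      Van A B0 B1 B2 C0 C1 C2 C3 (emb k Q) (emb k G) := by
  constructor
  · intro h x t u hg
    rw [ev3_emb']
    exact h _ ((goodM_iff A B0 B1 B2 C0 C1 C2 C3 Q x t u).2 hg)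
  · intro h p hp
    have hpv : p = ![p 0, p 1, p 2] := by
      funext i
      fin_cases i <;> rfl
    rw [hpv] at hp ⊢
    have h2 := h _ _ _ ((goodM_iff A B0 B1 B2 C0 C1 C2 C3 Q _ _ _).1 hp)
    rw [ev3_emb'] at h2
    exact h2

variable (t0 : F) (hd0 : diag2 B0 B1 B2 ≠ 0)
    (h0 : aeval t0 (diag2 B0 B1 B2) = 0)
    (hA : aeval t0 A ≠ 0) (hC : aeval t0 (diag3 C0 C1 C2 C3) ≠ 0)
    (Q : MvPolynomial (Fin 3) k) (hQ : aeval t0 (diag0 (emb k Q)) ≠ 0)

include hd0 h0 hA hC hQ

theorem vanM_mul (G G' : MvPolynomial (Fin 3) k)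
    (h : VanM A (equationT A B0 B1 B2 C0 C1 C2 C3) Q (G * G')) :
    VanM A (equationT A B0 B1 B2 C0 C1 C2 C3) Q G ∨
      VanM A (equationT A B0 B1 B2 C0 C1 C2 C3) Q G' := by
  rw [vanM_iff, map_mul] at h
  rw [vanM_iff, vanM_iff]
  exact van_mul A B0 B1 B2 C0 C1 C2 C3 t0 hd0 h0 hA hC (emb k Q) hQ _ _ h

theorem core4 (G : MvPolynomial (Fin 3) k)
    (h : VanM A (equationT A B0 B1 B2 C0 C1 C2 C3) Q G) :
    ∃ (m : ℕ) (K : MvPolynomial (Fin 3) k), aeval (MvPolynomial.X 1) A ^ m * G =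
      equationT A B0 B1 B2 C0 C1 C2 C3 * K := by
  rw [vanM_iff] at h
  obtain ⟨m, K, h2⟩ := core3 A B0 B1 B2 C0 C1 C2 C3 t0 hd0 h0 hA hC (emb k Q) hQ _ h
  refine ⟨m, ev3 (MvPolynomial.X 0) (MvPolynomial.X 1) (MvPolynomial.X 2) K, ?_⟩
  have h3 := congrArg (ev3 (MvPolynomial.X 0 : MvPolynomial (Fin 3) k) (MvPolynomial.X 1)
    (MvPolynomial.X 2)) h2
  have h4 : (![MvPolynomial.X 0, MvPolynomial.X 1, MvPolynomial.X 2] :
      Fin 3 → MvPolynomial (Fin 3) k) = MvPolynomial.X := by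
    funext i
    fin_cases i <;> rfl
  rw [map_mul, ev3_emb', h4, MvPolynomial.aeval_X_left_apply, map_mul, ev3_C, map_pow, ev2_C] at h3
  rw [h3]
  congr 1
  simp only [map_add, map_mul, map_pow, ev3_C, ev3_X, ev2_C, BB, CC, map_sub, ev2_X, equationT]
  rw [Polynomial.aeval_X]

end main

end P12
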