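import Pool.Agent.H.MP_89f84f_ag.Agr

/-!
# Functions on the product of two curves `y ^ 2 = f x`
-/

open Polynomial

noncomputable section

namespace WRes

variable {F : Type*} [Field F]

/-- On `y₁ ^ 2 = f₁ x₁`, `y₂ ^ 2 = f₂ x₂` the function `g` is `α + β y₁ + γ y₂ + δ y₁ y₂`. -/
def Dec (f₁ f₂ : F[X]) (g : F → F → F → F → F) (α β γ δ : F[X][X]) : Prop :=
  ∀ x₁ y₁ x₂ y₂ : F, y₁ ^ 2 = aeval x₁ f₁ → y₂ ^ 2 = aeval x₂ f₂ →
    g x₁ y₁ x₂ y₂ = ev x₁ x₂ α + ev x₁ x₂ β * y₁ + ev x₁ x₂ γ * y₂ + ev x₁ x₂ δ * (y₁ * y₂)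

/-- The function has such a decomposition. -/
def HasDec (f₁ f₂ : F[X]) (g : F → F → F → F → F) : Prop :=
  ∃ α β γ δ, Dec f₁ f₂ g α β γ δ

namespace HasDec

variable {f₁ f₂ : F[X]} {g h : F → F → F → F → F}

theorem const (c : F) : HasDec f₁ f₂ (fun _ _ _ _ => c) :=
  ⟨C (C c), 0, 0, 0, fun x₁ y₁ x₂ y₂ _ _ => by simp⟩

theorem x1 : HasDec f₁ f₂ (fun x₁ _ _ _ => x₁) :=
  ⟨C X, 0, 0, 0, fun x₁ y₁ x₂ y₂ _ _ => by simp⟩

theorem x2 : HasDec f₁ f₂ (fun _ _ x₂ _ => x₂) :=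
  ⟨X, 0, 0, 0, fun x₁ y₁ x₂ y₂ _ _ => by simp⟩

theorem y1 : HasDec f₁ f₂ (fun _ y₁ _ _ => y₁) :=
  ⟨0, 1, 0, 0, fun x₁ y₁ x₂ y₂ _ _ => by simp⟩

theorem y2 : HasDec f₁ f₂ (fun _ _ _ y₂ => y₂) :=
  ⟨0, 0, 1, 0, fun x₁ y₁ x₂ y₂ _ _ => by simp⟩

theorem add (H : HasDec f₁ f₂ g) (H' : HasDec f₁ f₂ h) :
    HasDec f₁ f₂ (fun x₁ y₁ x₂ y₂ => g x₁ y₁ x₂ y₂ + h x₁ y₁ x₂ y₂) := by
  obtain ⟨α, β, γ, δ, H⟩ := H
  obtain ⟨α', β', γ', δ', H'⟩ := H'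
  refine ⟨α + α', β + β', γ + γ', δ + δ', fun x₁ y₁ x₂ y₂ h1 h2 => ?_⟩
  simp only [map_add]
  rw [H _ _ _ _ h1 h2, H' _ _ _ _ h1 h2]
  ring

theorem mul (H : HasDec f₁ f₂ g) (H' : HasDec f₁ f₂ h) :
    HasDec f₁ f₂ (fun x₁ y₁ x₂ y₂ => g x₁ y₁ x₂ y₂ * h x₁ y₁ x₂ y₂) := by
  obtain ⟨α, β, γ, δ, H⟩ := H
  obtain ⟨α', β', γ', δ', H'⟩ := H'
  refine ⟨α * α' + β * β' * C f₁ + γ * γ' * f₂.map C + δ * δ' * C f₁ * f₂.map C,
    α * β' + β * α' + (γ * δ' + δ * γ') * f₂.map C,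
    α * γ' + γ * α' + (β * δ' + δ * β') * C f₁,
    α * δ' + δ * α' + β * γ' + γ * β', fun x₁ y₁ x₂ y₂ h1 h2 => ?_⟩
  simp only [map_add, map_mul, ev_C, ev_mapC]
  rw [H _ _ _ _ h1 h2, H' _ _ _ _ h1 h2, ← h1, ← h2]
  ring

theorem congr' (H : HasDec f₁ f₂ g) (e : ∀ x₁ y₁ x₂ y₂, h x₁ y₁ x₂ y₂ = g x₁ y₁ x₂ y₂) :
    HasDec f₁ f₂ h := by
  obtain ⟨α, β, γ, δ, H⟩ := H
  exact ⟨α, β, γ, δ, fun x₁ y₁ x₂ y₂ h1 h2 => by rw [e, H _ _ _ _ h1 h2]⟩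

end HasDec

/-- The point of `F⁴` with real and imaginary parts of `x₁, x₂` and `y₁, y₂`. -/
def pt (θ x₁ y₁ x₂ y₂ : F) : Fin 4 → F :=
  ![(x₁ + x₂) / 2, (x₁ - x₂) / (2 * θ), (y₁ + y₂) / 2, (y₁ - y₂) / (2 * θ)]

theorem hasDec_eval (f₁ f₂ : F[X]) (θ : F) (Φ : MvPolynomial (Fin 4) F) :
    HasDec f₁ f₂ (fun x₁ y₁ x₂ y₂ => MvPolynomial.eval (pt θ x₁ y₁ x₂ y₂) Φ) := by
  induction Φ using MvPolynomial.induction_on with
  | C c => exact (HasDec.const c).congr' fun _ _ _ _ => by simp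
  | add p q hp hq => exact (hp.add hq).congr' fun _ _ _ _ => by simp
  | mul_X p i hp =>
    have hi : HasDec f₁ f₂ (fun x₁ y₁ x₂ y₂ => pt θ x₁ y₁ x₂ y₂ i) := by
      have hs : ∀ {u v : F → F → F → F → F}, HasDec f₁ f₂ u → HasDec f₁ f₂ v →
          HasDec f₁ f₂ (fun x₁ y₁ x₂ y₂ => (u x₁ y₁ x₂ y₂ + v x₁ y₁ x₂ y₂) / 2) :=
        fun hu hv => ((hu.add hv).mul (HasDec.const 2⁻¹)).congr' fun _ _ _ _ => by
          rw [div_eq_mul_inv]
      have hd : ∀ {u v : F → F → F → F → F}, HasDec f₁ f₂ u → HasDec f₁ f₂ v →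
          HasDec f₁ f₂ (fun x₁ y₁ x₂ y₂ => (u x₁ y₁ x₂ y₂ - v x₁ y₁ x₂ y₂) / (2 * θ)) :=
        fun hu hv => ((hu.add (hv.mul (HasDec.const (-1)))).mul
          (HasDec.const (2 * θ)⁻¹)).congr' fun _ _ _ _ => by
          rw [div_eq_mul_inv]
          ring
      fin_cases i
      · exact hs HasDec.x1 HasDec.x2
      · exact hd HasDec.x1 HasDec.x2
      · exact hs HasDec.y1 HasDec.y2
      · exact hd HasDec.y1 HasDec.y2
    exact (hp.mul hi).congr' fun _ _ _ _ => by simp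

theorem natDegree_pf (a b : F) : (pf a b).natDegree = 3 := by
  unfold pf
  compute_degree!

/-- Parity, first case. -/
theorem parity_one {A B : F[X][X]} {f : F[X]} (hf : f ≠ 0) {a b : F}
    (h : A ^ 2 - B ^ 2 * C f * (pf a b).map C = 0) : A = 0 ∧ B = 0 := by
  have h1 : A ^ 2 = B ^ 2 * C f * (pf a b).map C := sub_eq_zero.1 h
  have hg : ((pf a b).map (C : F →+* F[X])).natDegree = 3 := by
    rw [natDegree_map_eq_of_injective C_injective, natDegree_pf]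
  have hg0 : (pf a b).map (C : F →+* F[X]) ≠ 0 := by
    intro h0
    rw [h0, natDegree_zero] at hg
    omega
  have hB : B = 0 := by
    by_contra hB
    have h2 := congrArg natDegree h1
    rw [natDegree_pow, natDegree_mul (mul_ne_zero (pow_ne_zero _ hB) (C_ne_zero.2 hf)) hg0,
      natDegree_mul (pow_ne_zero _ hB) (C_ne_zero.2 hf), natDegree_pow, natDegree_C, hg] at h2
    omega
  refine ⟨?_, hB⟩
  rw [hB, zero_pow two_ne_zero, zero_mul, zero_mul] at h1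
  exact pow_eq_zero_iff two_ne_zero |>.1 h1

/-- Parity, second case. -/
theorem parity_two {A B : F[X][X]} {f : F[X]} (hf : f ≠ 0) {a b : F}
    (h : A ^ 2 * C f - B ^ 2 * (pf a b).map C = 0) : A = 0 ∧ B = 0 := by
  have h1 : A ^ 2 * C f = B ^ 2 * (pf a b).map C := sub_eq_zero.1 h
  have hg : ((pf a b).map (C : F →+* F[X])).natDegree = 3 := by
    rw [natDegree_map_eq_of_injective C_injective, natDegree_pf]
  have hg0 : (pf a b).map (C : F →+* F[X]) ≠ 0 := by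
    intro h0
    rw [h0, natDegree_zero] at hg
    omega
  have hB : B = 0 := by
    by_contra hB
    have hA : A ≠ 0 := by
      rintro rfl
      rw [zero_pow two_ne_zero, zero_mul] at h1
      exact mul_ne_zero (pow_ne_zero _ hB) hg0 h1.symm
    have h2 := congrArg natDegree h1
    rw [natDegree_mul (pow_ne_zero _ hA) (C_ne_zero.2 hf), natDegree_mul (pow_ne_zero _ hB) hg0,
      natDegree_pow, natDegree_pow, natDegree_C, hg] at h2
    omega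
  refine ⟨?_, hB⟩
  rw [hB, zero_pow two_ne_zero, zero_mul] at h1
  exact pow_eq_zero_iff two_ne_zero |>.1 ((mul_eq_zero.1 h1).resolve_right (C_ne_zero.2 hf))

/-- A polynomial in two variables with many zeros is zero. -/
theorem zero_lemma {G : F[X][X]} {U : Set F} (hU : U.Infinite)
    (h : ∀ u ∈ U, {v | ev u v G = 0}.Infinite) : G = 0 := by
  have h1 : ∀ u ∈ U, G.map (aeval u : F[X] →ₐ[F] F).toRingHom = 0 := by
    intro u hu
    by_contra hne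
    refine h u hu ((Polynomial.finite_setOfPred_isRoot hne).subset fun v hv => ?_)
    show eval v (G.map (aeval u : F[X] →ₐ[F] F).toRingHom) = 0
    rw [eval_map]
    exact hv
  ext1 n
  rw [coeff_zero]
  by_contra hne
  refine hU ((Polynomial.finite_setOfPred_isRoot hne).subset fun u hu => ?_)
  have h2 := congrArg (fun p => coeff p n) (h1 u hu)
  simp only [coeff_map, coeff_zero] at h2
  show eval u (G.coeff n) = 0
  exact h2

end WRes
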