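import Pool.Agent.H.MP_89f84f_ag.P12Fin2

/-!
# Quadratic points on abelian surfaces with a polarisation of type (1, 2) (MP_89f84f_ag)

`k` is a number field and `S` is the affine surface
`A(t) y ^ 4 + B(x, t) y ^ 2 + (x - t) C(x, t) = 0` over `k`, where `B` and `C` are polynomials of
degree at most two and three in `x`. If `B(t, t)` is not zero and has a root at which `A(t)` and
`C(t, t)` do not vanish, then the quadratic points are dense in every `k`-scheme which is birational
to `S`.

Every abelian surface `X` over `k` with a polarisation of type `(1, 2)`, which is not a product of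
elliptic curves, is birational to such a surface: there is one line bundle `L` in the class of the
polarisation with the origin in the base locus of the pencil `|L|`; let `t` be the parameter of this
pencil of curves `D_t` of genus three, identified with the tangent direction of `D_t` at the origin,
and let `x` be the tangent direction at the point. The quotient of `D_t` by `-1` is a double
covering of the `x`-line of genus one, and `D_t` is its double covering given by the square root `y`
of a function which has poles of degree two in `x` and vanishes at the four base points, which are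
the kernel of the polarisation; the origin is the base point with `x = t`.

If `X` is geometrically simple, then the hypotheses on the root always hold if the coordinate `t` is
chosen such that the form `β` below is not zero at infinity (this is not formalised either). A curve
`D_t` is irreducible: there is no elliptic curve on `X`, so a reducible one would have a
self-intersection number of at least `2 + 2 + 2 * 2`. It has geometric genus at least two, so it is
smooth up to at most one double point, which is a node at a point `q` of order two outside of the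
kernel `K(L)`; this happens for twelve different values `t_q`. The tangent direction `x` and `t` make
the Kummer surface a finite double covering of `P¹ × P¹`, with a smooth branch curve `Δ = 0` of
bidegree `(4, 4)`. Here `A` is the product of the `t - t_q`, the bidegrees of `B` and `(x - t) C` are
`(2, 8)` and `(4, 4)`, and `B ^ 2 - 4 A (x - t) C = g(t) ^ 2 Δ`, where the six roots of `g`, which
are the roots of `C(t, t)`, are the fixed points of `K(L)` on the `t`-line. So `B(t, t) = g β` with
a form `β` of degree four, which is not zero since `Δ = 0` is smooth. A root `t₀` of `β` is a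
parameter for which the origin is a ramification point of the double covering of the `x`-line; so
`C(t₀, t₀) ≠ 0`, since over a root of `g` the function `y ^ 2` is a function of `x` with four
different zeros on `D_t / (-1)`, and `A(t₀) ≠ 0`, since over `t_q` the ramification points are the
intersection points of two components, and the origin is on only one of them.

An abelian surface over `k` with a polarisation of type `(1, d)` is isogenous over `k` to one with a
polarisation of type `(1, d')`, where `d'` is the squarefree part of `d`. So the theorem applies to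
all geometrically simple abelian surfaces with a polarisation over `k` of type `(1, 2 m ^ 2)`. For
the geometric Picard number one and `d' ≠ 2` the Pell equation `l ^ 2 - 2 d' m ^ 2 = 1` gives a
symmetric curve over `k` (Bauer and Szemberg) whose quotient by `-1` is a projective line over `k`,
so a quadratic point `P` of infinite order with conjugate `-P`, whose multiples are dense; there is
no such equation for `d' = 2`, which is the case of this file.
-/

open AlgebraicGeometry CategoryTheory

noncomputable section

namespace Pool.Agent.Results.MP_89f84f_ag.TypeOneTwo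

section ring

variable {k : Type} [Field k]

/-- The polynomial `A(t) y ^ 4 + B(x, t) y ^ 2 + (x - t) C(x, t)` in the variables `x = X 0`,
`t = X 1` and `y = X 2`; here `A ∈ k[t]`, and `B` and `C` are polynomials in `x` with coefficients
in `k[t]`. -/
def equation (A : Polynomial k) (B C : Polynomial (Polynomial k)) : MvPolynomial (Fin 3) k :=
  Polynomial.aeval (MvPolynomial.X 1) A * MvPolynomial.X 2 ^ 4 +
    Polynomial.aevalAeval (MvPolynomial.X 1) (MvPolynomial.X 0) B * MvPolynomial.X 2 ^ 2 +
    (MvPolynomial.X 0 - MvPolynomial.X 1) *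
      Polynomial.aevalAeval (MvPolynomial.X 1) (MvPolynomial.X 0) C

/-- The coordinate ring of the surface `A(t) y ^ 4 + B(x, t) y ^ 2 + (x - t) C(x, t) = 0`. -/
abbrev SRing (A : Polynomial k) (B C : Polynomial (Polynomial k)) : Type :=
  MvPolynomial (Fin 3) k ⧸ Ideal.span {equation A B C}

/-- `f` is a function on the surface which is divisible by `A(t)`. -/
def DvdA (A : Polynomial k) (B C : Polynomial (Polynomial k)) (f : SRing A B C) : Prop :=
  Ideal.Quotient.mk (Ideal.span {equation A B C}) (Polynomial.aeval (MvPolynomial.X 1) A) ∣ f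

/-- The open subscheme `f ≠ 0` of the surface, as a scheme over `k`. -/
def openPart (A : Polynomial k) (B C : Polynomial (Polynomial k)) (f : SRing A B C) :
    Over (Spec (CommRingCat.of k)) :=
  Over.mk (Spec.map (CommRingCat.ofHom (algebraMap k (Localization.Away f))))

end ring

/-- The points of degree two of a `k`-scheme: those which are the image of `Spec L` for a field
extension `L` of degree two, but not of `Spec k`. -/
def QuadPts (k : Type) [Field k] (A : Over (Spec (CommRingCat.of k))) : Set A.left :=
  {x : A.left |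
    (∃ (L : Type) (_ : Field L) (_ : Algebra k L),
      Module.finrank k L = 2 ∧
      ∃ g : Spec (CommRingCat.of L) ⟶ A.left,
        g ≫ A.hom = Spec.map (CommRingCat.ofHom (algebraMap k L)) ∧
        ∃ p, g.base p = x) ∧
    ¬ ∃ s : Spec (CommRingCat.of k) ⟶ A.left, s ≫ A.hom = 𝟙 _ ∧ ∃ p, s.base p = x}

open Polynomial in
theorem eq_of_le_two {R : Type} [CommRing R] (p : R[X]) (hp : p.natDegree ≤ 2) :
    p = C (p.coeff 0) + C (p.coeff 1) * X + C (p.coeff 2) * X ^ 2 := by
  conv_lhs => rw [p.as_sum_range_C_mul_X_pow' (n := 3) (by omega)]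
  simp [Finset.sum_range_succ]

open Polynomial in
theorem eq_of_le_three {R : Type} [CommRing R] (p : R[X]) (hp : p.natDegree ≤ 3) :
    p = C (p.coeff 0) + C (p.coeff 1) * X + C (p.coeff 2) * X ^ 2 + C (p.coeff 3) * X ^ 3 := by
  conv_lhs => rw [p.as_sum_range_C_mul_X_pow' (n := 4) (by omega)]
  simp [Finset.sum_range_succ]

theorem equation_eq {k : Type} [Field k] (A : Polynomial k) (B C : Polynomial (Polynomial k))
    (hB : B.natDegree ≤ 2) (hC : C.natDegree ≤ 3) :
    equation A B C = P12.equation A (B.coeff 0) (B.coeff 1) (B.coeff 2) (C.coeff 0) (C.coeff 1)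
      (C.coeff 2) (C.coeff 3) := by
  unfold equation P12.equation
  conv_lhs => rw [eq_of_le_two B hB, eq_of_le_three C hC]
  simp only [map_add, map_mul, map_pow, Polynomial.aevalAeval_C, Polynomial.aevalAeval_Y]

/-- The general theorem in terms of the coefficients. -/
theorem dense_aux (k : Type) [Field k] [NumberField k] (F : Type) [Field F] [CharZero F]
    [Algebra k F] [IsAlgClosed F] (A : Polynomial k) (B C : Polynomial (Polynomial k)) (t₀ : F)
    (h₁ : P12.diag2 (B.coeff 0) (B.coeff 1) (B.coeff 2) ≠ 0)
    (h₀ : Polynomial.aeval t₀ (P12.diag2 (B.coeff 0) (B.coeff 1) (B.coeff 2)) = 0)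
    (hA : Polynomial.aeval t₀ A ≠ 0)
    (hC : Polynomial.aeval t₀ (P12.diag3 (C.coeff 0) (C.coeff 1) (C.coeff 2) (C.coeff 3)) ≠ 0)
    (e : MvPolynomial (Fin 3) k) (he : e = P12.equation A (B.coeff 0) (B.coeff 1) (B.coeff 2)
      (C.coeff 0) (C.coeff 1) (C.coeff 2) (C.coeff 3))
    (f : MvPolynomial (Fin 3) k ⧸ Ideal.span {e})
    (hf : Ideal.Quotient.mk (Ideal.span {e}) (Polynomial.aeval (MvPolynomial.X 1) A) ∣ f)
    (S : Over (Spec (CommRingCat.of k)))
    (j : Spec (CommRingCat.of (Localization.Away f)) ⟶ S.left) (_ : IsOpenImmersion j)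
    (hj : j ≫ S.hom = Spec.map (CommRingCat.ofHom (algebraMap k (Localization.Away f))))
    (hd : Dense (Set.range j.base)) : Dense (WRes.QuadPts k S) := by
  subst he
  exact P12.dense_surface' k F A (B.coeff 0) (B.coeff 1) (B.coeff 2) (C.coeff 0) (C.coeff 1)
    (C.coeff 2) (C.coeff 3) t₀ h₁ h₀ hA hC f hf S j hj hd

/-- **Theorem.** Let `k` be a number field, `A ∈ k[t]` and `B, C ∈ k[t][x]` of degrees at most two
and three in `x`. Suppose that `B(t, t)` is not zero and has a root `t₀` with `A(t₀) ≠ 0` and
`C(t₀, t₀) ≠ 0`. Let `S` be the affine surface `A(t) y ^ 4 + B(x, t) y ^ 2 + (x - t) C(x, t) = 0`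
and `f` a function on `S` which is divisible by `A`. In every `k`-scheme `X` which contains the
open subscheme `f ≠ 0` of `S` as a dense open subscheme the quadratic points are dense. -/
theorem result (k : Type) [Field k] [NumberField k]
    (A : Polynomial k) (B C : Polynomial (Polynomial k))
    (hB : B.natDegree ≤ 2) (hC : C.natDegree ≤ 3)
    (h₁ : B.eval Polynomial.X ≠ 0)
    (t₀ : AlgebraicClosure k)
    (h₀ : Polynomial.aeval t₀ (B.eval Polynomial.X) = 0)
    (hA₀ : Polynomial.aeval t₀ A ≠ 0)
    (hC₀ : Polynomial.aeval t₀ (C.eval Polynomial.X) ≠ 0)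
    (f : SRing A B C) (hf : DvdA A B C f)
    (X : Over (Spec (CommRingCat.of k))) (j : openPart A B C f ⟶ X) [hj : IsOpenImmersion j.left]
    [hd : IsDominant j.left] : Dense (QuadPts k X) := by
  have hd2 : B.eval Polynomial.X = P12.diag2 (B.coeff 0) (B.coeff 1) (B.coeff 2) := by
    conv_lhs => rw [eq_of_le_two B hB]
    simp [P12.diag2]
  have hd3 : C.eval Polynomial.X =
      P12.diag3 (C.coeff 0) (C.coeff 1) (C.coeff 2) (C.coeff 3) := by
    conv_lhs => rw [eq_of_le_three C hC]
    simp [P12.diag3]
  rw [hd2] at h₀ h₁
  rw [hd3] at hC₀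
  exact dense_aux k (AlgebraicClosure k) A B C t₀ h₁ h₀ hA₀ hC₀ (equation A B C)
    (equation_eq A B C hB hC) f hf X j.left hj (Over.w j) hd.denseRange

/-!
## An explicit family

Let `c = X ^ 3 + a X + b` and `F = X ^ 4 - 2 a X ^ 2 - 8 b X + a ^ 2`. The four roots of
`F(x) c(t) - F(t) c(x)` are an orbit of a group of order four acting on the projective line, which
has generators defined over the field of the roots of `c`. Let `α = a0 + a1 X + a2 X ^ 2` and let
`trᵢ` be the sum of `α(e) e ^ i` over the roots `e` of `c`. The surfaces below are birational to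
abelian surfaces with a polarisation of type `(1, 2)`, whose kernel has a point of order two for
every root of `c`. (All such abelian surfaces for which the kernel acts on the parameter `∞` of the
pencil with an orbit of four elements arise in this way.) The theorem applies to them if `h` is not
zero and has a root `t₀` which is not a root of `w` and `A`; for example if `a = 0`, `α = 1`,
`b μ ≠ 0` and `t₀ = 0`.
-/

section family

open Polynomial

variable {k : Type} [Field k] (a b : k)

/-- `c = X ^ 3 + a X + b`. -/
def cubic : k[X] := X ^ 3 + C a * X + C b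

/-- `F = X ^ 4 - 2 a X ^ 2 - 8 b X + a ^ 2`. -/
def quartic : k[X] := X ^ 4 - 2 * C a * X ^ 2 - 8 * C b * X + C a ^ 2

/-- `w = F' c - F c'`, explicitly. -/
def sextic : k[X] :=
  (4 * X ^ 3 - 4 * C a * X - 8 * C b) * cubic a b - quartic a b * (3 * X ^ 2 + C a)

/-- The sum of `p0 + p1 e + p2 e ^ 2` over the roots `e` of `c`. -/
def tr0 (p0 p2 : k) : k := 3 * p0 - 2 * a * p2

/-- The sum of `e (p0 + p1 e + p2 e ^ 2)` over the roots `e` of `c`. -/
def tr1 (p1 p2 : k) : k := -2 * a * p1 - 3 * b * p2

/-- The sum of `e ^ 2 (p0 + p1 e + p2 e ^ 2)` over the roots `e` of `c`. -/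
def tr2 (p0 p1 p2 : k) : k := -2 * a * p0 - 3 * b * p1 + 2 * a ^ 2 * p2

/-- The polynomial `h`. -/
def hPoly (a0 a1 a2 : k) : k[X] :=
  C (tr0 a a0 a2) * X ^ 4 + 2 * C (tr1 a b a1 a2) * X ^ 3 +
    6 * C (a * tr0 a a0 a2 + tr2 a b a0 a1 a2) * X ^ 2 +
    2 * C (2 * b * tr0 a a0 a2 - a * tr1 a b a1 a2) * X +
    C (a ^ 2 * tr0 a a0 a2 + 2 * a * tr2 a b a0 a1 a2 - 4 * b * tr1 a b a1 a2)

/-- The coefficient `A` of `y ^ 4`; here `r0 + r1 X + r2 X ^ 2` is `α ^ 2` modulo `c`. -/
def APoly (a0 a1 a2 μ : k) : k[X] :=
  let r0 := a0 ^ 2 - 2 * a1 * a2 * b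
  let r1 := 2 * a0 * a1 - 2 * a1 * a2 * a - a2 ^ 2 * b
  let r2 := a1 ^ 2 + 2 * a0 * a2 - a2 ^ 2 * a
  C (3 * tr1 a b r1 r2 / 2) * quartic a b ^ 3 +
    C (4 * (3 * tr2 a b r0 r1 r2 + a * tr0 a r0 r2)) * quartic a b ^ 2 * cubic a b -
    C (8 * (a * tr1 a b r1 r2 + 6 * b * tr0 a r0 r2)) * quartic a b * cubic a b ^ 2 +
    C (32 * (2 * a * tr2 a b r0 r1 r2 - 3 * b * tr1 a b r1 r2 + 2 * a ^ 2 * tr0 a r0 r2)) *
      cubic a b ^ 3 - C (μ / 4) * sextic a b ^ 2

/-- The coefficient `B` of `y ^ 2`, a polynomial in `x` with coefficients in `k[t]`. -/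
def BPoly (a0 a1 a2 : k) : k[X][X] :=
  let P0 := C (tr0 a a0 a2) * quartic a b ^ 2 +
    4 * C (tr1 a b a1 a2) * quartic a b * cubic a b +
    16 * C (tr2 a b a0 a1 a2 + a * tr0 a a0 a2) * cubic a b ^ 2
  let P1 := C (tr1 a b a1 a2) * quartic a b ^ 2 +
    4 * C (tr2 a b a0 a1 a2) * quartic a b * cubic a b -
    16 * C (b * tr0 a a0 a2) * cubic a b ^ 2
  let P2 := C (tr2 a b a0 a1 a2) * quartic a b ^ 2 -
    4 * C (a * tr1 a b a1 a2 + b * tr0 a a0 a2) * quartic a b * cubic a b -
    16 * C (b * tr1 a b a1 a2) * cubic a b ^ 2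
  C (-(C a * P0 + 2 * P2)) + C (-2 * P1) * X + C P0 * X ^ 2

/-- The polynomial `(F(x) c(t) - F(t) c(x)) / (x - t)` in `x` with coefficients in `k[t]`. -/
def CPoly : k[X][X] :=
  let F := quartic a b
  let c := cubic a b
  C (((c * X - F) * X - 2 * C a * c) * X - 8 * C b * c - C a * F) +
    C ((c * X - F) * X - 2 * C a * c) * X + C (c * X - F) * X ^ 2 + C c * X ^ 3

theorem CPoly_mul : (X - C X) * CPoly a b =
    (quartic a b).map C * C (cubic a b) - C (quartic a b) * (cubic a b).map C := by
  simp only [CPoly, quartic, cubic, Polynomial.map_add, Polynomial.map_sub, Polynomial.map_mul,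
    Polynomial.map_pow, Polynomial.map_X, Polynomial.map_C, Polynomial.map_ofNat, C_add, C_sub,
    C_mul, C_pow, C_ofNat]
  ring

theorem natDegree_le_two (p q r : k[X]) : (C p + C q * X + C r * X ^ 2).natDegree ≤ 2 := by
  compute_degree

theorem natDegree_le_three (p q r s : k[X]) :
    (C p + C q * X + C r * X ^ 2 + C s * X ^ 3).natDegree ≤ 3 := by
  compute_degree

theorem CPoly_natDegree : (CPoly a b).natDegree ≤ 3 := natDegree_le_three _ _ _ _

theorem BPoly_natDegree (a0 a1 a2 : k) : (BPoly a b a0 a1 a2).natDegree ≤ 2 :=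
  natDegree_le_two _ _ _

theorem CPoly_eval : (CPoly a b).eval X = sextic a b := by
  simp only [CPoly, Polynomial.eval_add, Polynomial.eval_mul, Polynomial.eval_pow,
    Polynomial.eval_X, Polynomial.eval_C]
  simp only [sextic, quartic, cubic]
  ring

theorem BPoly_eval (a0 a1 a2 : k) :
    (BPoly a b a0 a1 a2).eval X = sextic a b * hPoly a b a0 a1 a2 := by
  simp only [BPoly, Polynomial.eval_add, Polynomial.eval_mul, Polynomial.eval_pow,
    Polynomial.eval_X, Polynomial.eval_C]
  simp only [sextic, quartic, cubic, hPoly, C_add, C_sub, C_mul, C_pow, C_ofNat]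
  ring

end family

/-- The theorem for the explicit family. -/
theorem family (k : Type) [Field k] [NumberField k] (a b a0 a1 a2 μ : k)
    (h₁ : hPoly a b a0 a1 a2 ≠ 0) (t₀ : AlgebraicClosure k)
    (h₀ : Polynomial.aeval t₀ (hPoly a b a0 a1 a2) = 0)
    (hw : Polynomial.aeval t₀ (sextic a b) ≠ 0)
    (hA : Polynomial.aeval t₀ (APoly a b a0 a1 a2 μ) ≠ 0)
    (f : SRing (APoly a b a0 a1 a2 μ) (BPoly a b a0 a1 a2) (CPoly a b))
    (hf : DvdA _ _ _ f) (X : Over (Spec (CommRingCat.of k))) (j : openPart _ _ _ f ⟶ X)
    [IsOpenImmersion j.left] [IsDominant j.left] : Dense (QuadPts k X) := by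
  refine result k _ _ _ (BPoly_natDegree a b a0 a1 a2) (CPoly_natDegree a b) ?_ t₀ ?_ hA ?_ f hf X j
  · rw [BPoly_eval]
    refine mul_ne_zero ?_ h₁
    intro h
    rw [h, map_zero] at hw
    exact hw rfl
  · rw [BPoly_eval, map_mul, h₀, mul_zero]
  · rw [CPoly_eval]
    exact hw

end Pool.Agent.Results.MP_89f84f_ag.TypeOneTwo
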